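import Mathlib

/-!
Borel marker sets for free Borel actions of `ℤ × ℤ`.
-/

namespace Pool.Agent.Lib.MP_946880_lc.Bor

open Set

/-- A free measurable action of `ℤ × ℤ`, given as a function. -/
structure Act (X : Type*) [MeasurableSpace X] where
  a : ℤ × ℤ → X → X
  zero : ∀ x, a 0 x = x
  add : ∀ g h x, a (g + h) x = a g (a h x)
  meas : ∀ g, Measurable (a g)
  free : ∀ g x, a g x = x → g = 0

/-- Smallness in the supremum norm. -/
def Sm (r : ℤ) (g : ℤ × ℤ) : Prop := -r ≤ g.1 ∧ g.1 ≤ r ∧ -r ≤ g.2 ∧ g.2 ≤ r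

theorem Sm.neg {r : ℤ} {g : ℤ × ℤ} (h : Sm r g) : Sm r (-g) := by
  unfold Sm at *
  simp only [Prod.fst_neg, Prod.snd_neg]
  omega

theorem sm_finite (r : ℤ) : {g | Sm r g}.Finite :=
  ((Set.finite_Icc (-r) r).prod (Set.finite_Icc (-r) r)).subset fun _ h =>
    ⟨⟨h.1, h.2.1⟩, h.2.2⟩

variable {X : Type*} [MeasurableSpace X]

theorem Act.neg_cancel (A : Act X) (g : ℤ × ℤ) (x : X) : A.a (-g) (A.a g x) = x := by
  rw [← A.add, neg_add_cancel, A.zero]

theorem exists_marker [MeasurableSpace.CountablySeparated X] (A : Act X) (r : ℤ) (hr : 0 ≤ r) :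
    ∃ M : Set X, MeasurableSet M ∧ (∀ x g, x ∈ M → A.a g x ∈ M → Sm r g → g = 0) ∧
      ∀ x, ∃ g, Sm r g ∧ A.a g x ∈ M := by
  classical
  obtain ⟨ι, hι, hinj⟩ := MeasurableSpace.measurable_injection_nat_bool_of_countablySeparated X
  obtain ⟨e, he⟩ := exists_surjective_nat (ℕ × Finset ℕ)
  let ag : ℕ → Set X := fun n => {x | ∀ i, i < (e n).1 → (ι x i = true ↔ i ∈ (e n).2)}
  have hag : ∀ n, MeasurableSet (ag n) := fun n => by
    simp only [ag, ofPred_forall]
    refine MeasurableSet.iInter fun i => MeasurableSet.iInter fun _ => ?_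
    exact ((measurable_pi_apply i).comp hι) (MeasurableSet.of_discrete
      (s := {b : Bool | b = true ↔ i ∈ (e n).2}))
  have far : ∀ S : Set X, MeasurableSet S →
      MeasurableSet {x | ∀ g, Sm r g → g ≠ 0 → A.a g x ∉ S} := fun S hS => by
    simp only [ofPred_forall]
    exact MeasurableSet.iInter fun g => MeasurableSet.iInter fun _ =>
      MeasurableSet.iInter fun _ => (A.meas g hS).compl
  let B : ℕ → Set X := fun n => ag n ∩ {x | ∀ g, Sm r g → g ≠ 0 → A.a g x ∉ ag n}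
  have hB : ∀ x, ∃ n, x ∈ B n := fun x => by
    have h1 : ∀ g : ℤ × ℤ, ∃ i, g ≠ 0 → ι (A.a g x) i ≠ ι x i := fun g => by
      by_cases hg : g = 0
      · exact ⟨0, fun h => absurd hg h⟩
      · by_contra hc
        push Not at hc
        exact hg (A.free g x (hinj (funext fun i => (hc i).2)))
    choose u hu using h1
    obtain ⟨n, hn⟩ := ((sm_finite r).image u).bddAbove
    obtain ⟨m, hm⟩ := he (n + 1, (Finset.range (n + 1)).filter fun i => ι x i = true)
    refine ⟨m, fun i hi => ?_, fun g hg hg0 h => hu g hg0 ?_⟩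
    · rw [hm] at hi ⊢
      simp only [Finset.mem_filter, Finset.mem_range] at hi ⊢
      tauto
    · have h2 : u g ≤ n := hn ⟨g, hg, rfl⟩
      have h3 := h (u g) (by rw [hm]; exact Nat.lt_succ_of_le h2)
      rw [hm] at h3
      simp only [Finset.mem_filter, Finset.mem_range, Nat.lt_succ_of_le h2, true_and] at h3
      exact Bool.eq_iff_iff.mpr h3
  let M : ℕ → Set X := fun n => Nat.rec ∅
    (fun n S => S ∪ (B n ∩ {x | ∀ g, Sm r g → g ≠ 0 → A.a g x ∉ S})) n
  have Ms : ∀ n, M (n + 1) = M n ∪ (B n ∩ {x | ∀ g, Sm r g → g ≠ 0 → A.a g x ∉ M n}) :=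
    fun n => rfl
  have hM : ∀ n, MeasurableSet (M n) := fun n => by
    induction n with
    | zero => exact MeasurableSet.empty
    | succ n ih => exact ih.union (((hag n).inter (far _ (hag n))).inter (far _ ih))
  have mono : Monotone M := monotone_nat_of_le_succ fun n => subset_union_left
  have ind : ∀ n x g, x ∈ M n → A.a g x ∈ M n → Sm r g → g = 0 := fun n => by
    induction n with
    | zero => exact fun x g h => h.elim
    | succ n ih =>
      intro x g h1 h2 hg
      by_contra h0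
      rcases h1 with h1 | h1 <;> rcases h2 with h2 | h2
      · exact h0 (ih x g h1 h2 hg)
      · exact h2.2 (-g) hg.neg (neg_ne_zero.mpr h0) (by rwa [A.neg_cancel])
      · exact h1.2 g hg h0 h2
      · exact h1.1.2 g hg h0 h2.1.1
  refine ⟨⋃ n, M n, MeasurableSet.iUnion hM, fun x g h1 h2 hg => ?_, fun x => ?_⟩
  · obtain ⟨n, hn⟩ := mem_iUnion.mp h1
    obtain ⟨m, hm⟩ := mem_iUnion.mp h2
    exact ind (max n m) x g (mono (le_max_left _ _) hn) (mono (le_max_right _ _) hm) hg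
  · obtain ⟨n, hn⟩ := hB x
    rcases Classical.em (∀ g, Sm r g → g ≠ 0 → A.a g x ∉ M n) with h | h
    · exact ⟨0, by simp [Sm, hr], by
        rw [A.zero]; exact mem_iUnion.mpr ⟨n + 1, Or.inr ⟨hn, h⟩⟩⟩
    · push Not at h
      obtain ⟨g, h1, -, h2⟩ := h
      exact ⟨g, h1, mem_iUnion.mpr ⟨n, h2⟩⟩

/-- A measurable function given by countably many compatible pieces. -/
theorem exists_piecewise {T Λ : Type*} [Countable T] [Nonempty Λ] [MeasurableSpace Λ]
    (P : T → Set X) (hP : ∀ t, MeasurableSet (P t)) (F : T → X → Λ) (hF : ∀ t, Measurable (F t))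
    (hc : ∀ t t' x, x ∈ P t → x ∈ P t' → F t x = F t' x) :
    ∃ f : X → Λ, Measurable f ∧ ∀ t x, x ∈ P t → f x = F t x := by
  classical
  let f : X → Λ := fun x => if h : ∃ t, x ∈ P t then F h.choose x else Classical.arbitrary Λ
  have hf : ∀ t x, x ∈ P t → f x = F t x := fun t x h => by
    have h' : ∃ t, x ∈ P t := ⟨t, h⟩
    simp only [f, dif_pos h']
    exact hc _ _ x h'.choose_spec h
  refine ⟨f, fun S hS => ?_, hf⟩
  have : f ⁻¹' S = (⋃ t, P t ∩ F t ⁻¹' S) ∪
      ((⋃ t, P t)ᶜ ∩ (fun _ => Classical.arbitrary Λ) ⁻¹' S) := by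
    ext x
    by_cases h : ∃ t, x ∈ P t
    · obtain ⟨t, ht⟩ := h
      simp only [mem_preimage, mem_union, mem_iUnion, mem_inter_iff, mem_compl_iff]
      exact ⟨fun h => Or.inl ⟨t, ht, hf t x ht ▸ h⟩, fun h => h.elim
        (fun ⟨t', h1, h2⟩ => hf t' x h1 ▸ h2) fun h => absurd ⟨t, ht⟩ h.1⟩
    · have h' : f x = Classical.arbitrary Λ := dif_neg h
      simp only [mem_preimage, mem_union, mem_iUnion, mem_inter_iff, mem_compl_iff, h']
      exact ⟨fun h1 => Or.inr ⟨h, h1⟩, fun h1 => h1.elim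
        (fun ⟨t', h1, _⟩ => absurd ⟨t', h1⟩ h) fun h => h.2⟩
  rw [this]
  exact (MeasurableSet.iUnion fun t => (hP t).inter (hF t hS)).union
    ((MeasurableSet.iUnion hP).compl.inter (measurable_const hS))

end Pool.Agent.Lib.MP_946880_lc.Bor
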