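import Mathlib
import Pool.Agent.Lib.MP_946880_lc.BorMark

/-!
Needles around a vertical spine that do not cut smaller boxes.
-/

namespace Pool.Agent.Lib.MP_946880_lc.Bor

/-- The basic scale of level `k`. -/
def aa : ℕ → ℤ
  | 0 => 100
  | k + 1 => 100 * aa k ^ 4

/-- The length scale of level `k`. -/
def NN (k : ℕ) : ℤ := aa k ^ 4

/-- The margin of level `k`. -/
def EE (k : ℕ) : ℤ := 20 * aa k ^ 2

theorem aa_succ (k : ℕ) : aa (k + 1) = 100 * NN k := rfl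

theorem aa_ge (k : ℕ) : 100 ≤ aa k := by
  induction k with
  | zero => exact le_rfl
  | succ k ih =>
    have : 1 ≤ aa k ^ 4 := one_le_pow₀ (by omega)
    rw [aa]; omega

theorem par (k : ℕ) : 100 ≤ aa k ∧ 2000 * aa k ≤ EE k ∧ aa k * aa k * 20 = EE k ∧
    5 * (aa k * EE k) ≤ NN k ∧ 100 * EE k ≤ aa k * EE k := by
  have h := aa_ge k
  unfold EE NN
  have h2 : 0 ≤ aa k ^ 2 := by positivity
  have h3 : 0 ≤ aa k ^ 3 := by positivity
  refine ⟨h, by nlinarith, by ring, by nlinarith, by nlinarith⟩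

theorem aa_mono {j k : ℕ} (h : j < k) : 100 * NN j ≤ aa k := by
  induction h with
  | refl => exact (aa_succ j).ge
  | step _ ih =>
    rename_i m _
    have := par m
    rw [Nat.succ_eq_add_one, aa_succ]; omega

theorem le_aa (k : ℕ) : (k : ℤ) ≤ aa k := by
  induction k with
  | zero => exact (by decide)
  | succ k ih => have := par k; rw [aa_succ]; push_cast; omega

/-- The box of level `k` around `z`, enlarged by `e`. -/
def Box (k : ℕ) (e : ℤ) (z p : ℤ × ℤ) : Prop :=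
  z.1 - (4 * aa k + e) ≤ p.1 ∧ p.1 ≤ z.1 + (4 * aa k + e) ∧
    z.2 - (4 * NN k + e) ≤ p.2 ∧ p.2 ≤ z.2 + (4 * NN k + e)

/-- The centres of each level are far apart. -/
def Sparse (ω : ℕ → Set (ℤ × ℤ)) : Prop :=
  ∀ j z z', z ∈ ω j → z' ∈ ω j → Sm (50 * NN j) (z - z') → z = z'

/-- Closure under thin cones that open to the left. -/
def Cone (l : ℤ) (U : Set (ℤ × ℤ)) : Prop :=
  ∀ x y x' y', (x, y) ∈ U → y' - y ≤ l * (x - x') → y - y' ≤ l * (x - x') → (x', y') ∈ U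

theorem tent {ω : ℕ → Set (ℤ × ℤ)} (hω : Sparse ω) (k : ℕ) (U : Set (ℤ × ℤ))
    (hU : Cone (aa k) U) : ∃ V : Set (ℤ × ℤ), U ⊆ V ∧ (∀ x x' y, (x, y) ∈ V → x' ≤ x → (x', y) ∈ V) ∧
      (∀ x y, (x, y) ∈ V → (x - aa k, y) ∈ U) ∧
      (∀ p, p ∈ V → p ∉ U → ∃ j, j < k ∧ ∃ z, z ∈ ω j ∧ Sm (6 * NN j) (p - z)) ∧
      ∀ j, j < k → ∀ z, z ∈ ω j → (∀ p, Box j (EE j + 1) z p → p ∈ V) ∨
        ∀ p, Box j (EE j + 1) z p → p ∉ V := by
  induction k generalizing U with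
  | zero =>
    have h0 : aa 0 = 100 := rfl
    rw [h0] at hU ⊢
    exact ⟨U, subset_rfl, fun x x' y h h' => hU x y x' y h (by omega) (by omega),
      fun x y h => hU x y _ y h (by omega) (by omega), fun p h h' => absurd h h',
      fun j hj => absurd hj (Nat.not_lt_zero j)⟩
  | succ k ih =>
    obtain ⟨p1, p2, p3, p4, p5⟩ := par k
    rw [aa_succ] at hU ⊢
    set a := aa k
    set N := NN k with hN
    set E := EE k with hE
    let U' : Set (ℤ × ℤ) := U ∪ {p | ∃ z, z ∈ ω k ∧ (z.1 - (5 * a + E + 2), z.2) ∈ U ∧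
      p.1 ≤ z.1 + (4 * a + E + 1) ∧
      p.2 - z.2 ≤ 4 * N + E + 1 + a * (z.1 + (4 * a + E + 1) - p.1) ∧
      z.2 - p.2 ≤ 4 * N + E + 1 + a * (z.1 + (4 * a + E + 1) - p.1)}
    have hU' : Cone a U' := by
      rintro x y x' y' (h | ⟨z, h1, h2, h3, h4, h5⟩) h6 h7
      · have : 0 ≤ x - x' := by by_contra hc; nlinarith
        exact Or.inl (hU x y x' y' h (by nlinarith) (by nlinarith))
      · have : 0 ≤ x - x' := by by_contra hc; nlinarith
        simp only at h3 h4 h5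
        exact Or.inr ⟨z, h1, h2, by simp only; omega, by simp only; linarith,
          by simp only; linarith⟩
    have sh : ∀ x y, (x, y) ∈ U' → (x, y) ∉ U → ∃ z, z ∈ ω k ∧ (z.1 - (5 * a + E + 2), z.2) ∈ U ∧
        z.1 - N ≤ x ∧ x ≤ z.1 + N ∧ z.2 - 5 * N ≤ y ∧ y ≤ z.2 + 5 * N := by
      rintro x y (h | ⟨z, h1, h2, h3, h4, h5⟩) h'
      · exact absurd h h'
      simp only at h3 h4 h5
      have h6 : z.1 - (5 * a + E + 2) ≤ x := by
        by_contra hc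
        have h7 : 1 ≤ z.1 - (5 * a + E + 2) - x := by omega
        have h8 : 4 * N + E + 1 + a * (z.1 + (4 * a + E + 1) - x) ≤
            100 * N * (z.1 - (5 * a + E + 2) - x) := by nlinarith
        exact h' (hU _ _ x y h2 (by linarith) (by linarith))
      have h9 : a * (z.1 + (4 * a + E + 1) - x) ≤ a * (9 * a + 2 * E + 3) :=
        mul_le_mul_of_nonneg_left (by omega) (by omega)
      exact ⟨z, h1, h2, by omega, by omega, by nlinarith, by nlinarith⟩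
    obtain ⟨V, v1, v2, v3, v4, v5⟩ := ih U' hU'
    refine ⟨V, fun p h => v1 (Or.inl h), v2, fun x y h => ?_, fun p h h' => ?_,
      fun j hj z hz => ?_⟩
    · have h1 := v3 x y h
      by_cases h2 : (x - a, y) ∈ U
      · exact hU _ _ _ _ h2 (by nlinarith) (by nlinarith)
      · obtain ⟨z, -, h3, h4, h5, h6, h7⟩ := sh _ _ h1 h2
        exact hU _ _ _ _ h3 (by nlinarith) (by nlinarith)
    · by_cases h1 : p ∈ U'
      · obtain ⟨z, h2, -, h4⟩ := sh p.1 p.2 h1 h'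
        exact ⟨k, k.lt_succ_self, z, h2, by simp only [Sm, Prod.fst_sub, Prod.snd_sub]; omega⟩
      · obtain ⟨j, h2, h3⟩ := v4 p h h1
        exact ⟨j, h2.trans k.lt_succ_self, h3⟩
    · rcases (Nat.lt_succ_iff.mp hj).eq_or_lt with rfl | hj
      swap
      · exact v5 j hj z hz
      simp only [Box, ← hN, ← hE]
      by_cases h1 : (z.1 - (5 * a + E + 2), z.2) ∈ U
      · refine Or.inl fun p hp => v1 (Or.inr ⟨z, hz, h1, by omega, ?_⟩)
        have : 0 ≤ a * (z.1 + (4 * a + E + 1) - p.1) := mul_nonneg (by omega) (by omega)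
        omega
      · refine Or.inr fun p hp h => ?_
        have h2 : (p.1 - a, p.2) ∉ U := fun h2 => h1 (hU _ _ _ _ h2 (by nlinarith) (by nlinarith))
        obtain ⟨z', h3, h4, h5⟩ := sh _ _ (v3 p.1 p.2 h) h2
        rw [hω j z z' hz h3 (by simp only [Sm, Prod.fst_sub, Prod.snd_sub]; omega)] at h1
        exact h1 h4

theorem free_row {ω : ℕ → Set (ℤ × ℤ)} (hω : Sparse ω) (k : ℕ) (b : ℤ) :
    ∃ y, b ≤ y ∧ y ≤ b + aa k ∧ ∀ j, j < k → ∀ z, z ∈ ω j → ¬ Sm (7 * NN j) ((0, y) - z) := by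
  induction k generalizing b with
  | zero => exact ⟨b, le_rfl, by have := aa_ge 0; omega, fun j hj => absurd hj (Nat.not_lt_zero j)⟩
  | succ k ih =>
    obtain ⟨p1, p2, p3, p4, p5⟩ := par k
    rw [aa_succ]
    obtain ⟨y, h1, h2, h3⟩ := ih b
    by_cases h : ∀ z, z ∈ ω k → ¬ Sm (7 * NN k) ((0, y) - z)
    · exact ⟨y, h1, by omega, fun j hj => (Nat.lt_succ_iff.mp hj).eq_or_lt.elim
        (fun e => e ▸ h) (h3 j)⟩
    · push Not at h
      obtain ⟨z, h4, h5⟩ := h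
      obtain ⟨y', h6, h7, h8⟩ := ih (z.2 + 8 * NN k)
      simp only [Sm, Prod.fst_sub, Prod.snd_sub] at h5
      refine ⟨y', by omega, by omega, fun j hj => (Nat.lt_succ_iff.mp hj).eq_or_lt.elim
        (fun e z' h9 h10 => ?_) (h8 j)⟩
      subst e
      simp only [Sm, Prod.fst_sub, Prod.snd_sub] at h10
      have := hω j z z' h4 h9 (by simp only [Sm, Prod.fst_sub, Prod.snd_sub]; omega)
      subst this
      omega

/-- A needle of level `k` centred at the origin that cuts no box of smaller level. -/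
structure Needle (ω : ℕ → Set (ℤ × ℤ)) (k : ℕ) (S : Set (ℤ × ℤ)) : Prop where
  left : ∀ x y, (x, y) ∈ S → 1 ≤ x → (x - 1, y) ∈ S
  right : ∀ x y, (x, y) ∈ S → x ≤ 0 → (x + 1, y) ∈ S
  bound : ∀ p, p ∈ S → Box k (-1) 0 p
  core : ∀ p : ℤ × ℤ, -(2 * aa k) ≤ p.1 → p.1 ≤ 2 * aa k → -(3 * NN k) ≤ p.2 → p.2 ≤ 3 * NN k →
    p ∈ S
  nest : ∀ j, j < k → ∀ z, z ∈ ω j → (∀ p, Box j (EE j + 1) z p → p ∈ S) ∨
    ∀ p, Box j (EE j + 1) z p → p ∉ S

theorem half_needle {ω : ℕ → Set (ℤ × ℤ)} (hω : Sparse ω) (k : ℕ) :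
    ∃ V : Set (ℤ × ℤ), (∀ x x' y, (x, y) ∈ V → x' ≤ x → (x', y) ∈ V) ∧
      (∀ x y, x ≤ 1 → (x, y) ∈ V) ∧ (∀ x y, (x, y) ∈ V → x ≤ 3 * aa k + 1) ∧
      (∀ x y, x ≤ 2 * aa k + 1 → -(3 * NN k) ≤ y → y ≤ 3 * NN k → (x, y) ∈ V) ∧
      (∀ x y, (x, y) ∈ V → 3 * NN k + EE k ≤ y ∨ y ≤ -(3 * NN k + EE k) → x ≤ 1 ∨
        ∃ j, j < k ∧ ∃ z, z ∈ ω j ∧ Sm (6 * NN j) ((2, y) - z)) ∧
      ∀ j, j < k → ∀ z, z ∈ ω j → (∀ p, Box j (EE j + 1) z p → p ∈ V) ∨
        ∀ p, Box j (EE j + 1) z p → p ∉ V := by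
  obtain ⟨p1, p2, p3, p4, p5⟩ := par k
  obtain ⟨V, v1, v2, v3, v4, v5⟩ := tent hω k {p | p.1 ≤ 1 ∨ (p.1 ≤ 2 * aa k + 1 ∧
      p.2 ≤ 3 * NN k + aa k * (2 * aa k + 1 - p.1) ∧
      -p.2 ≤ 3 * NN k + aa k * (2 * aa k + 1 - p.1))} (by
    rintro x y x' y' (h | ⟨h1, h2, h3⟩) h4 h5
    · have : 0 ≤ x - x' := by by_contra hc; nlinarith
      exact Or.inl (by simp only at h ⊢; omega)
    · have : 0 ≤ x - x' := by by_contra hc; nlinarith
      simp only at h1 h2 h3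
      exact Or.inr ⟨by simp only; omega, by simp only; linarith, by simp only; linarith⟩)
  refine ⟨V, v2, fun x y h => v1 (Or.inl h), fun x y h => ?_, fun x y h1 h2 h3 => v1 (Or.inr ?_),
    fun x y h1 h2 => ?_, v5⟩
  · rcases v3 x y h with h | h <;> simp only at h <;> omega
  · have : 0 ≤ aa k * (2 * aa k + 1 - x) := mul_nonneg (by omega) (by omega)
    simp only
    omega
  · by_cases h3 : x ≤ 1
    · exact Or.inl h3
    refine Or.inr (v4 _ (v2 x 2 y h1 (by omega)) ?_)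
    rintro (h | ⟨-, h4, h5⟩)
    · simp only at h; omega
    · simp only at h4 h5
      rcases h2 with h2 | h2 <;> nlinarith

theorem exists_needle {ω : ℕ → Set (ℤ × ℤ)} (hω : Sparse ω) (k : ℕ) : ∃ S, Needle ω k S := by
  obtain ⟨p1, p2, p3, p4, p5⟩ := par k
  obtain ⟨V, v1, v2, v3, v4, v5, v6⟩ := half_needle hω k
  obtain ⟨V', w1, w2, w3, w4, w5, w6⟩ := half_needle (ω := fun j => {z | (1 - z.1, z.2) ∈ ω j})
    (fun j z z' h h' hs => by
      have := hω j _ _ h h' (by simp only [Sm, Prod.fst_sub, Prod.snd_sub] at hs ⊢; omega)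
      simp only [Prod.mk.injEq] at this
      exact Prod.ext (by omega) this.2) k
  obtain ⟨y₁, a1, a2, a3⟩ := free_row hω k (3 * NN k + EE k)
  obtain ⟨y₀, b1, b2, b3⟩ := free_row hω k (-(3 * NN k + EE k) - aa k)
  have tip : ∀ y, 3 * NN k + EE k ≤ y ∨ y ≤ -(3 * NN k + EE k) →
      (∀ j, j < k → ∀ z, z ∈ ω j → ¬ Sm (7 * NN j) ((0, y) - z)) →
      ∀ x x', (x, y) ∈ V → (1 - x', y) ∈ V' → x ≤ x' + 1 := fun y hy hf x x' h h' => by
    rcases v5 x y h hy with h1 | ⟨j, hj, z, hz, h1⟩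
    · rcases w5 _ y h' hy with h2 | ⟨j, hj, z, hz, h2⟩
      · omega
      · have := par j
        exact absurd (by simp only [Sm, Prod.fst_sub, Prod.snd_sub] at h2 ⊢; omega) (hf j hj _ hz)
    · have := par j
      exact absurd (by simp only [Sm, Prod.fst_sub, Prod.snd_sub] at h1 ⊢; omega) (hf j hj _ hz)
  refine ⟨{p | p ∈ V ∧ (1 - p.1, p.2) ∈ V' ∧ y₀ ≤ p.2 ∧ p.2 ≤ y₁}, ?_, ?_, ?_, ?_, ?_⟩
  · rintro x y ⟨h1, h2, h3⟩ h
    exact ⟨v1 x _ y h1 (by omega), w2 _ _ (by simp only; omega), h3⟩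
  · rintro x y ⟨h1, h2, h3⟩ h
    exact ⟨v2 _ _ (by omega), w1 _ _ y h2 (by simp only; omega), h3⟩
  · rintro p ⟨h1, h2, h3⟩
    have := v3 p.1 p.2 h1
    have := w3 _ _ h2
    simp only [Box, Prod.fst_zero, Prod.snd_zero]
    omega
  · exact fun p h1 h2 h3 h4 => ⟨v4 p.1 p.2 (by omega) h3 h4, w4 _ _ (by omega) h3 h4, by omega,
      by omega⟩
  · intro j hj z hz
    have q := par j
    rcases v6 j hj z hz with h1 | h1
    swap
    · exact Or.inr fun p hp h => h1 p hp h.1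
    rcases w6 j hj (1 - z.1, z.2) (by simpa using hz) with h2 | h2
    swap
    · exact Or.inr fun p hp h => h2 _ (by simp only [Box] at hp ⊢; omega) h.2.1
    have h3 : ∀ y, 3 * NN k + EE k ≤ y ∨ y ≤ -(3 * NN k + EE k) →
        (∀ j, j < k → ∀ z, z ∈ ω j → ¬ Sm (7 * NN j) ((0, y) - z)) →
        y < z.2 - (4 * NN j + (EE j + 1)) ∨ z.2 + (4 * NN j + (EE j + 1)) < y := fun y hy hf => by
      by_contra hc
      have := tip y hy hf (z.1 + 1) (z.1 - 1) (h1 _ (by simp only [Box]; omega))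
        (h2 _ (by simp only [Box]; omega))
      omega
    have h4 := h3 y₁ (Or.inl a1) a3
    have h5 := h3 y₀ (Or.inr (by omega)) b3
    by_cases h6 : y₀ ≤ z.2 ∧ z.2 ≤ y₁
    · exact Or.inl fun p hp => ⟨h1 p hp, h2 _ (by simp only [Box] at hp ⊢; omega),
        by simp only [Box] at hp; omega⟩
    · exact Or.inr fun p hp h => by have := h.2.2; simp only [Box] at hp; omega

end Pool.Agent.Lib.MP_946880_lc.Bor
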