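import Mathlib
import Pool.Agent.Lib.MP_946880_lc.BorTent

/-!
A Lipschitz potential that is the first coordinate far from small boxes and is constant on them.
-/

namespace Pool.Agent.Lib.MP_946880_lc.Bor

/-- Anisotropic Lipschitz bounds along the edges of the grid. -/
def LipE (ε : ℝ) (ξ : ℤ × ℤ → ℝ) : Prop :=
  ∀ x y, |ξ (x + 1, y) - ξ (x, y)| ≤ 1 + ε ∧ |ξ (x, y + 1) - ξ (x, y)| ≤ ε

theorem lip_int {f : ℤ → ℝ} {C : ℝ} (h : ∀ x, |f (x + 1) - f x| ≤ C) (x y : ℤ) :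
    |f y - f x| ≤ C * ((|y - x| : ℤ) : ℝ) := by
  have key : ∀ x y, x ≤ y → |f y - f x| ≤ C * ((y - x : ℤ) : ℝ) := fun x y hxy => by
    induction y, hxy using Int.leInduction with
    | base => simp
    | succ n _ ih =>
      have h1 := abs_le.mp (h n)
      have h2 := abs_le.mp ih
      push_cast at h2 ⊢
      exact abs_le.mpr ⟨by linarith, by linarith⟩
  rcases le_total x y with h1 | h1
  · rw [abs_of_nonneg (sub_nonneg.mpr h1)]; exact key x y h1
  · rw [abs_sub_comm y x, abs_of_nonneg (sub_nonneg.mpr h1), abs_sub_comm]; exact key y x h1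

theorem LipE.global {ε : ℝ} {ξ : ℤ × ℤ → ℝ} (h : LipE ε ξ) (p q : ℤ × ℤ) :
    |ξ p - ξ q| ≤ (1 + ε) * ((|p.1 - q.1| : ℤ) : ℝ) + ε * ((|p.2 - q.2| : ℤ) : ℝ) := by
  have h1 := abs_le.mp (lip_int (f := fun x => ξ (x, p.2)) (fun x => (h x p.2).1) q.1 p.1)
  have h2 := abs_le.mp (lip_int (f := fun y => ξ (q.1, y)) (fun y => (h q.1 y).2) q.2 p.2)
  simp only [Prod.mk.eta] at h1 h2
  exact abs_le.mpr ⟨by linarith, by linarith⟩

theorem med_lip {c d d' u u' L : ℝ} (h : |d - d'| ≤ L) (h' : |u - u'| ≤ L) :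
    |max (c - d) (min (c + d) u) - max (c - d') (min (c + d') u')| ≤ L := by
  rw [abs_le] at *
  simp only [max_def, min_def]
  split_ifs <;> constructor <;> linarith

/-- Excess over a threshold. -/
def exc (W s : ℤ) : ℤ := max 0 (|s| - W)

theorem exc_step (W s : ℤ) : |((exc W (s + 1) : ℤ) : ℝ) - (exc W s : ℤ)| ≤ 1 := by
  have : |exc W (s + 1) - exc W s| ≤ 1 := by
    unfold exc
    rw [abs_le]
    rcases abs_cases (s + 1) with h | h <;> rcases abs_cases s with h' | h' <;> omega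
  exact_mod_cast this

theorem clamp {ω : ℕ → Set (ℤ × ℤ)} (hω : Sparse ω) (k : ℕ) (ξ : ℤ × ℤ → ℝ)
    (hξ : LipE (1 / aa k) ξ) : ∃ η : ℤ × ℤ → ℝ, LipE 1 η ∧
      (∀ p, (∀ j, j < k → ∀ z, z ∈ ω j → ¬ Box j (EE j) z p) → η p = ξ p) ∧
      ∀ j, j < k → ∀ z, z ∈ ω j → ∃ c, ∀ p, Box j 0 z p →
        (∀ i, i < j → ∀ z', z' ∈ ω i → ¬ Box i (EE i) z' p) → η p = c := by
  classical
  induction k generalizing ξ with
  | zero =>
    refine ⟨ξ, fun x y => ?_, fun _ _ => rfl, fun j hj => absurd hj (Nat.not_lt_zero j)⟩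
    have := hξ x y
    have h0 : (1 : ℝ) / aa 0 ≤ 1 := by rw [show aa 0 = 100 from rfl]; norm_num
    exact ⟨by linarith [this.1], by linarith [this.2]⟩
  | succ k ih =>
    obtain ⟨p1, p2, p3, p4, p5⟩ := par k
    rw [aa_succ] at hξ
    set ε : ℝ := 1 / aa k with hε
    set δ : ℝ := 1 / ((100 * NN k : ℤ) : ℝ) with hδ
    have a0 : (100 : ℝ) ≤ aa k := by exact_mod_cast p1
    have aN : (aa k : ℝ) ≤ NN k := by exact_mod_cast (by omega : aa k ≤ NN k)
    have aE : (aa k : ℝ) * aa k * 20 = EE k := by exact_mod_cast p3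
    have e1 : ε * aa k = 1 := by rw [hε]; field_simp
    have d1 : δ * (100 * NN k) = 1 := by
      have : (NN k : ℝ) ≠ 0 := by linarith
      rw [hδ]; push_cast; field_simp
    have e0 : 0 < ε := by rw [hε]; positivity
    have d0 : 0 < δ := by rw [hδ]; exact one_div_pos.mpr (by push_cast; linarith)
    have de : 2 * δ ≤ ε := by nlinarith
    have e2 : ε ≤ 1 := by nlinarith
    let d : ℤ × ℤ → ℤ × ℤ → ℝ := fun z p =>
      (1 + ε) * (exc (4 * aa k) (p.1 - z.1) : ℤ) + ε * (exc (4 * NN k) (p.2 - z.2) : ℤ)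
    let cl : ℤ × ℤ → ℤ × ℤ → ℝ := fun z p => max (ξ z - d z p) (min (ξ z + d z p) (ξ p))
    have c1 : ∀ z, LipE ε (cl z) := fun z x y => by
      refine ⟨med_lip ?_ ((hξ x y).1.trans (by linarith)),
        med_lip ?_ ((hξ x y).2.trans (by linarith))⟩
      · have := abs_le.mp (exc_step (4 * aa k) (x - z.1))
        simp only [d, show x + 1 - z.1 = x - z.1 + 1 by ring]
        exact abs_le.mpr ⟨by nlinarith, by nlinarith⟩
      · have := abs_le.mp (exc_step (4 * NN k) (y - z.2))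
        simp only [d, show y + 1 - z.2 = y - z.2 + 1 by ring]
        exact abs_le.mpr ⟨by nlinarith, by nlinarith⟩
    have c2 : ∀ z p, ¬ Box k (EE k) z p → cl z p = ξ p := fun z p h => by
      have h1 := hξ.global p z
      have h2 : |p.1 - z.1| ≤ exc (4 * aa k) (p.1 - z.1) + 4 * aa k ∧
          |p.2 - z.2| ≤ exc (4 * NN k) (p.2 - z.2) + 4 * NN k ∧
          EE k ≤ exc (4 * aa k) (p.1 - z.1) + exc (4 * NN k) (p.2 - z.2) := by
        simp only [Box, exc] at h ⊢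
        rcases abs_cases (p.1 - z.1) with h' | h' <;> rcases abs_cases (p.2 - z.2) with h'' | h'' <;>
          omega
      have h3 : |ξ p - ξ z| ≤ d z p := by
        obtain ⟨h2, h3, h4⟩ := h2
        simp only [d]
        generalize exc (4 * aa k) (p.1 - z.1) = u at *
        generalize exc (4 * NN k) (p.2 - z.2) = v at *
        generalize |p.1 - z.1| = s at *
        generalize |p.2 - z.2| = t at *
        have h5 : (s : ℝ) ≤ u + 4 * aa k := by exact_mod_cast h2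
        have h6 : (t : ℝ) ≤ v + 4 * NN k := by exact_mod_cast h3
        have h7 : (EE k : ℝ) ≤ u + v := by exact_mod_cast h4
        have h8 : (1 + δ) * s ≤ (1 + δ) * (u + 4 * aa k) :=
          mul_le_mul_of_nonneg_left h5 (by linarith)
        have h9 : δ * t ≤ δ * (v + 4 * NN k) := mul_le_mul_of_nonneg_left h6 d0.le
        have h10 : (ε - δ) * EE k ≤ (ε - δ) * (u + v) := mul_le_mul_of_nonneg_left h7 (by linarith)
        have h11 : ε / 2 * EE k ≤ (ε - δ) * EE k :=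
          mul_le_mul_of_nonneg_right (by linarith) (by nlinarith)
        have h12 : ε / 2 * EE k = 10 * aa k := by
          rw [← aE]; linear_combination (10 * aa k : ℝ) * e1
        have h13 : δ * aa k ≤ 1 := by nlinarith
        linarith
      rw [abs_le] at h3
      simp only [cl]
      rw [min_eq_right (by linarith), max_eq_right (by linarith)]
    have c3 : ∀ z p, Box k 0 z p → cl z p = ξ z := fun z p h => by
      have h1 : exc (4 * aa k) (p.1 - z.1) = 0 ∧ exc (4 * NN k) (p.2 - z.2) = 0 := by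
        simp only [Box, exc] at h ⊢
        rcases abs_cases (p.1 - z.1) with h' | h' <;> rcases abs_cases (p.2 - z.2) with h'' | h'' <;>
          omega
      simp only [cl, d, h1.1, h1.2]
      simp
    let ζ : ℤ × ℤ → ℝ := fun p =>
      if h : ∃ z, z ∈ ω k ∧ Box k (EE k + 1) z p then cl h.choose p else ξ p
    have z1 : ∀ z p, z ∈ ω k → Box k (EE k + 1) z p → ζ p = cl z p := fun z p hz h => by
      have h' : ∃ z, z ∈ ω k ∧ Box k (EE k + 1) z p := ⟨z, hz, h⟩
      have h1 := h'.choose_spec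
      have : h'.choose = z := hω k _ _ h1.1 hz (by
        have := h1.2
        simp only [Box, Sm, Prod.fst_sub, Prod.snd_sub] at this h ⊢
        omega)
      simp only [ζ, dif_pos h', this]
    have z2 : ∀ p, (∀ z, z ∈ ω k → ¬ Box k (EE k) z p) → ζ p = ξ p := fun p h => by
      by_cases h' : ∃ z, z ∈ ω k ∧ Box k (EE k + 1) z p
      · obtain ⟨z, hz, h1⟩ := h'
        rw [z1 z p hz h1, c2 z p (h z hz)]
      · exact dif_neg h'
    have z3 : ∀ p q : ℤ × ℤ, Sm 1 (p - q) → (∃ z, ζ p = cl z p ∧ ζ q = cl z q) ∨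
        (ζ p = ξ p ∧ ζ q = ξ q) := fun p q h => by
      simp only [Sm, Prod.fst_sub, Prod.snd_sub] at h
      by_cases h1 : ∃ z, z ∈ ω k ∧ (Box k (EE k) z p ∨ Box k (EE k) z q)
      · obtain ⟨z, hz, h1⟩ := h1
        exact Or.inl ⟨z, z1 z p hz (by simp only [Box] at h1 ⊢; omega),
          z1 z q hz (by simp only [Box] at h1 ⊢; omega)⟩
      · exact Or.inr ⟨z2 p fun z hz h => h1 ⟨z, hz, Or.inl h⟩,
          z2 q fun z hz h => h1 ⟨z, hz, Or.inr h⟩⟩
    obtain ⟨η, h1, h2, h3⟩ := ih ζ fun x y => by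
      constructor
      · rcases z3 (x + 1, y) (x, y) (by simp [Sm]) with ⟨z, h, h'⟩ | ⟨h, h'⟩ <;> rw [h, h']
        · exact (c1 z x y).1
        · linarith [(hξ x y).1]
      · rcases z3 (x, y + 1) (x, y) (by simp [Sm]) with ⟨z, h, h'⟩ | ⟨h, h'⟩ <;> rw [h, h']
        · exact (c1 z x y).2
        · linarith [(hξ x y).2]
    refine ⟨η, h1, fun p h => ?_, fun j hj z hz => ?_⟩
    · rw [h2 p fun j hj => h j (hj.trans k.lt_succ_self), z2 p (h k k.lt_succ_self)]
    · rcases (Nat.lt_succ_iff.mp hj).eq_or_lt with rfl | hj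
      · refine ⟨ξ z, fun p hp h => ?_⟩
        rw [h2 p h, z1 z p hz (by simp only [Box] at hp ⊢; omega), c3 z p hp]
      · exact h3 j hj z hz

/-- The potential of level `k`. -/
structure Pot (ω : ℕ → Set (ℤ × ℤ)) (k : ℕ) (ξ : ℤ × ℤ → ℤ) : Prop where
  lip : ∀ x y, |ξ (x + 1, y) - ξ (x, y)| ≤ 2 ∧ |ξ (x, y + 1) - ξ (x, y)| ≤ 2
  free : ∀ p, (∀ j, j < k → ∀ z, z ∈ ω j → ¬ Box j (EE j) z p) → ξ p = p.1
  const : ∀ j, j < k → ∀ z, z ∈ ω j → ∃ c, ∀ p, Box j 0 z p →
    (∀ i, i < j → ∀ z', z' ∈ ω i → ¬ Box i (EE i) z' p) → ξ p = c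

theorem exists_pot {ω : ℕ → Set (ℤ × ℤ)} (hω : Sparse ω) (k : ℕ) : ∃ ξ, Pot ω k ξ := by
  have h0 : (0 : ℝ) ≤ 1 / aa k := by
    have : (100 : ℝ) ≤ aa k := by exact_mod_cast aa_ge k
    positivity
  obtain ⟨η, h1, h2, h3⟩ := clamp hω k (fun p => p.1) fun x y => by
    simp only [Int.cast_add, Int.cast_one, add_sub_cancel_left, abs_one, sub_self, abs_zero]
    exact ⟨by linarith, h0⟩
  have fl : ∀ u v : ℝ, |u - v| ≤ 2 → |⌊u⌋ - ⌊v⌋| ≤ 2 := fun u v h => by
    rw [abs_le] at h ⊢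
    have a1 : ⌊u⌋ ≤ ⌊v + (2 : ℤ)⌋ := Int.floor_le_floor (by push_cast; linarith)
    have a2 : ⌊v⌋ ≤ ⌊u + (2 : ℤ)⌋ := Int.floor_le_floor (by push_cast; linarith)
    rw [Int.floor_add_intCast] at a1 a2
    omega
  refine ⟨fun p => ⌊η p⌋, fun x y => ⟨fl _ _ (by linarith [(h1 x y).1]),
    fl _ _ (by linarith [(h1 x y).2])⟩, fun p h => by rw [h2 p h, Int.floor_intCast],
    fun j hj z hz => ?_⟩
  obtain ⟨c, hc⟩ := h3 j hj z hz
  exact ⟨⌊c⌋, fun p hp h => by rw [hc p hp h]⟩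

end Pool.Agent.Lib.MP_946880_lc.Bor
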