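import Mathlib

/- The local rule on `2 × 2` blocks of the square grid. -/

namespace Pool.Agent.Lib.MP_946880_lc.H69

/-- pixels -/
abbrev P := ℤ × ℤ

/-- labels: mode, colour, wall flags, side, two potentials modulo five -/
structure Lab where
  mode : Fin 3
  col : Bool
  wE : Bool
  wW : Bool
  wN : Bool
  wS : Bool
  sA : Bool
  n1 : ZMod 5
  n2 : ZMod 5

instance : Finite Lab :=
  Finite.of_injective
    (fun l : Lab => (l.mode, l.col, l.wE, l.wW, l.wN, l.wS, l.sA, l.n1, l.n2)) <| by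
    rintro ⟨⟩ ⟨⟩ h
    simp only [Prod.mk.injEq] at h
    obtain ⟨rfl, rfl, rfl, rfl, rfl, rfl, rfl, rfl, rfl⟩ := h
    rfl

instance : Inhabited Lab := ⟨⟨0, false, false, false, false, false, false, 0, 0⟩⟩

/-- the difference of two potentials, as an integer in `[-2, 2]` -/
def th (u v : ZMod 5) : ℤ := (v - u).valMinAbs

lemma abs_th_le (u v : ZMod 5) : |th u v| ≤ 2 := by
  revert u v
  unfold th
  decide

lemma th_cast (s t : ℤ) (h : |t - s| ≤ 2) : th (s : ZMod 5) (t : ZMod 5) = t - s := by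
  unfold th
  rw [← Int.cast_sub]
  obtain ⟨h1, h2⟩ := abs_le.1 h
  generalize t - s = r at h1 h2
  interval_cases r <;> decide

/-- walls and colours in a block `a b c d` (south-west, south-east, north-west, north-east) whose
inner pixels are given by `ia ib ic id` -/
def Geo (a b c d : Lab) (ia ib ic id : Bool) : Prop :=
  ¬(ia = id ∧ ib = ic ∧ ia ≠ ib) ∧
  a.wE = (ia && !ib) ∧ b.wW = (ib && !ia) ∧ c.wE = (ic && !id) ∧ d.wW = (id && !ic) ∧
  a.wN = (ia && !ic) ∧ c.wS = (ic && !ia) ∧ b.wN = (ib && !id) ∧ d.wS = (id && !ib) ∧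
  (ia = ib → a.col ≠ b.col) ∧ (ic = id → c.col ≠ d.col) ∧
  (ia = ic → a.col ≠ c.col) ∧ (ib = id → b.col ≠ d.col)

/-- no concave corner -/
def NoThree (ia ib ic id : Bool) : Prop :=
  ia.toNat + ib.toNat + ic.toNat + id.toNat ≠ 3

/-- horizontal edge of a block that contains a wall -/
def HE (p q : Lab) (ip iq : Bool) : Prop :=
  (ip = true → iq = true → th p.n1 q.n1 = (if q.sA then 1 else 0) ∧
    th p.n2 q.n2 = (if q.sA then 0 else 1) ∧ (q.sA = true → p.sA = true)) ∧
  (ip = false → iq = false → th p.n1 q.n1 = 0 ∧ th p.n2 q.n2 = 0) ∧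
  (ip = true → iq = false → p.sA = false) ∧ (ip = false → iq = true → q.sA = true)

/-- vertical edge of a block that contains a wall -/
def VE (p q : Lab) (ip iq : Bool) : Prop :=
  (ip = iq → th p.n1 q.n1 = 0 ∧ th p.n2 q.n2 = 0) ∧ (ip = true → iq = true → p.sA = q.sA)

/-- the certificate carried by the potentials -/
def Cert (a b c d : Lab) (ia ib ic id : Bool) : Prop :=
  (ia = ib ∧ ia = ic ∧ ia = id →
    th a.n1 b.n1 + th b.n1 d.n1 = th a.n1 c.n1 + th c.n1 d.n1 ∧
    th a.n2 b.n2 + th b.n2 d.n2 = th a.n2 c.n2 + th c.n2 d.n2) ∧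
  (¬(ia = ib ∧ ia = ic ∧ ia = id) →
    HE a b ia ib ∧ HE c d ic id ∧ VE a c ia ic ∧ VE b d ib id)

/-- rectangles -/
def RuleR (a b c d : Lab) : Prop := ∃ ia ib ic id, Geo a b c d ia ib ic id ∧ NoThree ia ib ic id

/-- vertical needles -/
def RuleV (a b c d : Lab) : Prop :=
  ∃ ia ib ic id, Geo a b c d ia ib ic id ∧ Cert a b c d ia ib ic id

/-- the rule: constant mode; rectangles, vertical needles, or horizontal needles -/
def Rule (a b c d : Lab) : Prop :=
  a.mode = b.mode ∧ a.mode = c.mode ∧ a.mode = d.mode ∧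
    (a.mode = 0 → RuleR a b c d) ∧ (a.mode = 1 → RuleV a b c d) ∧ (a.mode = 2 → RuleV a c b d)

/-- adjacency in the grid -/
def Adj (a b : P) : Prop :=
  (a.2 = b.2 ∧ (b.1 = a.1 + 1 ∨ a.1 = b.1 + 1)) ∨ (a.1 = b.1 ∧ (b.2 = a.2 + 1 ∨ a.2 = b.2 + 1))

lemma Adj.symm {a b : P} (h : Adj a b) : Adj b a := by
  unfold Adj at *
  omega

/-- the block with south-west corner `p` -/
def Blk (p a : P) : Prop := p.1 ≤ a.1 ∧ a.1 ≤ p.1 + 1 ∧ p.2 ≤ a.2 ∧ a.2 ≤ p.2 + 1

lemma blk_cases {p a : P} (h : Blk p a) :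
    a = p ∨ a = (p.1 + 1, p.2) ∨ a = (p.1, p.2 + 1) ∨ a = (p.1 + 1, p.2 + 1) := by
  unfold Blk at h
  simp only [Prod.ext_iff]
  omega

/-- closed forms on the grid are exact -/
lemma exists_potential {G : Type} [AddCommGroup G] (E N : P → G)
    (h : ∀ x y, E (x, y) + N (x + 1, y) = N (x, y) + E (x, y + 1)) :
    ∃ f : P → G, (∀ x y, f (x + 1, y) = f (x, y) + E (x, y)) ∧
      ∀ x y, f (x, y + 1) = f (x, y) + N (x, y) := by
  have prim : ∀ u : ℤ → G, ∃ U : ℤ → G, U 0 = 0 ∧ ∀ t, U (t + 1) = U t + u t := by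
    intro u
    refine ⟨fun t => ∑ i ∈ Finset.Ico 0 t, u i - ∑ i ∈ Finset.Ico t 0, u i, by simp, fun t => ?_⟩
    beta_reduce
    rcases le_or_gt 0 t with ht | ht
    · rw [Finset.Ico_eq_empty (a := t + 1) (b := 0) (by omega),
        Finset.Ico_eq_empty (a := t) (b := 0) (by omega),
        ← Finset.insert_Ico_right_eq_Ico_add_one ht, Finset.sum_insert (by simp)]
      abel
    · rw [Finset.Ico_eq_empty (a := 0) (b := t + 1) (by omega),
        Finset.Ico_eq_empty (a := 0) (b := t) (by omega),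
        ← Finset.insert_Ico_add_one_left_eq_Ico ht, Finset.sum_insert (by simp)]
      abel
  obtain ⟨A, -, hA⟩ := prim fun x => E (x, 0)
  choose B hB0 hB using fun x => prim fun y => N (x, y)
  refine ⟨fun p => A p.1 + B p.1 p.2, fun x y => ?_, fun x y => ?_⟩
  · simp only
    induction y using Int.induction_on with
    | zero => rw [hA, hB0, hB0]; abel
    | succ y ih =>
      rw [hB, hB, ← add_assoc, ih, add_assoc, h]
      abel
    | pred y ih =>
      have h1 := hB (x + 1) (-(y : ℤ) - 1)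
      have h2 := hB x (-(y : ℤ) - 1)
      have h3 := h x (-(y : ℤ) - 1)
      rw [sub_add_cancel] at h1 h2 h3
      rw [h1, h2] at ih
      have : A (x + 1) + B (x + 1) (-(y : ℤ) - 1) + N (x + 1, -(y : ℤ) - 1)
          = A x + B x (-(y : ℤ) - 1) + E (x, -(y : ℤ) - 1) + N (x + 1, -(y : ℤ) - 1) := by
        rw [add_assoc, ih, add_assoc (A x + _), h3]
        abel
      exact add_right_cancel this
  · simp only
    rw [hB]
    abel

/-- induction over the connected grid -/
lemma grid_induction {Q : P → Prop} {a : P} (ha : Q a) (h : ∀ u v, Adj u v → Q u → Q v)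
    (b : P) : Q b := by
  have h1 : ∀ y x x', Q (x, y) → Q (x', y) := by
    intro y x x' hx
    induction x' using Int.inductionOn' (b := x) with
    | zero => exact hx
    | succ k _ ih => exact h _ _ (by simp [Adj]) ih
    | pred k _ ih => exact h _ _ (by simp [Adj]) ih
  have h2 : ∀ x y y', Q (x, y) → Q (x, y') := by
    intro x y y' hx
    induction y' using Int.inductionOn' (b := y) with
    | zero => exact hx
    | succ k _ ih => exact h _ _ (by simp [Adj]) ih
    | pred k _ ih => exact h _ _ (by simp [Adj]) ih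
  exact h2 b.1 a.2 b.2 (h1 a.2 a.1 b.1 ha)

end Pool.Agent.Lib.MP_946880_lc.H69
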