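import Mathlib
import Pool.Agent.Lib.MP_946880_lc.H69Rule
import Pool.Agent.Lib.MP_946880_lc.BorMark

/-!
Labelings defined from nested families of finite pieces.
-/

namespace Pool.Agent.Lib.MP_946880_lc.Bor

open H69

/-- A piece: its shape and its potential, in coordinates relative to its centre. -/
abbrev Dat := Set (ℤ × ℤ) × (ℤ × ℤ → ℤ)

open Classical in
/-- The label of the pixel with relative position `r` in a piece. -/
noncomputable def lab (m : Fin 3) (t : Dat) (r : ℤ × ℤ) : Lab :=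
  ⟨m, decide ((r.1 + r.2) % 2 = 0), decide ((r.1 + 1, r.2) ∉ t.1), decide ((r.1 - 1, r.2) ∉ t.1),
    decide ((r.1, r.2 + 1) ∉ t.1), decide ((r.1, r.2 - 1) ∉ t.1), decide (r.1 ≤ 0),
    ((min (t.2 r) 0 : ℤ) : ZMod 5), ((max (t.2 r) 0 : ℤ) : ZMod 5)⟩

/-- The block with south-west corner `(x, y)` lies in `S`. -/
def Full (S : Set (ℤ × ℤ)) (x y : ℤ) : Prop :=
  (x, y) ∈ S ∧ (x + 1, y) ∈ S ∧ (x, y + 1) ∈ S ∧ (x + 1, y + 1) ∈ S

/-- The label `a` of the pixel `(i, j)` of a block comes from the inner piece `t` or from the outer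
piece `t'`. -/
def From (m : Fin 3) (t t' : Dat) (x y x' y' i j : ℤ) (a : Lab) : Prop :=
  ((x + i, y + j) ∈ t.1 → a = lab m t (x + i, y + j)) ∧
    ((x + i, y + j) ∉ t.1 → a = lab m t' (x' + i, y' + j) ∧ Full t'.1 x' y')

open Classical in
theorem check_geo {m : Fin 3} {t t' : Dat} {x y x' y' : ℤ} {a b c d : Lab}
    (ha : From m t t' x y x' y' 0 0 a) (hb : From m t t' x y x' y' 1 0 b)
    (hc : From m t t' x y x' y' 0 1 c) (hd : From m t t' x y x' y' 1 1 d)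
    (h1 : (x, y) ∈ t.1 → (x + 1, y + 1) ∈ t.1 → (x + 1, y) ∈ t.1 ∨ (x, y + 1) ∈ t.1)
    (h2 : (x + 1, y) ∈ t.1 → (x, y + 1) ∈ t.1 → (x, y) ∈ t.1 ∨ (x + 1, y + 1) ∈ t.1) :
    Geo a b c d (decide ((x, y) ∈ t.1)) (decide ((x + 1, y) ∈ t.1)) (decide ((x, y + 1) ∈ t.1))
      (decide ((x + 1, y + 1) ∈ t.1)) := by
  simp only [From, add_zero, Full] at ha hb hc hd
  by_cases ia : (x, y) ∈ t.1 <;> by_cases ib : (x + 1, y) ∈ t.1 <;>
    by_cases ic : (x, y + 1) ∈ t.1 <;> by_cases id : (x + 1, y + 1) ∈ t.1 <;>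
    simp only [ia, ib, ic, id, not_true, not_false_iff, true_imp_iff, false_imp_iff, and_true,
      true_and, or_self] at ha hb hc hd h1 h2 <;>
    simp [Geo, lab, *] <;> omega

theorem From.mode {m : Fin 3} {t t' : Dat} {x y x' y' i j : ℤ} {a : Lab}
    (h : From m t t' x y x' y' i j a) : a.mode = m := by
  by_cases h' : (x + i, y + j) ∈ t.1
  · rw [h.1 h']; rfl
  · rw [(h.2 h').1]; rfl

theorem th_min {s t : ℤ} (h : |t - s| ≤ 2) :
    th ((min s 0 : ℤ) : ZMod 5) ((min t 0 : ℤ) : ZMod 5) = min t 0 - min s 0 :=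
  th_cast _ _ (by rw [abs_le] at h ⊢; omega)

theorem th_max {s t : ℤ} (h : |t - s| ≤ 2) :
    th ((max s 0 : ℤ) : ZMod 5) ((max t 0 : ℤ) : ZMod 5) = max t 0 - max s 0 :=
  th_cast _ _ (by rw [abs_le] at h ⊢; omega)

theorem th_self (u : ZMod 5) : th u u = 0 := by simp [th]

open Classical in
theorem check_HE {m : Fin 3} {t t' : Dat} {x y x' y' j e : ℤ} {a b : Lab}
    (ha : From m t t' x y x' y' 0 j a) (hb : From m t t' x y x' y' 1 j b)
    (hl : ∀ x y, (x, y) ∈ t.1 → 1 ≤ x → (x - 1, y) ∈ t.1)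
    (hr : ∀ x y, (x, y) ∈ t.1 → x ≤ 0 → (x + 1, y) ∈ t.1)
    (a1 : t.2 (x, y + j) = x) (b1 : t.2 (x + 1, y + j) = x + 1)
    (a2 : (x, y + j) ∉ t.1 → t'.2 (x', y' + j) = e)
    (b2 : (x + 1, y + j) ∉ t.1 → t'.2 (x' + 1, y' + j) = e) :
    HE a b (decide ((x, y + j) ∈ t.1)) (decide ((x + 1, y + j) ∈ t.1)) := by
  simp only [From, add_zero] at ha hb
  simp only [HE, decide_eq_true_eq, decide_eq_false_iff_not]
  refine ⟨fun h h' => ?_, fun h h' => ?_, fun h h' => ?_, fun h h' => ?_⟩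
  · rw [ha.1 h, hb.1 h']
    simp only [lab, a1, b1, decide_eq_true_eq]
    rw [th_min (by simp), th_max (by simp)]
    split_ifs <;> omega
  · rw [(ha.2 h).1, (hb.2 h').1]
    simp only [lab, a2 h, b2 h', th_self, and_self]
  · rw [ha.1 h]
    simp only [lab, decide_eq_false_iff_not]
    exact fun h1 => h' (hr _ _ h h1)
  · rw [hb.1 h']
    simp only [lab, decide_eq_true_eq]
    by_contra h1
    exact h (by simpa using hl _ _ h' (by omega))

open Classical in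
theorem check_VE {m : Fin 3} {t t' : Dat} {x y x' y' i e : ℤ} {a b : Lab}
    (ha : From m t t' x y x' y' i 0 a) (hb : From m t t' x y x' y' i 1 b)
    (a1 : t.2 (x + i, y) = x + i) (b1 : t.2 (x + i, y + 1) = x + i)
    (a2 : (x + i, y) ∉ t.1 → t'.2 (x' + i, y') = e)
    (b2 : (x + i, y + 1) ∉ t.1 → t'.2 (x' + i, y' + 1) = e) :
    VE a b (decide ((x + i, y) ∈ t.1)) (decide ((x + i, y + 1) ∈ t.1)) := by
  simp only [From, add_zero] at ha hb
  simp only [VE, decide_eq_true_eq, decide_eq_decide]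
  refine ⟨fun h => ?_, fun h h' => ?_⟩
  · by_cases h' : (x + i, y) ∈ t.1
    · rw [ha.1 h', hb.1 (h.mp h')]
      simp only [lab, a1, b1, th_self, and_self]
    · rw [(ha.2 h').1, (hb.2 (h.not.mp h')).1]
      simp only [lab, a2 h', b2 (h.not.mp h'), th_self, and_self]
  · rw [ha.1 h, hb.1 h']
    rfl

open Classical in
theorem check_cert {m : Fin 3} {t t' : Dat} {x y x' y' : ℤ} {a b c d : Lab}
    (ha : From m t t' x y x' y' 0 0 a) (hb : From m t t' x y x' y' 1 0 b)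
    (hc : From m t t' x y x' y' 0 1 c) (hd : From m t t' x y x' y' 1 1 d)
    (hne : (x, y) ∈ t.1 ∨ (x + 1, y) ∈ t.1 ∨ (x, y + 1) ∈ t.1 ∨ (x + 1, y + 1) ∈ t.1)
    (hl : ∀ x y, (x, y) ∈ t.1 → 1 ≤ x → (x - 1, y) ∈ t.1)
    (hr : ∀ x y, (x, y) ∈ t.1 → x ≤ 0 → (x + 1, y) ∈ t.1)
    (lip : ∀ x y, |t.2 (x + 1, y) - t.2 (x, y)| ≤ 2 ∧ |t.2 (x, y + 1) - t.2 (x, y)| ≤ 2)
    (hw : ¬ Full t.1 x y → ∃ e, ∀ i j, 0 ≤ i → i ≤ 1 → 0 ≤ j → j ≤ 1 →
      t.2 (x + i, y + j) = x + i ∧ ((x + i, y + j) ∉ t.1 → t'.2 (x' + i, y' + j) = e)) :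
    Cert a b c d (decide ((x, y) ∈ t.1)) (decide ((x + 1, y) ∈ t.1)) (decide ((x, y + 1) ∈ t.1))
      (decide ((x + 1, y + 1) ∈ t.1)) := by
  simp only [Cert, decide_eq_decide]
  refine ⟨fun h => ?_, fun h => ?_⟩
  · have hf : Full t.1 x y := by unfold Full; tauto
    simp only [From, add_zero] at ha hb hc hd
    rw [ha.1 hf.1, hb.1 hf.2.1, hc.1 hf.2.2.1, hd.1 hf.2.2.2]
    simp only [lab]
    rw [th_min (lip _ _).1, th_min (lip _ _).2, th_min (lip _ _).2, th_min (lip _ _).1,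
      th_max (lip _ _).1, th_max (lip _ _).2, th_max (lip _ _).2, th_max (lip _ _).1]
    exact ⟨by ring, by ring⟩
  · obtain ⟨e, he⟩ := hw fun hf => h (by unfold Full at hf; tauto)
    have e00 := he 0 0 le_rfl zero_le_one le_rfl zero_le_one
    have e10 := he 1 0 zero_le_one le_rfl le_rfl zero_le_one
    have e01 := he 0 1 le_rfl zero_le_one zero_le_one le_rfl
    have e11 := he 1 1 zero_le_one le_rfl zero_le_one le_rfl
    refine ⟨?_, ?_, ?_, ?_⟩
    · simpa using check_HE ha hb hl hr (by simpa using e00.1) e10.1 (by simpa using e00.2) e10.2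
    · exact check_HE hc hd hl hr (by simpa using e01.1) e11.1 (by simpa using e01.2) e11.2
    · simpa using check_VE ha hc (by simpa using e00.1) e01.1 (by simpa using e00.2) e01.2
    · exact check_VE hb hd (by simpa using e10.1) e11.1 (by simpa using e10.2) e11.2

variable {X : Type*} [MeasurableSpace X]

/-- The point `p` of the orbit of `x` lies in the piece of level `k` centred at `z`. -/
def In (A : Act X) (Z : ℕ → Set X) (D : ℕ → X → Dat) (x : X) (k : ℕ) (z p : ℤ × ℤ) : Prop :=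
  A.a z x ∈ Z k ∧ p - z ∈ (D k (A.a z x)).1

theorem toast (A : Act X) (Z : ℕ → Set X) (D : ℕ → X → Dat) (m : Fin 3)
    (hZ : ∀ k, MeasurableSet (Z k)) (hD : ∀ k (P : Dat → Prop), MeasurableSet {x | P (D k x)})
    (uniq : ∀ x k z z' p q, In A Z D x k z p → In A Z D x k z' q → Sm 1 (p - q) → z = z')
    (nest : ∀ x j k z z' p q q', j < k → In A Z D x j z p → In A Z D x k z' q → Sm 1 (p - q) →
      Sm 1 (p - q') → In A Z D x k z' q') :
    ∃ f : X → Lab, (∀ l, MeasurableSet (f ⁻¹' {l})) ∧ ∀ x, (∀ p, ∃ k z, In A Z D x k z p) →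
      ∃ j z k z', (∃ p, Blk 0 p ∧ In A Z D x j z p) ∧
        (¬ Full (D j (A.a z x)).1 (-z.1) (-z.2) → j < k ∧ ∀ p, Blk 0 p → In A Z D x k z' p) ∧
        ∀ p, Blk 0 p → From m (D j (A.a z x)) (D k (A.a z' x)) (-z.1) (-z.2) (-z'.1) (-z'.2)
          p.1 p.2 (f (A.a p x)) := by
  classical
  let _ : MeasurableSpace Lab := ⊤
  have mI : ∀ k z, MeasurableSet {x | In A Z D x k z 0} := fun k z =>
    A.meas z ((hZ k).inter (hD k fun t => 0 - z ∈ t.1))
  obtain ⟨f, f1, f2⟩ := exists_piecewise (X := X) (T := ℕ × (ℤ × ℤ))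
    (fun t => {x | In A Z D x t.1 t.2 0} ∩ ⋂ j, ⋂ (_ : j < t.1), ⋂ z, {x | In A Z D x j z 0}ᶜ)
    (fun t => (mI _ _).inter (MeasurableSet.iInter fun j => MeasurableSet.iInter fun _ =>
      MeasurableSet.iInter fun z => (mI j z).compl))
    (fun t x => lab m (D t.1 (A.a t.2 x)) (-t.2))
    (fun t S _ => A.meas t.2 (hD t.1 fun d => lab m d (-t.2) ∈ S)) (by
      rintro ⟨k, z⟩ ⟨k', z'⟩ x ⟨h1, h2⟩ ⟨h3, h4⟩
      simp only [Set.mem_iInter] at h2 h4
      rcases lt_trichotomy k k' with h | rfl | h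
      · exact absurd h1 (h4 k h z)
      · rw [uniq x k z z' 0 0 h1 h3 (by simp [Sm])]
      · exact absurd h3 (h2 k' h z'))
  have sh : ∀ x k z p, In A Z D (A.a p x) k z 0 ↔ In A Z D x k (z + p) p := fun x k z p => by
    simp only [In, A.add, zero_sub, sub_add_cancel_right]
  have f3 : ∀ x k z p, In A Z D x k z p → (∀ j, j < k → ∀ z', ¬ In A Z D x j z' p) →
      f (A.a p x) = lab m (D k (A.a z x)) (-z.1 + p.1, -z.2 + p.2) := fun x k z p h h' => by
    rw [f2 (k, z - p) (A.a p x) ⟨(sh x k _ p).mpr (by rwa [sub_add_cancel]), by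
      simp only [Set.mem_iInter]
      exact fun j hj z' h1 => h' j hj _ ((sh x j z' p).mp h1)⟩]
    simp only [← A.add, sub_add_cancel]
    congr 1
    ext <;> simp [sub_eq_neg_add]
  refine ⟨f, fun l => f1 MeasurableSpace.measurableSet_top, fun x hx => ?_⟩
  have bs : ∀ p q : ℤ × ℤ, Blk 0 p → Blk 0 q → Sm 1 (p - q) := fun p q hp hq => by
    simp only [Blk, Sm, Prod.fst_sub, Prod.snd_sub, Prod.fst_zero, Prod.snd_zero] at *
    omega
  have ex : ∃ j z p, Blk 0 p ∧ In A Z D x j z p := by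
    obtain ⟨k, z, h⟩ := hx 0
    exact ⟨k, z, 0, by simp [Blk], h⟩
  obtain ⟨z, p₀, h0, h1⟩ := Nat.find_spec ex
  have hmin := fun j (hj : j < Nat.find ex) z p hp h => Nat.find_min ex hj ⟨z, p, hp, h⟩
  generalize Nat.find ex = j at h1 hmin
  have e : ∀ k z p, A.a z x ∈ Z k →
      (In A Z D x k z p ↔ (-z.1 + p.1, -z.2 + p.2) ∈ (D k (A.a z x)).1) := fun k z p h => by
    rw [show (-z.1 + p.1, -z.2 + p.2) = p - z by ext <;> simp [sub_eq_neg_add]]
    exact ⟨fun h => h.2, fun h' => ⟨h, h'⟩⟩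
  have full : ∀ k z, (∀ p, Blk 0 p → In A Z D x k z p) → Full (D k (A.a z x)).1 (-z.1) (-z.2) :=
    fun k z h => by
      have h0 := (h 0 (by simp [Blk])).1
      exact ⟨by simpa using (e k z 0 h0).mp (h _ (by simp [Blk])),
        by simpa using (e k z (1, 0) h0).mp (h _ (by simp [Blk])),
        by simpa using (e k z (0, 1) h0).mp (h _ (by simp [Blk])),
        (e k z (1, 1) h0).mp (h _ (by simp [Blk]))⟩
  by_cases ho : ∃ k z' q, Blk 0 q ∧ ¬ In A Z D x j z q ∧ In A Z D x k z' q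
  · obtain ⟨z', q, h2, h3, h4⟩ := Nat.find_spec ho
    have hmin' := fun i (hi : i < Nat.find ho) w p hp h h' => Nat.find_min ho hi ⟨w, p, hp, h, h'⟩
    generalize Nat.find ho = k at h4 hmin'
    have hjk : j < k := by
      rcases lt_trichotomy j k with h | rfl | h
      · exact h
      · exact absurd (uniq x j z z' p₀ q h1 h4 (bs _ _ h0 h2) ▸ h4) h3
      · exact (hmin k h z' q h2 h4).elim
    have h5 : ∀ p, Blk 0 p → In A Z D x k z' p := fun p hp =>
      nest x j k z z' p₀ q p hjk h1 h4 (bs _ _ h0 h2) (bs _ _ h0 hp)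
    exact ⟨j, z, k, z', ⟨p₀, h0, h1⟩, fun _ => ⟨hjk, h5⟩, fun p hp =>
      ⟨fun h => f3 x j z p ((e j z p h1.1).mpr h) fun i hi w => hmin i hi w p hp,
        fun h => ⟨f3 x k z' p (h5 p hp) fun i hi w =>
          hmin' i hi w p hp ((e j z p h1.1).not.mpr h), full k z' h5⟩⟩⟩
  · have h2 : ∀ p, Blk 0 p → In A Z D x j z p := fun p hp => by
      by_contra h
      obtain ⟨k, z', h'⟩ := hx p
      exact ho ⟨k, z', p, hp, h, h'⟩
    exact ⟨j, z, j, z, ⟨p₀, h0, h1⟩, fun h => absurd (full j z h2) h, fun p hp =>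
      ⟨fun h => f3 x j z p (h2 p hp) fun i hi w => hmin i hi w p hp,
        fun h => absurd ((e j z p h1.1).mp (h2 p hp)) h⟩⟩

end Pool.Agent.Lib.MP_946880_lc.Bor
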