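import Mathlib
import Pool.Agent.Lib.MP_946880_lc.BorClamp
import Pool.Agent.Lib.MP_946880_lc.BorToast

/-!
Every free Borel action of `ℤ × ℤ` has a Borel solution of the local rule.
-/

namespace Pool.Agent.Lib.MP_946880_lc

namespace Bor

open H69 Set

variable {X : Type*} [MeasurableSpace X]

theorem meas_pattern {ι : Type*} {I : Set ι} (hI : I.Finite) (B : ι → Set X)
    (hB : ∀ i, MeasurableSet (B i)) (Q : Set ι → Prop) :
    MeasurableSet {x | Q {i | i ∈ I ∧ x ∈ B i}} := by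
  have : {x | Q {i | i ∈ I ∧ x ∈ B i}} =
      ⋃ J ∈ {J | J ⊆ I ∧ Q J}, ⋂ i ∈ I, {x | x ∈ B i ↔ i ∈ J} := by
    ext x
    simp only [mem_iUnion, mem_iInter, mem_ofPred_eq]
    refine ⟨fun h => ⟨_, ⟨fun i hi => hi.1, h⟩, fun i hi => ⟨fun h => ⟨hi, h⟩, fun h => h.2⟩⟩, ?_⟩
    rintro ⟨J, ⟨h1, h2⟩, h3⟩
    rwa [show {i | i ∈ I ∧ x ∈ B i} = J from Set.ext fun i =>
      ⟨fun h => (h3 i h.1).mp h.2, fun h => ⟨h1 h, (h3 i (h1 h)).mpr h⟩⟩]
  rw [this]
  refine MeasurableSet.biUnion (hI.finite_subsets.subset fun J h => h.1).countable fun J _ =>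
    MeasurableSet.biInter hI.countable fun i _ => ?_
  by_cases h : i ∈ J
  · simpa [h] using hB i
  · simpa [h, compl_def] using (hB i).compl

/-- The marker sets of all levels are discrete. -/
def Disc (A : Act X) (Z : ℕ → Set X) : Prop :=
  ∀ k x g, x ∈ Z k → A.a g x ∈ Z k → Sm (50 * NN k) g → g = 0

theorem Disc.sparse {A : Act X} {Z : ℕ → Set X} (h : Disc A Z) (x : X) :
    Sparse fun k => {z | A.a z x ∈ Z k} := fun k z z' h1 h2 h3 =>
  sub_eq_zero.mp (h k _ (z - z') h2 (by rwa [← A.add, sub_add_cancel]) h3)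

theorem solve_V (A : Act X) (Z : ℕ → Set X) (hZ : ∀ k, MeasurableSet (Z k)) (hd : Disc A Z)
    (m : Fin 3) : ∃ f : X → Lab, (∀ l, MeasurableSet (f ⁻¹' {l})) ∧ ∀ x,
      (∀ p : ℤ × ℤ, ∃ k z, A.a z x ∈ Z k ∧ -(2 * aa k) ≤ p.1 - z.1 ∧ p.1 - z.1 ≤ 2 * aa k ∧
        -(3 * NN k) ≤ p.2 - z.2 ∧ p.2 - z.2 ≤ 3 * NN k) →
      ((f x).mode = m ∧ (f (A.a (1, 0) x)).mode = m ∧ (f (A.a (0, 1) x)).mode = m ∧
        (f (A.a (1, 1) x)).mode = m) ∧
      RuleV (f x) (f (A.a (1, 0) x)) (f (A.a (0, 1) x)) (f (A.a (1, 1) x)) := by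
  let pat : ℕ → X → Set (ℕ × (ℤ × ℤ)) := fun k x =>
    {i | i ∈ (Iio k) ×ˢ {g | Sm (6 * NN k) g} ∧ x ∈ A.a i.2 ⁻¹' Z i.1}
  let om : Set (ℕ × (ℤ × ℤ)) → ℕ → Set (ℤ × ℤ) := fun π j => {g | (j, g) ∈ π}
  let F : ℕ → Set (ℕ × (ℤ × ℤ)) → Dat := fun k π =>
    (Classical.epsilon (Needle (om π) k), Classical.epsilon (Pot (om π) k))
  let D : ℕ → X → Dat := fun k x => F k (pat k x)
  have sp : ∀ k x, Sparse (om (pat k x)) := fun k x j z z' h h' =>
    hd.sparse x j z z' h.2 h'.2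
  have hN : ∀ k x, Needle (om (pat k x)) k (D k x).1 := fun k x =>
    Classical.epsilon_spec (exists_needle (sp k x) k)
  have hP : ∀ k x, Pot (om (pat k x)) k (D k x).2 := fun k x =>
    Classical.epsilon_spec (exists_pot (sp k x) k)
  have mem : ∀ k x z j w, w - z ∈ om (pat k (A.a z x)) j ↔
      (j < k ∧ Sm (6 * NN k) (w - z)) ∧ A.a w x ∈ Z j := fun k x z j w => by
    simp only [om, pat, mem_ofPred_eq, mem_prod, mem_Iio, mem_preimage, ← A.add, sub_add_cancel]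
  have bd : ∀ x k z p, In A Z D x k z p → Box k (-1) z p := fun x k z p h => by
    have := (hN k _).bound _ h.2
    simp only [Box, Prod.fst_sub, Prod.snd_sub, Prod.fst_zero, Prod.snd_zero] at this ⊢
    omega
  have nst : ∀ x j k w z q q', j < k → A.a w x ∈ Z j → In A Z D x k z q → Box j (EE j + 1) w q →
      Box j (EE j + 1) w q' → In A Z D x k z q' := fun x j k w z q q' hjk hw h h1 h2 => by
    have b1 := bd x k z q h
    have := par j
    have := par k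
    have := aa_mono hjk
    rcases (hN k (A.a z x)).nest j hjk (w - z) ((mem k x z j w).mpr ⟨⟨hjk, by
      simp only [Box, Sm, Prod.fst_sub, Prod.snd_sub] at b1 h1 ⊢; omega⟩, hw⟩) with h3 | h3
    · exact ⟨h.1, h3 _ (by simp only [Box, Prod.fst_sub, Prod.snd_sub] at h2 ⊢; omega)⟩
    · exact absurd h.2 (h3 _ (by simp only [Box, Prod.fst_sub, Prod.snd_sub] at h1 ⊢; omega))
  obtain ⟨f, f1, f2⟩ := toast A Z D m hZ
    (fun k Q => meas_pattern ((finite_Iio k).prod (sm_finite _)) _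
      (fun i => A.meas i.2 (hZ i.1)) fun π => Q (F k π))
    (fun x k z z' p q h h' hs => hd.sparse x k z z' h.1 h'.1 (by
      have b1 := bd x k z p h
      have b2 := bd x k z' q h'
      have := par k
      simp only [Box, Sm, Prod.fst_sub, Prod.snd_sub] at b1 b2 hs ⊢
      omega))
    (fun x j k z z' p q q' hjk h h' hs hs' => by
      have b1 := bd x j z p h
      have := par j
      simp only [Box, Sm, Prod.fst_sub, Prod.snd_sub] at b1 hs hs'
      exact nst x j k z z' q q' hjk h.1 h' (by simp only [Box]; omega) (by simp only [Box]; omega))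
  refine ⟨f, f1, fun x hx => ?_⟩
  obtain ⟨j, z, k, z', ⟨p₀, h0, h1⟩, h2, h3⟩ := f2 x fun p => by
    obtain ⟨k, z, h, h'⟩ := hx p
    exact ⟨k, z, h, (hN k _).core _ h'.1 h'.2.1 h'.2.2.1 h'.2.2.2⟩
  have ha := h3 0 (by simp [Blk])
  have hb := h3 (1, 0) (by simp [Blk])
  have hc := h3 (0, 1) (by simp [Blk])
  have he := h3 (1, 1) (by simp [Blk])
  rw [A.zero] at ha
  have l := (hN j (A.a z x)).left
  have r := (hN j (A.a z x)).right
  refine ⟨⟨ha.mode, hb.mode, hc.mode, he.mode⟩, _, _, _, _,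
    check_geo ha hb hc he (fun a b => ?_) (fun a b => ?_),
    check_cert ha hb hc he ?_ l r (hP j _).lip fun hf => ?_⟩
  · by_cases h : -z.1 ≤ 0
    · exact Or.inl (r _ _ a h)
    · exact Or.inr (by simpa using l _ _ b (by omega))
  · by_cases h : -z.1 ≤ 0
    · exact Or.inr (r _ _ b h)
    · exact Or.inl (by simpa using l _ _ a (by omega))
  · have := h1.2
    rw [show p₀ - z = (-z.1 + p₀.1, -z.2 + p₀.2) by ext <;> simp [sub_eq_neg_add]] at this
    rcases blk_cases h0 with rfl | rfl | rfl | rfl <;> simp at this <;> simp [this]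
  · obtain ⟨hjk, h4⟩ := h2 hf
    have fr : ∀ q, Blk 0 q → ∀ i, i < j → ∀ w, A.a w x ∈ Z i → ¬ Box i (EE i) w q :=
      fun q hq i hi w hw hb => by
        have h5 : ∀ q', Blk 0 q' → (-z.1 + q'.1, -z.2 + q'.2) ∈ (D j (A.a z x)).1 :=
          fun q' hq' => by
            simp only [Blk, Box, Prod.fst_zero, Prod.snd_zero] at hq hq' h0 hb
            rw [show (-z.1 + q'.1, -z.2 + q'.2) = q' - z by ext <;> simp [sub_eq_neg_add]]
            exact (nst x i j w z p₀ q' hi hw h1 (by simp only [Box]; omega)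
              (by simp only [Box]; omega)).2
        exact hf ⟨by simpa using h5 0 (by simp [Blk]), by simpa using h5 (1, 0) (by simp [Blk]),
          by simpa using h5 (0, 1) (by simp [Blk]), h5 (1, 1) (by simp [Blk])⟩
    have b1 := bd x j z p₀ h1
    have b2 := bd x k z' p₀ (h4 p₀ h0)
    have := par j
    have := par k
    have := aa_mono hjk
    obtain ⟨e, he⟩ := (hP k (A.a z' x)).const j hjk (z - z') ((mem k x z' j z).mpr ⟨⟨hjk, by
      simp only [Box, Sm, Prod.fst_sub, Prod.snd_sub] at b1 b2 ⊢; omega⟩, h1.1⟩)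
    refine ⟨e, fun i i' i1 i2 i3 i4 => ⟨(hP j _).free _ fun n hn w hw hb => ?_,
      fun _ => he _ ?_ fun n hn w hw hb => ?_⟩⟩
    · rw [← add_sub_cancel_right w z] at hw
      exact fr (i, i') (by simp [Blk, *]) n hn _ ((mem j x z n _).mp hw).2
        (by simp only [Box, Prod.fst_add, Prod.snd_add] at hb ⊢; omega)
    · simp only [Blk, Box, Prod.fst_sub, Prod.snd_sub, Prod.fst_zero, Prod.snd_zero] at b1 h0 ⊢
      omega
    · rw [← add_sub_cancel_right w z'] at hw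
      exact fr (i, i') (by simp [Blk, *]) n hn _ ((mem k x z' n _).mp hw).2
        (by simp only [Box, Prod.fst_add, Prod.snd_add] at hb ⊢; omega)

/-- The markers whose square is cut by no square of higher level. -/
def Kept (A : Act X) (Z : ℕ → Set X) (k : ℕ) : Set X :=
  {x | x ∈ Z k ∧ ∀ k' g, k < k' → A.a g x ∈ Z k' →
    (∀ p, Sm (2 * NN k + 1) p → Sm (2 * NN k') (p - g)) ∨
      ∀ p, Sm (2 * NN k + 1) p → ¬ Sm (2 * NN k') (p - g)}

theorem meas_kept (A : Act X) (Z : ℕ → Set X) (hZ : ∀ k, MeasurableSet (Z k)) (k : ℕ) :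
    MeasurableSet (Kept A Z k) :=
  measurableSet_setOfPred.mpr ((measurableSet_setOfPred.mp (hZ k)).and
    (Measurable.forall fun k' => Measurable.forall fun g => measurable_const.imp
      ((measurableSet_setOfPred.mp (A.meas g (hZ k'))).imp measurable_const)))

theorem solve_R (A : Act X) (Z : ℕ → Set X) (hZ : ∀ k, MeasurableSet (Z k)) (hd : Disc A Z)
    (m : Fin 3) : ∃ f : X → Lab, (∀ l, MeasurableSet (f ⁻¹' {l})) ∧ ∀ x,
      (∀ p : ℤ × ℤ, ∃ k z, A.a z x ∈ Kept A Z k ∧ Sm (2 * NN k) (p - z)) →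
      ((f x).mode = m ∧ (f (A.a (1, 0) x)).mode = m ∧ (f (A.a (0, 1) x)).mode = m ∧
        (f (A.a (1, 1) x)).mode = m) ∧
      RuleR (f x) (f (A.a (1, 0) x)) (f (A.a (0, 1) x)) (f (A.a (1, 1) x)) := by
  obtain ⟨f, f1, f2⟩ := toast A (Kept A Z) (fun k _ => ({p | Sm (2 * NN k) p}, fun _ => 0)) m
    (meas_kept A Z hZ)
    (fun k Q => MeasurableSet.const _)
    (fun x k z z' p q h h' hs => hd.sparse x k z z' h.1.1 h'.1.1 (by
      have b1 := h.2
      have b2 := h'.2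
      have := par k
      simp only [mem_ofPred_eq, Sm, Prod.fst_sub, Prod.snd_sub] at b1 b2 hs ⊢
      omega))
    (fun x j k z z' p q q' hjk h h' hs hs' => by
      have b1 := h.2
      have b2 := h'.2
      simp only [mem_ofPred_eq, Sm, Prod.fst_sub, Prod.snd_sub] at b1 b2 hs hs'
      rcases h.1.2 k (z' - z) hjk (by rw [← A.add, sub_add_cancel]; exact h'.1.1) with h3 | h3
      · exact ⟨h'.1, by
          simpa using h3 (q' - z) (by simp only [Sm, Prod.fst_sub, Prod.snd_sub]; omega)⟩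
      · exact absurd h'.2 (by
          simpa using h3 (q - z) (by simp only [Sm, Prod.fst_sub, Prod.snd_sub]; omega)))
  refine ⟨f, f1, fun x hx => ?_⟩
  obtain ⟨j, z, k, z', -, -, h3⟩ := f2 x hx
  have ha := h3 0 (by simp [Blk])
  have hb := h3 (1, 0) (by simp [Blk])
  have hc := h3 (0, 1) (by simp [Blk])
  have he := h3 (1, 1) (by simp [Blk])
  rw [A.zero] at ha
  refine ⟨⟨ha.mode, hb.mode, hc.mode, he.mode⟩, _, _, _, _,
    check_geo ha hb hc he (fun a b => ?_) (fun a b => ?_), ?_⟩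
  · simp only [mem_ofPred_eq, Sm] at a b ⊢
    omega
  · simp only [mem_ofPred_eq, Sm] at a b ⊢
    omega
  · simp only [NoThree, Bool.toNat, Bool.cond_decide, mem_ofPred_eq, Sm]
    split_ifs <;> omega

/-- The transposed action. -/
def Act.swap (A : Act X) : Act X where
  a g := A.a g.swap
  zero := A.zero
  add g h := A.add g.swap h.swap
  meas _ := A.meas _
  free _ x h := Prod.swap_injective (A.free _ x h)

/-- Translated marker sets. -/
def Tr (A : Act X) (M : ℕ → Set X) (s : ℤ × ℤ) (k : ℕ) : Set X :=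
  A.a (NN k * s.1, NN k * s.2) ⁻¹' M k

theorem Disc.tr {A : Act X} {M : ℕ → Set X} (h : Disc A M) (s : ℤ × ℤ) : Disc A (Tr A M s) :=
  fun k x g h1 h2 => h k _ g h1 (by
    rw [← A.add, add_comm, A.add]; exact h2)

theorem Disc.swap {A : Act X} {M : ℕ → Set X} (h : Disc A M) : Disc A.swap M :=
  fun k x g h1 h2 h3 => Prod.swap_injective (h k x g.swap h1 h2
    ⟨h3.2.2.1, h3.2.2.2, h3.1, h3.2.1⟩)

theorem cover (A : Act X) (M : ℕ → Set X) (hM : ∀ k x, ∃ g, Sm (50 * NN k) g ∧ A.a g x ∈ M k)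
    (x : X) : ∃ s, (∀ p : ℤ × ℤ, ∃ k z, A.a z x ∈ Kept A (Tr A M s) k ∧ Sm (2 * NN k) (p - z)) ∨
      (∀ p : ℤ × ℤ, ∃ k z, A.a z x ∈ Tr A M s k ∧ -(2 * aa k) ≤ p.1 - z.1 ∧ p.1 - z.1 ≤ 2 * aa k ∧
        -(3 * NN k) ≤ p.2 - z.2 ∧ p.2 - z.2 ≤ 3 * NN k) ∨
      (∀ p : ℤ × ℤ, ∃ k z, A.swap.a z x ∈ Tr A M s k ∧ -(2 * aa k) ≤ p.1 - z.1 ∧
        p.1 - z.1 ≤ 2 * aa k ∧ -(3 * NN k) ≤ p.2 - z.2 ∧ p.2 - z.2 ≤ 3 * NN k) := by
  let nr : Act X → ℤ × ℤ → ℕ → Prop := fun B s k => ∃ z, B.a z x ∈ Tr A M s k ∧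
    -aa k ≤ z.1 ∧ z.1 ≤ aa k ∧ -(2 * NN k + aa k) ≤ z.2 ∧ z.2 ≤ 2 * NN k + aa k
  have big : ∀ p : ℤ × ℤ, ∀ᶠ k in Filter.atTop, Sm (aa k) p := fun p =>
    Filter.eventually_atTop.mpr ⟨p.1.natAbs + p.2.natAbs, fun k hk => by
      have := le_aa k
      unfold Sm
      omega⟩
  have near : ∀ B s, (∃ᶠ k in Filter.atTop, nr B s k) → ∀ p : ℤ × ℤ, ∃ k z,
      B.a z x ∈ Tr A M s k ∧ -(2 * aa k) ≤ p.1 - z.1 ∧ p.1 - z.1 ≤ 2 * aa k ∧
        -(3 * NN k) ≤ p.2 - z.2 ∧ p.2 - z.2 ≤ 3 * NN k := fun B s h p => by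
    obtain ⟨k, ⟨z, h1, h2⟩, h3⟩ := (h.and_eventually (big p)).exists
    have := par k
    unfold Sm at h3
    exact ⟨k, z, h1, by omega⟩
  by_cases hV : ∃ s, ∃ᶠ k in Filter.atTop, nr A s k
  · obtain ⟨s, h⟩ := hV
    exact ⟨s, Or.inr (Or.inl (near A s h))⟩
  by_cases hH : ∃ s, ∃ᶠ k in Filter.atTop, nr A.swap s k
  · obtain ⟨s, h⟩ := hH
    exact ⟨s, Or.inr (Or.inr (near _ s h))⟩
  simp only [not_exists, Filter.not_frequently] at hV hH
  have deep : ∀ k, ∃ s, Sm 50 s ∧ ∃ z, A.a z x ∈ Tr A M s k ∧ Sm (NN k) z := fun k => by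
    obtain ⟨g, h1, h2⟩ := hM k x
    have := par k
    have h0 : 0 < NN k := by omega
    have a1 := Int.emod_nonneg g.1 h0.ne'
    have a2 := Int.emod_lt_of_pos g.1 h0
    have a3 := Int.mul_ediv_add_emod g.1 (NN k)
    have b1 := Int.emod_nonneg g.2 h0.ne'
    have b2 := Int.emod_lt_of_pos g.2 h0
    have b3 := Int.mul_ediv_add_emod g.2 (NN k)
    obtain ⟨c1, c2, c3, c4⟩ := h1
    refine ⟨(g.1 / NN k, g.2 / NN k), ⟨?_, ?_, ?_, ?_⟩, (g.1 % NN k, g.2 % NN k), ?_,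
      by simp only [Sm]; omega⟩
    · exact Int.le_ediv_of_mul_le h0 (by omega)
    · exact Int.ediv_le_of_le_mul h0 c2
    · exact Int.le_ediv_of_mul_le h0 (by omega)
    · exact Int.ediv_le_of_le_mul h0 c4
    · simp only [Tr, mem_preimage, ← A.add, Prod.mk_add_mk, a3, b3]
      exact h2
  obtain ⟨s, -, hs⟩ := (Filter.frequently_exists_finite (l := Filter.atTop) (sm_finite 50)
    (p := fun s k => ∃ z, A.a z x ∈ Tr A M s k ∧ Sm (NN k) z)).mp
      (Filter.Frequently.of_forall deep)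
  refine ⟨s, Or.inl fun p => ?_⟩
  obtain ⟨K, hK⟩ := Filter.eventually_atTop.mp ((hV (s.1 + 2, s.2)).and ((hV (s.1 - 2, s.2)).and
    ((hH (s.1, s.2 + 2)).and (hH (s.1, s.2 - 2)))))
  obtain ⟨k, ⟨z, h1, h2⟩, h3, h4⟩ :=
    (hs.and_eventually ((big p).and (Filter.eventually_ge_atTop K))).exists
  have q := par k
  refine ⟨k, z, ⟨h1, fun k' g hk hg => ?_⟩, by
    simp only [Sm, Prod.fst_sub, Prod.snd_sub] at h2 h3 ⊢; omega⟩
  have q' := par k'
  have := aa_mono hk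
  obtain ⟨n1, n2, n3, n4⟩ := hK k' (by omega)
  have tr : ∀ w s' : ℤ × ℤ, NN k' * s'.1 + w.1 = NN k' * s.1 + (g.1 + z.1) →
      NN k' * s'.2 + w.2 = NN k' * s.2 + (g.2 + z.2) → A.a w x ∈ Tr A M s' k' :=
    fun w s' e1 e2 => by
      simp only [Tr, mem_preimage, ← A.add] at hg ⊢
      convert hg using 2
      exact Prod.ext e1 e2
  by_contra hc
  push Not at hc
  obtain ⟨⟨u, u1, u2⟩, v, v1, v2⟩ := hc
  simp only [Sm, Prod.fst_sub, Prod.snd_sub] at u1 u2 v1 v2 h2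
  have m1 := fun h => n1 ⟨(g.1 + z.1 - 2 * NN k', g.2 + z.2), tr _ _ (by ring) rfl, h⟩
  have m2 := fun h => n2 ⟨(g.1 + z.1 + 2 * NN k', g.2 + z.2), tr _ _ (by ring) rfl, h⟩
  have m3 := fun h => n3 ⟨(g.2 + z.2 - 2 * NN k', g.1 + z.1),
    tr (g.1 + z.1, g.2 + z.2 - 2 * NN k') _ rfl (by ring), h⟩
  have m4 := fun h => n4 ⟨(g.2 + z.2 + 2 * NN k', g.1 + z.1),
    tr (g.1 + z.1, g.2 + z.2 + 2 * NN k') _ rfl (by ring), h⟩
  simp only at m1 m2 m3 m4
  rcases (by omega : u.1 - g.1 < -(2 * NN k') ∨ 2 * NN k' < u.1 - g.1 ∨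
    u.2 - g.2 < -(2 * NN k') ∨ 2 * NN k' < u.2 - g.2) with h | h | h | h
  exacts [m1 (by omega), m2 (by omega), m3 (by omega), m4 (by omega)]

/-- Every point of the orbit of `x` is close to a marker. -/
def Cov (A : Act X) (Z : ℕ → Set X) (R : ℕ → ℤ × ℤ → Prop) (x : X) : Prop :=
  ∀ p : ℤ × ℤ, ∃ k z, A.a z x ∈ Z k ∧ R k (p - z)

theorem Cov.meas (A : Act X) {Z : ℕ → Set X} (hZ : ∀ k, MeasurableSet (Z k))
    (R : ℕ → ℤ × ℤ → Prop) : Measurable (Cov A Z R) :=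
  Measurable.forall fun _ => Measurable.exists fun k => Measurable.exists fun z =>
    (measurableSet_setOfPred.mp (A.meas z (hZ k))).and measurable_const

theorem Cov.inv {A : Act X} {Z : ℕ → Set X} {R : ℕ → ℤ × ℤ → Prop} {x : X} (h : Cov A Z R x)
    (g : ℤ × ℤ) : Cov A Z R (A.a g x) := fun p => by
  obtain ⟨k, z, h1, h2⟩ := h (p + g)
  exact ⟨k, z - g, by rwa [← A.add, sub_add_cancel], by rwa [show p - (z - g) = p + g - z by abel]⟩

theorem glue (A : Act X) {T : Type} [Countable T] [Nonempty T] (C : T → X → Prop)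
    (hC : ∀ t, Measurable (C t)) (inv : ∀ t g x, C t x → C t (A.a g x)) (cov : ∀ x, ∃ t, C t x)
    (F : T → X → Lab) (hF : ∀ t l, MeasurableSet (F t ⁻¹' {l})) :
    ∃ f : X → Lab, (∀ l, MeasurableSet (f ⁻¹' {l})) ∧
      ∀ x, ∃ t, C t x ∧ f x = F t x ∧ ∀ g, f (A.a g x) = F t (A.a g x) := by
  classical
  let _ : MeasurableSpace Lab := ⊤
  obtain ⟨e, he⟩ := exists_surjective_nat T
  obtain ⟨f, f1, f2⟩ := exists_piecewise (X := X) (T := ℕ)
    (fun n => {x | C (e n) x ∧ ∀ m, m < n → ¬ C (e m) x})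
    (fun n => measurableSet_setOfPred.mpr ((hC _).and (Measurable.forall fun m =>
      measurable_const.imp (hC _).not)))
    (fun n => F (e n)) (fun n => measurable_to_countable' (hF _)) (by
      rintro n n' x ⟨h1, h2⟩ ⟨h3, h4⟩
      rcases lt_trichotomy n n' with h | rfl | h
      · exact absurd h1 (h4 n h)
      · rfl
      · exact absurd h3 (h2 n' h))
  refine ⟨f, fun l => f1 MeasurableSpace.measurableSet_top, fun x => ?_⟩
  have ex : ∃ n, C (e n) x := by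
    obtain ⟨t, ht⟩ := cov x
    obtain ⟨n, rfl⟩ := he t
    exact ⟨n, ht⟩
  exact ⟨e (Nat.find ex), Nat.find_spec ex,
    f2 _ x ⟨Nat.find_spec ex, fun m hm => Nat.find_min ex hm⟩, fun g => f2 _ _
      ⟨inv _ g x (Nat.find_spec ex), fun m hm h => Nat.find_min ex hm
        (by simpa only [A.neg_cancel] using inv _ (-g) _ h)⟩⟩

end Bor

open Bor in
theorem borel_half (X : Type) [MeasurableSpace X] [StandardBorelSpace X] (a : ℤ × ℤ → X → X)
    (h0 : ∀ x, a 0 x = x) (hadd : ∀ g h x, a (g + h) x = a g (a h x))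
    (hmeas : ∀ g, Measurable (a g)) (hfree : ∀ g x, a g x = x → g = 0) :
    ∃ f : X → H69.Lab, (∀ l, MeasurableSet (f ⁻¹' {l})) ∧
      ∀ x, H69.Rule (f x) (f (a (1, 0) x)) (f (a (0, 1) x)) (f (a (1, 1) x)) := by
  let A : Act X := ⟨a, h0, hadd, hmeas, hfree⟩
  choose M M1 M2 M3 using fun k => exists_marker A (50 * NN k) (by have := par k; omega)
  have hd : Disc A M := M2
  have hT : ∀ s k, MeasurableSet (Tr A M s k) := fun s k => A.meas _ (M1 k)
  choose fR r1 r2 using fun s => solve_R A _ (hT s) (hd.tr s) 0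
  choose fV v1 v2 using fun s => solve_V A _ (hT s) (hd.tr s) 1
  choose fH w1 w2 using fun s => solve_V A.swap _ (hT s) (hd.tr s).swap 2
  let core : ℕ → ℤ × ℤ → Prop := fun k u =>
    -(2 * aa k) ≤ u.1 ∧ u.1 ≤ 2 * aa k ∧ -(3 * NN k) ≤ u.2 ∧ u.2 ≤ 3 * NN k
  obtain ⟨f, f1, f2⟩ := glue A (T := (ℤ × ℤ) ⊕ (ℤ × ℤ) ⊕ (ℤ × ℤ))
    (Sum.elim (fun s => Cov A (Kept A (Tr A M s)) fun k => Sm (2 * NN k))
      (Sum.elim (fun s => Cov A (Tr A M s) core) fun s => Cov A.swap (Tr A M s) core))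
    (by
      rintro (s | s | s)
      exacts [Cov.meas A (meas_kept A _ (hT s)) _, Cov.meas A (hT s) _, Cov.meas A.swap (hT s) _])
    (by
      rintro (s | s | s) g x h
      exacts [Cov.inv h g, Cov.inv h g, Cov.inv h g.swap])
    (fun x => by
      obtain ⟨s, h | h | h⟩ := cover A M M3 x
      exacts [⟨Sum.inl s, h⟩, ⟨Sum.inr (Sum.inl s), h⟩, ⟨Sum.inr (Sum.inr s), h⟩])
    (Sum.elim fR (Sum.elim fV fH))
    (by
      rintro (s | s | s)
      exacts [r1 s, v1 s, w1 s])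
  refine ⟨f, f1, fun x => ?_⟩
  obtain ⟨t, h1, h2, h3⟩ := f2 x
  change H69.Rule _ (f (A.a _ x)) (f (A.a _ x)) (f (A.a _ x))
  rw [h2, h3, h3, h3]
  rcases t with s | s | s
  · obtain ⟨⟨m1, m2, m3, m4⟩, h⟩ := r2 s x h1
    exact ⟨m1.trans m2.symm, m1.trans m3.symm, m1.trans m4.symm, fun _ => h,
      fun e => absurd (m1.symm.trans e) (by decide), fun e => absurd (m1.symm.trans e) (by decide)⟩
  · obtain ⟨⟨m1, m2, m3, m4⟩, h⟩ := v2 s x h1
    exact ⟨m1.trans m2.symm, m1.trans m3.symm, m1.trans m4.symm,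
      fun e => absurd (m1.symm.trans e) (by decide), fun _ => h,
      fun e => absurd (m1.symm.trans e) (by decide)⟩
  · obtain ⟨⟨m1, m2, m3, m4⟩, h⟩ := w2 s x h1
    exact ⟨m1.trans m3.symm, m1.trans m2.symm, m1.trans m4.symm,
      fun e => absurd (m1.symm.trans e) (by decide),
      fun e => absurd (m1.symm.trans e) (by decide), fun _ => h⟩

end Pool.Agent.Lib.MP_946880_lc
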