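import Mathlib
import Pool.Agent.Lib.MP_946880_lc.H69Rule

/-!
A free minimal rotation of the `3`-adic integers, and Baire category arguments on it.
-/

namespace Pool.Agent.Lib.MP_946880_lc.Bor

open H69 Set Filter Topology

instance : Fact (Nat.Prime 3) := ⟨Nat.prime_three⟩

theorem exists_theta (n : ℕ) : ∃ θ : Fin n → ℤ_[3], (∀ i, IsUnit (θ i)) ∧
    ∀ γ : Fin n → ℤ, ∑ i, γ i • θ i = 0 → γ = 0 := by
  have hd : Dense (⋂ γ : {γ : Fin n → ℤ // γ ≠ 0}, {θ : Fin n → ℤ_[3] | ∑ i, γ.1 i • θ i ≠ 0}) := by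
    refine dense_iInter_of_isOpen (fun γ => isOpen_ne_fun (by fun_prop) continuous_const)
      fun ⟨γ, hγ⟩ θ => ?_
    by_cases h : ∑ i, γ i • θ i = 0
    swap
    · exact subset_closure h
    obtain ⟨j, hj⟩ := Function.ne_iff.mp hγ
    have t1 : Tendsto (fun k : ℕ => (3 : ℤ_[3]) ^ k) atTop (𝓝 0) :=
      tendsto_pow_atTop_nhds_zero_of_norm_lt_one ((PadicInt.norm_lt_one_iff_dvd _).mpr (by simp))
    have t2 : Continuous fun u : ℤ_[3] => θ + Pi.single j u :=
      continuous_const.add (continuous_single (A := fun _ => ℤ_[3]) j)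
    refine mem_closure_of_tendsto (f := fun k : ℕ => θ + Pi.single j (3 ^ k)) (b := atTop)
      (by simpa [Function.comp_def] using (t2.tendsto 0).comp t1) (Eventually.of_forall fun k => ?_)
    simp only [mem_ofPred_eq, Pi.add_apply, smul_add, Finset.sum_add_distrib, h, zero_add]
    rw [Finset.sum_eq_single j (fun i _ hi => by simp [hi]) (by simp)]
    simpa using hj
  have ho : IsOpen {θ : Fin n → ℤ_[3] | ∀ i, ‖θ i - 1‖ < 1} := by
    rw [ofPred_forall]
    exact isOpen_iInter_of_finite fun i => isOpen_lt (by fun_prop) continuous_const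
  obtain ⟨θ, h1, h2⟩ := hd.inter_open_nonempty _ ho ⟨1, by simp⟩
  refine ⟨θ, fun i => ?_, fun γ h => ?_⟩
  · by_contra h
    have := PadicInt.norm_lt_one_add (PadicInt.not_isUnit_iff.mp h)
      (show ‖-(θ i - 1)‖ < 1 by rw [norm_neg]; exact h1 i)
    simp at this
  · by_contra h0
    exact mem_iInter.mp h2 ⟨γ, h0⟩ h

theorem exists_code : ∃ ι : ℤ_[3] → ℕ → Bool, Continuous ι ∧ Function.Injective ι := by
  classical
  refine ⟨fun t m => decide (t ∈ Metric.ball (m.unpair.1 : ℤ_[3]) (1 / ((m.unpair.2 : ℝ) + 1))),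
    continuous_pi fun m => ?_, fun t t' h => ?_⟩
  · refine (IsLocallyConstant.iff_continuous _).mp ((IsLocallyConstant.iff_isOpen_fiber).mpr ?_)
    have := IsUltrametricDist.isClopen_ball (m.unpair.1 : ℤ_[3]) (1 / ((m.unpair.2 : ℝ) + 1))
    rintro (_ | _)
    · simpa [preimage, compl_def] using this.compl.isOpen
    · convert this.isOpen using 1
      ext; simp
  · by_contra hne
    obtain ⟨k, hk⟩ := exists_nat_one_div_lt (dist_pos.mpr hne)
    obtain ⟨a, ha⟩ := Metric.denseRange_iff.mp (PadicInt.denseRange_natCast (p := 3)) t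
      (1 / ((k : ℝ) + 1)) (by positivity)
    have h1 := congrFun h (Nat.pair a k)
    simp only [Nat.unpair_pair, Metric.mem_ball, ha, decide_true, true_eq_decide_iff] at h1
    have h2 := IsUltrametricDist.dist_triangle_max t (a : ℤ_[3]) t'
    rw [dist_comm (a : ℤ_[3])] at h2
    exact absurd (h2.trans_lt (max_lt ha h1)) (not_lt.mpr hk.le)

theorem dense_unit {u : ℤ_[3]} (h : IsUnit u) : DenseRange fun n : ℤ => n • u := by
  have h1 : Function.Surjective fun t : ℤ_[3] => t * u := fun t => by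
    obtain ⟨v, rfl⟩ := h
    exact ⟨t * ↑v⁻¹, by simp⟩
  simpa [Function.comp_def] using
    h1.denseRange.comp (PadicInt.denseRange_intCast (p := 3)) (by fun_prop)

theorem dense_two {u : ℤ_[3]} (h : IsUnit u) : DenseRange fun n : ℤ => n • (u + u) := by
  refine dense_unit ?_
  rw [← two_mul]
  refine IsUnit.mul ?_ h
  by_contra h2
  have := (PadicInt.norm_int_lt_one_iff_dvd (p := 3) 2).mp
    (by simpa using PadicInt.not_isUnit_iff.mp h2)
  norm_num at this

section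

variable {K : Type} [AddCommGroup K] [TopologicalSpace K] [IsTopologicalAddGroup K]

theorem hit {β : K} (hβ : DenseRange fun n : ℤ => n • β) {U : Set K} (hU : IsOpen U)
    (hne : U.Nonempty) (t : K) : ∃ n : ℤ, t + n • β ∈ U := by
  obtain ⟨u, hu⟩ := hne
  exact hβ.exists_mem_open (s := (fun s => t + s) ⁻¹' U) (hU.preimage (by fun_prop))
    ⟨u - t, by simpa using hu⟩

theorem gap [CompactSpace K] {β : K} (hβ : DenseRange fun n : ℤ => n • β) {U : Set K}
    (hU : IsOpen U) (hne : U.Nonempty) : ∃ G : ℕ, ∀ t, ∃ i : ℕ, i < G ∧ t + i • β ∈ U := by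
  obtain ⟨s, hs⟩ := isCompact_univ.elim_finite_subcover (fun n : ℤ => (fun t => t + n • β) ⁻¹' U)
    (fun n => hU.preimage (by fun_prop)) fun t _ => mem_iUnion.mpr (hit hβ hU hne t)
  obtain ⟨M, hM⟩ := (s.finite_toSet.image Int.natAbs).bddAbove
  refine ⟨2 * M + 1, fun t => ?_⟩
  obtain ⟨n, h1, h2⟩ := mem_iUnion₂.mp (hs (mem_univ (t + M • β)))
  have h3 : n.natAbs ≤ M := hM ⟨n, h1, rfl⟩
  refine ⟨(M + n).toNat, by omega, ?_⟩
  rw [← natCast_zsmul, Int.toNat_of_nonneg (by omega), add_zsmul, natCast_zsmul, ← add_assoc]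
  exact h2

omit [AddCommGroup K] [IsTopologicalAddGroup K] in
theorem loc_const [BaireSpace K] {Λ : Type} [Countable Λ] {g : K → Λ}
    (hg : ∀ l, ∃ C : ℕ → Set K, (∀ i, IsClosed (C i)) ∧ g ⁻¹' {l} = ⋃ i, C i) :
    Dense {t | ∀ᶠ s in 𝓝 t, g s = g t} := by
  choose C h1 h2 using hg
  have h3 : ∀ l i s, s ∈ C l i → g s = l := fun l i s h =>
    (h2 l).ge (mem_iUnion.mpr ⟨i, h⟩)
  refine (dense_iUnion_interior_of_closed (f := fun p : Λ × ℕ => C p.1 p.2) (fun p => h1 _ _)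
    (eq_univ_of_forall fun t => ?_)).mono fun t ht => ?_
  · obtain ⟨i, hi⟩ := mem_iUnion.mp ((h2 (g t)).le rfl)
    exact mem_iUnion.mpr ⟨(g t, i), hi⟩
  · obtain ⟨p, hp⟩ := mem_iUnion.mp ht
    filter_upwards [mem_interior_iff_mem_nhds.mp hp] with s hs
    rw [h3 _ _ _ hs, h3 _ _ _ (interior_subset hp)]

theorem generic [BaireSpace K] {Λ : Type} [Countable Λ] {g : K → Λ}
    (hg : ∀ l, ∃ C : ℕ → Set K, (∀ i, IsClosed (C i)) ∧ g ⁻¹' {l} = ⋃ i, C i) (α β : K) :
    ∃ t, ∀ m n : ℤ, ∀ᶠ s in 𝓝 (t + m • α + n • β), g s = g (t + m • α + n • β) := by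
  have ho : IsOpen {t | ∀ᶠ s in 𝓝 t, g s = g t} := isOpen_iff_mem_nhds.mpr fun t ht => by
    filter_upwards [Eventually.eventually_nhds ht, ht] with s h1 h2
    simpa only [mem_ofPred_eq, h2] using h1
  obtain ⟨t, ht⟩ := (dense_iInter_of_isOpen (f := fun p : ℤ × ℤ =>
    (fun t => t + (p.1 • α + p.2 • β)) ⁻¹' {t | ∀ᶠ s in 𝓝 t, g s = g t})
    (fun p => ho.preimage (by fun_prop))
    fun p => (loc_const hg).preimage (isOpenMap_add_right _)).nonempty
  exact ⟨t, fun m n => by rw [add_assoc]; exact mem_iInter.mp ht (m, n)⟩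

theorem const_of_inv {Λ : Type} {u : K → Λ} {α t : K} (hα : DenseRange fun n : ℤ => n • α)
    (h : ∀ s, u (s + α) = u s) (ht : ∀ᶠ s in 𝓝 t, u s = u t) (s : K) : u s = u t := by
  obtain ⟨U, h1, h2, h3⟩ := eventually_nhds_iff.mp ht
  obtain ⟨n, hn⟩ := hit hα h2 ⟨t, h3⟩ s
  exact (Function.Periodic.zsmul h n s).symm.trans (h1 _ hn)

theorem run_bound [CompactSpace K] [BaireSpace K] {Λ : Type} [Countable Λ] {g : K → Λ}
    (hg : ∀ l, ∃ C : ℕ → Set K, (∀ i, IsClosed (C i)) ∧ g ⁻¹' {l} = ⋃ i, C i) {α β : K}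
    (hβ : DenseRange fun n : ℤ => n • β) (hβ2 : DenseRange fun n : ℤ => n • (β + β))
    (Q : Λ → Λ → Prop) (c : Λ → Bool)
    (h : ∀ t, ¬ Q (g t) (g (t + α)) → ¬ Q (g (t + β)) (g (t + β + α)) → c (g t) ≠ c (g (t + β))) :
    ∃ G : ℕ, ∀ t, ∃ i : ℕ, i < G ∧ Q (g (t + i • β)) (g (t + i • β + α)) := by
  obtain ⟨t, ht⟩ := generic hg α β
  by_cases h1 : ∃ n : ℤ, Q (g (t + n • β)) (g (t + n • β + α))
  · obtain ⟨n, hn⟩ := h1
    have a1 := ht 0 n
    have a2 := ht 1 n
    rw [zero_smul, add_zero] at a1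
    rw [one_smul, add_right_comm] at a2
    have a3 : ∀ᶠ s in 𝓝 (t + n • β), g (s + α) = g (t + n • β + α) :=
      (continuous_add_const α).continuousAt.eventually a2
    obtain ⟨U, u1, u2, u3⟩ := eventually_nhds_iff.mp (a1.and a3)
    obtain ⟨G, hG⟩ := gap hβ u2 ⟨_, u3⟩
    exact ⟨G, fun s => (hG s).imp fun i hi => ⟨hi.1, by rwa [(u1 _ hi.2).1, (u1 _ hi.2).2]⟩⟩
  · push Not at h1
    have e : ∀ n : ℤ, t + (n + 1) • β = t + n • β + β := fun n => by
      rw [add_zsmul, one_smul, add_assoc]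
    have h2 : ∀ n : ℤ, c (g (t + n • β)) ≠ c (g (t + (n + 1) • β)) := fun n =>
      e n ▸ h _ (h1 n) (e n ▸ h1 (n + 1))
    have h3 : Function.Periodic (fun n : ℤ => c (g (t + n • β))) 2 := fun n => by
      have a1 := h2 n
      have a2 := h2 (n + 1)
      rw [show n + 1 + 1 = n + 2 by ring] at a2
      exact (Bool.eq_not_of_ne a2.symm).trans (Bool.eq_not_of_ne a1).symm
    have a1 := ht 0 0
    simp only [zero_smul, add_zero] at a1
    obtain ⟨U, u1, u2, u3⟩ := eventually_nhds_iff.mp a1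
    obtain ⟨n, hn⟩ := hit hβ2 u2 ⟨_, u3⟩ (t + β)
    have a2 := h3.zsmul n 1
    have a3 := h2 0
    simp only [zero_smul, add_zero, zero_add] at a2 a3
    rw [show t + (1 + n • (2 : ℤ)) • β = t + β + n • (β + β) by
      rw [smul_eq_mul, add_zsmul, mul_zsmul, one_smul, two_smul, add_assoc], u1 _ hn] at a2
    exact absurd a2 a3

end

end Pool.Agent.Lib.MP_946880_lc.Bor
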