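import Mathlib

/-!
The free part of the shift action of an abelian group on `(2 ^ ω) ^ Γ`.
-/

namespace Pool.Agent.Lib.MP_946880_lc

/-- The points of `(2 ^ ω) ^ Γ` with trivial stabiliser under the shift, with the subspace
topology of the product topology. -/
abbrev FreePart (Γ : Type) [AddCommGroup Γ] : Type :=
  {x : Γ → ℕ → Bool // ∀ γ : Γ, (fun δ => x (δ + γ)) = x → γ = 0}

/-- The shift `(γ • x) δ = x (δ + γ)` on the free part. -/
def shift {Γ : Type} [AddCommGroup Γ] (γ : Γ) (x : FreePart Γ) : FreePart Γ :=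
  ⟨fun δ => x.1 (δ + γ), fun γ' h => x.2 γ' (funext fun δ => by
    have := congrFun h (δ - γ)
    simp only [sub_add_cancel] at this
    rwa [show δ - γ + γ' + γ = δ + γ' by abel] at this)⟩

end Pool.Agent.Lib.MP_946880_lc
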