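import Mathlib
import Pool.Agent.Lib.MP_946880_lc.BorMain
import Pool.Agent.Lib.MP_946880_lc.BorSys
import Pool.Agent.Lib.MP_946880_lc.FreePart

/-!
Assembly of the two halves.
-/

namespace Pool.Agent.Lib.MP_946880_lc.Bor

open H69 Set Filter Topology

section

variable {K : Type} [AddCommGroup K] [TopologicalSpace K] [IsTopologicalAddGroup K]
  [CompactSpace K] [BaireSpace K]

theorem no_class_one {α β : K} (hα : DenseRange fun n : ℤ => n • α)
    (hα2 : DenseRange fun n : ℤ => n • (α + α)) (hβ : DenseRange fun n : ℤ => n • β)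
    (hβ2 : DenseRange fun n : ℤ => n • (β + β)) {g : K → Lab}
    (hg : ∀ l, ∃ C : ℕ → Set K, (∀ i, IsClosed (C i)) ∧ g ⁻¹' {l} = ⋃ i, C i)
    (noR : (∀ t, RuleR (g t) (g (t + α)) (g (t + β)) (g (t + α + β))) → ∀ G : ℕ,
      (∀ t, ∃ i : ℕ, i < G ∧ (g (t + i • β)).wE = false ∧ (g (t + i • β + α)).wW = false) →
      (∀ t, ∃ i : ℕ, i < G ∧ (g (t + i • α)).wN = false ∧ (g (t + i • α + β)).wS = false) → False)
    (noV : ¬ ∀ t, RuleV (g t) (g (t + α)) (g (t + β)) (g (t + α + β)))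
    (noH : ¬ ∀ t, RuleV (g t) (g (t + β)) (g (t + α)) (g (t + β + α))) :
    ¬ ∀ t, Rule (g t) (g (t + α)) (g (t + β)) (g (t + α + β)) := fun h => by
  obtain ⟨t₀, ht⟩ := generic hg α β
  have h0 := ht 0 0
  simp only [zero_smul, add_zero] at h0
  have hm := const_of_inv (u := fun s => (g s).mode) hα (fun s => (h s).1.symm)
    (h0.mono fun s hs => by rw [hs])
  generalize (g t₀).mode = m at hm
  fin_cases m
  · have hR := fun t => (h t).2.2.2.1 (hm t)
    obtain ⟨G, hG⟩ := run_bound hg (α := α) hβ hβ2 (fun a b => a.wE = false ∧ b.wW = false)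
      (fun a => a.col) fun t h1 h2 => by
        obtain ⟨ia, ib, ic, id, hgeo, -⟩ := hR t
        rw [add_right_comm] at h2
        unfold Geo at hgeo
        cases ia <;> cases ib <;> cases ic <;> cases id <;> simp_all
    obtain ⟨G', hG'⟩ := run_bound hg (α := β) hα hα2 (fun a b => a.wN = false ∧ b.wS = false)
      (fun a => a.col) fun t h1 h2 => by
        obtain ⟨ia, ib, ic, id, hgeo, -⟩ := hR t
        unfold Geo at hgeo
        cases ia <;> cases ib <;> cases ic <;> cases id <;> simp_all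
    exact noR hR (max G G') (fun t => (hG t).imp fun i hi => ⟨lt_max_of_lt_left hi.1, hi.2⟩)
      fun t => (hG' t).imp fun i hi => ⟨lt_max_of_lt_right hi.1, hi.2⟩
  · exact noV fun t => (h t).2.2.2.2.1 (hm t)
  · exact noH fun t => by rw [add_right_comm]; exact (h t).2.2.2.2.2 (hm t)

end

theorem final_of
    (H : ∀ (α β : ℤ_[3]), IsUnit α → IsUnit β → (∀ m n : ℤ, m • α + n • β = 0 → m = 0 ∧ n = 0) →
      ∀ g : ℤ_[3] → Lab,
      (∀ l, ∃ C : ℕ → Set ℤ_[3], (∀ i, IsClosed (C i)) ∧ g ⁻¹' {l} = ⋃ i, C i) →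
      ¬ ∀ t, Rule (g t) (g (t + α)) (g (t + β)) (g (t + α + β)))
    (n : ℕ) (hn : 2 ≤ n) :
    ∃ (Λ : Type) (_ : Fintype Λ) (S : Finset (Fin n → ℤ)) (𝒜 : Set (S → Λ)),
      (∀ (X : Type) [MeasurableSpace X] [StandardBorelSpace X] [AddAction (Fin n → ℤ) X],
        (∀ γ : Fin n → ℤ, Measurable fun x : X => γ +ᵥ x) →
        (∀ (γ : Fin n → ℤ) (x : X), γ +ᵥ x = x → γ = 0) →
        ∃ f : X → Λ, (∀ l, MeasurableSet (f ⁻¹' {l})) ∧
          ∀ x : X, (fun γ : S => f (γ.1 +ᵥ x)) ∈ 𝒜) ∧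
      ¬ ∃ f : FreePart (Fin n → ℤ) → Λ,
        (∀ l, ∃ C : ℕ → Set (FreePart (Fin n → ℤ)), (∀ i, IsClosed (C i)) ∧ f ⁻¹' {l} = ⋃ i, C i) ∧
        ∀ x, (fun γ : S => f (shift γ.1 x)) ∈ 𝒜 := by
  classical
  let i₀ : Fin n := ⟨0, by omega⟩
  let i₁ : Fin n := ⟨1, by omega⟩
  have h01 : i₀ ≠ i₁ := by simp [i₀, i₁]
  let φ : ℤ × ℤ → Fin n → ℤ := fun g => Pi.single i₀ g.1 + Pi.single i₁ g.2
  have φ0 : φ 0 = 0 := by simp [φ]
  have φa : ∀ g h, φ (g + h) = φ g + φ h := fun g h => by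
    simp only [φ, Prod.fst_add, Prod.snd_add, Pi.single_add]; abel
  have φi : ∀ g, φ g = 0 → g = 0 := fun g h => Prod.ext
    (by simpa [φ, h01] using congrFun h i₀) (by simpa [φ, h01.symm] using congrFun h i₁)
  refine ⟨Lab, Fintype.ofFinite _, {0, φ (1, 0), φ (0, 1), φ (1, 1)},
    {w | Rule (w ⟨0, by simp⟩) (w ⟨φ (1, 0), by simp⟩) (w ⟨φ (0, 1), by simp⟩)
      (w ⟨φ (1, 1), by simp⟩)}, fun X _ _ _ h1 h2 => ?_, ?_⟩
  · obtain ⟨f, f1, f2⟩ := borel_half X (fun g x => φ g +ᵥ x) (fun x => by rw [φ0, zero_vadd])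
      (fun g h x => by rw [φa, add_vadd]) (fun g => h1 _) fun g x h => φi g (h2 _ x h)
    exact ⟨f, f1, fun x => by simpa only [mem_ofPred_eq, zero_vadd] using f2 x⟩
  · rintro ⟨f, f1, f2⟩
    obtain ⟨θ, t1, t2⟩ := exists_theta n
    obtain ⟨ι, c1, c2⟩ := exists_code
    let ψ : (Fin n → ℤ) → ℤ_[3] := fun γ => ∑ i, γ i • θ i
    have ψa : ∀ γ δ, ψ (γ + δ) = ψ γ + ψ δ := fun γ δ => by
      simp only [ψ, Pi.add_apply, add_zsmul, Finset.sum_add_distrib]
    have ψ0 : ψ 0 = 0 := by simp [ψ]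
    have ψs : ∀ i (m : ℤ), ψ (Pi.single i m) = m • θ i := fun i m => by
      simp only [ψ]
      rw [Finset.sum_eq_single i (fun j _ hj => by simp [hj]) (by simp), Pi.single_eq_same]
    have ψφ : ∀ g, ψ (φ g) = g.1 • θ i₀ + g.2 • θ i₁ := fun g => by rw [ψa, ψs, ψs]
    let e : ℤ_[3] → FreePart (Fin n → ℤ) := fun t => ⟨fun δ => ι (t + ψ δ), fun γ h => by
      have := c2 (congrFun h 0)
      rw [zero_add, ψ0] at this
      exact t2 γ (add_left_cancel this)⟩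
    have ec : Continuous e :=
      (continuous_pi fun δ => c1.comp (continuous_add_const _)).subtype_mk _
    have es : ∀ γ t, shift γ (e t) = e (t + ψ γ) := fun γ t => Subtype.ext (funext fun δ => by
      simp only [shift, e, ψa, add_assoc, add_comm (ψ δ)])
    refine H (θ i₀) (θ i₁) (t1 _) (t1 _) (fun a b h => ?_) (f ∘ e) (fun l => ?_) fun t => ?_
    · simpa using φi (a, b) (t2 _ ((ψφ (a, b)).trans h))
    · obtain ⟨C, h1, h2⟩ := f1 l
      exact ⟨fun i => e ⁻¹' C i, fun i => (h1 i).preimage ec, by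
        rw [preimage_comp, h2, preimage_iUnion]⟩
    · simpa only [mem_ofPred_eq, es, ψ0, ψφ, add_zero, zero_add, one_smul, zero_smul, add_assoc,
        Function.comp_apply] using f2 (e t)

end Pool.Agent.Lib.MP_946880_lc.Bor
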