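import Mathlib

/-!
Measure preserving actions of `ℤ × ℤ`: recurrence, mass transport and two-colourings.
-/

namespace Pool.Agent.Lib.MP_946880_lc.Bor

open MeasureTheory Set Filter ENNReal

/-- A measure preserving action of `ℤ × ℤ`, given as a function. -/
structure Pmp {X : Type} [MeasurableSpace X] (μ : Measure X) (a : ℤ × ℤ → X → X) : Prop where
  zero : ∀ x, a 0 x = x
  add : ∀ g h x, a (g + h) x = a g (a h x)
  mp : ∀ g, MeasurePreserving (a g) μ μ

/-- A measurable equivariant relation between points of orbits. -/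
structure Rel {X : Type} [MeasurableSpace X] (a : ℤ × ℤ → X → X)
    (R : X → ℤ × ℤ → ℤ × ℤ → Prop) : Prop where
  meas : ∀ p q, Measurable fun x => R x p q
  eqv : ∀ g x p q, R (a g x) p q ↔ R x (p + g) (q + g)

variable {X : Type} [MeasurableSpace X] {μ : Measure X} {a : ℤ × ℤ → X → X}

theorem Pmp.ae_all (h : Pmp μ a) {Q : X → Prop} (hQ : ∀ᵐ x ∂μ, Q x) :
    ∀ᵐ x ∂μ, ∀ g, Q (a g x) :=
  ae_all_iff.mpr fun g => (h.mp g).quasiMeasurePreserving.ae hQ

theorem lint_encard {S : X → ℤ × ℤ → Prop} (hS : ∀ p, Measurable fun x => S x p) :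
    ∫⁻ x, ({p | S x p}.encard : ℝ≥0∞) ∂μ = ∑' p, μ {x | S x p} := by
  have : ∀ x, ({p | S x p}.encard : ℝ≥0∞) = ∑' p, {x | S x p}.indicator 1 x := fun x => by
    rw [← ENNReal.tsum_set_one, tsum_subtype {p | S x p} fun _ => (1 : ℝ≥0∞)]
    rfl
  simp only [this]
  rw [lintegral_tsum fun p => (measurable_one.indicator
    (measurableSet_setOfPred.mpr (hS p))).aemeasurable]
  exact tsum_congr fun p => lintegral_indicator_one (measurableSet_setOfPred.mpr (hS p))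

theorem Pmp.mtp (h : Pmp μ a) {R : X → ℤ × ℤ → ℤ × ℤ → Prop} (hR : Rel a R) :
    ∫⁻ x, ({p | R x p 0}.encard : ℝ≥0∞) ∂μ = ∫⁻ x, ({q | R x 0 q}.encard : ℝ≥0∞) ∂μ := by
  rw [lint_encard fun p => hR.meas p 0, lint_encard (hR.meas 0), ← (Equiv.neg _).tsum_eq]
  refine tsum_congr fun g => ?_
  rw [← (h.mp g).measure_preimage
    (measurableSet_setOfPred.mpr (hR.meas _ _)).nullMeasurableSet]
  simp [hR.eqv]

theorem Pmp.finite (h : Pmp μ a) {R : X → ℤ × ℤ → ℤ × ℤ → Prop} (hR : Rel a R)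
    (hf : ∫⁻ x, ({q | R x 0 q}.encard : ℝ≥0∞) ∂μ ≠ ∞) : ∀ᵐ x ∂μ, ∀ q, {p | R x p q}.Finite := by
  rw [← h.mtp hR, lint_encard fun p => hR.meas p 0] at hf
  filter_upwards [h.ae_all (ae_finite_setOfPred_mem hf)] with x hx q
  refine ((hx q).image (· + q)).subset fun p hp => ⟨p - q, ?_, sub_add_cancel p q⟩
  simpa [hR.eqv] using hp

variable [IsProbabilityMeasure μ]

theorem Pmp.two_col (h : Pmp μ a) {g : ℤ × ℤ} (he : Ergodic (a (g + g)) μ) {A : X → Prop}
    (hA : Measurable A) (hc : ∀ᵐ x ∂μ, A (a g x) ↔ ¬ A x) : False := by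
  have h1 : a (g + g) ⁻¹' {x | A x} =ᵐ[μ] {x | A x} := by
    filter_upwards [hc, h.ae_all hc] with x h1 h2
    refine propext ?_
    change A (a (g + g) x) ↔ A x
    rw [h.add, h2 g, h1, not_not]
  rcases he.quasiErgodic.ae_mem_or_ae_notMem₀
    (measurableSet_setOfPred.mpr hA).nullMeasurableSet h1 with h2 | h2
  · obtain ⟨x, h3, h4, h5⟩ := (hc.and (h2.and (h.ae_all h2))).exists
    exact h3.mp (h5 g) h4
  · obtain ⟨x, h3, h4, h5⟩ := (hc.and (h2.and (h.ae_all h2))).exists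
    exact h5 g (h3.mpr h4)

theorem Pmp.recur (h : Pmp μ a) {g : ℤ × ℤ} (he : Ergodic (a g) μ) {A : X → Prop}
    (hA : Measurable A) (hn : ¬ ∀ᵐ x ∂μ, ¬ A x) :
    ∀ᵐ x ∂μ, ∀ p, ∃ n : ℕ, A (a (p + n • g) x) := by
  have h1 : MeasurableSet {x | ∃ n : ℕ, A (a (n • g) x)} :=
    measurableSet_setOfPred.mpr (Measurable.exists fun n => hA.comp (h.mp _).measurable)
  rcases he.ae_empty_or_univ_of_preimage_ae_le h1.nullMeasurableSet
    (Eventually.of_forall fun x ⟨n, hn⟩ => ⟨n + 1, by rwa [succ_nsmul, h.add]⟩) with h2 | h2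
  · refine absurd ?_ hn
    filter_upwards [h2] with x hx hA
    exact hx.mp ⟨0, by rwa [zero_smul, h.zero]⟩
  · filter_upwards [h.ae_all h2] with x hx p
    obtain ⟨n, hn⟩ := (hx p).mpr trivial
    exact ⟨n, by rwa [add_comm, h.add]⟩

theorem lint_le_one {S : X → Set (ℤ × ℤ)} (hS : ∀ᵐ x ∂μ, (S x).Subsingleton) :
    ∫⁻ x, ((S x).encard : ℝ≥0∞) ∂μ ≤ 1 := by
  refine (lintegral_mono_ae (g := fun _ => 1) ?_).trans (by simp)
  filter_upwards [hS] with x hx
  exact_mod_cast encard_le_one_iff_subsingleton.mpr hx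

theorem Pmp.canon (h : Pmp μ a) {R : X → ℤ × ℤ → ℤ × ℤ → Prop} (hR : Rel a R)
    (hu : ∀ x q q', R x 0 q → R x 0 q' → q = q') {g : ℤ × ℤ} (he : Ergodic (a g) μ)
    (hi : ∀ᵐ x ∂μ, (∃ p, R x p g) → ∃ p, R x p 0) :
    (∀ᵐ x ∂μ, ∀ p q, ¬ R x p q) ∨ ∀ᵐ x ∂μ, ∃ q, R x 0 q := by
  have h1 : MeasurableSet {x | ∃ p, R x p 0} :=
    measurableSet_setOfPred.mpr (Measurable.exists fun p => hR.meas p 0)
  have h2 : MeasurableSet {x | ∃ q, R x 0 q} :=
    measurableSet_setOfPred.mpr (Measurable.exists (hR.meas 0))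
  rcases he.ae_empty_or_univ_of_preimage_ae_le h1.nullMeasurableSet (by
    filter_upwards [hi] with x hx ⟨p, hp⟩
    exact hx ⟨p + g, by simpa [hR.eqv] using hp⟩) with h3 | h3
  · refine Or.inl ?_
    filter_upwards [h.ae_all h3] with x hx p q hpq
    exact (hx q).mp ⟨p - q, by simpa [hR.eqv] using hpq⟩
  · refine Or.inr ((prob_compl_eq_zero_iff h2).mpr (le_antisymm prob_le_one ?_))
    calc (1 : ℝ≥0∞) = ∫⁻ _, 1 ∂μ := by simp
      _ ≤ ∫⁻ x, ({p | R x p 0}.encard : ℝ≥0∞) ∂μ := by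
        refine lintegral_mono_ae ?_
        filter_upwards [h3] with x hx
        exact_mod_cast one_le_encard_iff_nonempty.mpr (hx.mpr trivial)
      _ = ∫⁻ x, ({q | R x 0 q}.encard : ℝ≥0∞) ∂μ := h.mtp hR
      _ ≤ ∫⁻ x, {x | ∃ q, R x 0 q}.indicator 1 x ∂μ := by
        refine lintegral_mono fun x => ?_
        by_cases hx : x ∈ {x | ∃ q, R x 0 q}
        · rw [indicator_of_mem hx, Pi.one_apply]
          exact (ENat.toENNReal_le.mpr (encard_le_one_iff_subsingleton.mpr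
            fun q hq q' hq' => hu x q q' hq hq')).trans ENat.toENNReal_one.le
        · rw [show {q | R x 0 q} = ∅ from eq_empty_of_forall_notMem fun q hq => hx ⟨q, hq⟩]
          simp
      _ = μ {x | ∃ q, R x 0 q} := lintegral_indicator_one h2

end Pool.Agent.Lib.MP_946880_lc.Bor
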