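import Pool.Agent.Lib.MP_946880_lc.H69Types

/- Glued closed forms: canonical columns and the size of cells. -/

namespace Pool.Agent.Lib.MP_946880_lc.H69

open Relation

variable {ω : P → Lab} {W : P → P → Prop} {e : P × P}

open Classical in
/-- vertical part of the glued form -/
noncomputable def ThN (W : P → P → Prop) (N : P → ℤ) (e : P × P) (u : P) : ℤ :=
  if Cell W e u ∧ Cell W e (u.1, u.2 + 1) then N u else 0

lemma WallSys.blk_ring (h : WallSys W) (he : W e.1 e.2) {p u : P} (hc : BlkC W e p) (hu : Blk p u)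
    (hi : Ins W e u) : Same W e.1 u := by
  obtain ⟨I, hI⟩ := h.blk p
  have k1 := h.I_iff he hI hc hu
  obtain ⟨a, b, ha, hb, hab⟩ := hc
  have k2 := h.I_iff he hI ⟨a, b, ha, hb, hab⟩ ha
  exact (h.conn_same hab).1.trans
    (hI.same ha hu (by rw [k1, k2]; exact iff_of_true (h.ins_of_conn he hab) hi))

lemma WallSys.cell_of_blk (h : WallSys W) (he : W e.1 e.2) {p u : P} (hc : BlkC W e p)
    (hu : Blk p u) (hi : Ins W e u) : Cell W e u :=
  ⟨hi, fun _ he' _ => ((h.blk_ring he hc hu hi).ins he').symm⟩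

lemma Same.cell (he : W e.1 e.2) {u v : P} (h : Same W u v) : Cell W e u ↔ Cell W e v :=
  and_congr (h.ins he) (forall_congr' fun _ => forall_congr' fun he' => by rw [h.ins he'])

lemma WallSys.cell_congr (h : WallSys W) (he : W e.1 e.2) {e' : P × P} (hc : Conn W e e') (z : P) :
    Cell W e z ↔ Cell W e' z :=
  and_congr (h.ins_congr he hc z) (forall_congr' fun _ => forall_congr' fun he'' => by
    rw [(h.conn_same hc).1.ins he'']
    exact imp_congr_left (not_congr ⟨fun k => hc.symm.trans k, fun k => hc.trans k⟩))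

lemma WallSys.th_congr (h : WallSys W) (he : W e.1 e.2) {e' : P × P} (hc : Conn W e e')
    (E : P → ℤ) : Th W E e = Th W E e' := by
  have h1 : Cell W e = Cell W e' := funext fun z => propext (h.cell_congr he hc z)
  have h2 : Ins W e = Ins W e' := funext fun z => propext (h.ins_congr he hc z)
  unfold Th
  rw [h1, h2]

lemma WallSys.mutual (h : WallSys W) (he : W e.1 e.2) {e' : P × P} (he' : W e'.1 e'.2)
    (hn : ¬Conn W e e') {p u : P} (hc : BlkC W e' p) (hu : Blk p u) (h1 : Cell W e u)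
    (h2 : Ins W e' u) : Ins W e' e.1 ∧ Ins W e e'.1 :=
  ⟨(h1.2 e' he' hn).1 h2, ((h.blk_ring he' hc hu h2).ins he).2 h1.1⟩

theorem WallSys.glue (h : WallSys W) (he : W e.1 e.2) {E N : P → ℤ}
    (flat : ∀ x y, (∀ a b, Blk (x, y) a → Blk (x, y) b → ¬W a b) →
      E (x, y) + N (x + 1, y) = N (x, y) + E (x, y + 1))
    (ver : ∀ e' : P × P, W e'.1 e'.2 → ∀ p, BlkC W e' p → ∀ x y, Blk p (x, y) → Blk p (x, y + 1) →
      (Ins W e' (x, y) ↔ Ins W e' (x, y + 1)) → N (x, y) = 0)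
    (own : ∀ p, BlkC W e p → ∀ x y, Blk p (x, y) → Blk p (x + 1, y) → Ins W e (x, y) →
      Ins W e (x + 1, y) → E (x, y) = 1)
    (oth : ∀ e' : P × P, W e'.1 e'.2 → ¬Conn W e e' → ∀ p, BlkC W e' p → ∀ x y, Blk p (x, y) →
      Blk p (x + 1, y) → Cell W e (x, y) → Cell W e (x + 1, y) → E (x, y) = 0) (x y : ℤ) :
    Th W E e (x, y) + ThN W N e (x + 1, y) = ThN W N e (x, y) + Th W E e (x, y + 1) := by
  by_cases hc : BlkC W e (x, y)
  · have k1 : ∀ t, Blk (x, y) (x, t) → Th W E e (x, t) = 1 := by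
      intro t ht
      have ht' : Blk (x, y) (x + 1, t) := by simp only [Blk] at ht ⊢; omega
      unfold Th
      split_ifs with j1 j2
      · rfl
      · exact own _ hc _ _ ht ht' j2.1.1 j2.2.1
      · simp only [not_or, not_not] at j1
        exact absurd ⟨h.cell_of_blk he hc ht j1.1, h.cell_of_blk he hc ht' j1.2⟩ j2
    have k2 : ∀ t, Blk (x, y) (t, y) → ThN W N e (t, y) = 0 := by
      intro t ht
      unfold ThN
      split_ifs with j1
      · exact ver e he _ hc _ _ ht (by simp only [Blk] at ht ⊢; omega) (iff_of_true j1.1.1 j1.2.1)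
      · rfl
    rw [k1 y (by simp [Blk]), k1 (y + 1) (by simp [Blk]), k2 x (by simp [Blk]),
      k2 (x + 1) (by simp [Blk])]
    rfl
  have hs : ∀ u, Blk (x, y) u → (Ins W e (x, y) ↔ Ins W e u) := fun u hu =>
    blk_ins_iff (fun a b ha hb k => hc ⟨a, b, ha, hb, k⟩) (by simp [Blk]) hu
  have sb := hs (x + 1, y) (by simp [Blk])
  have sc := hs (x, y + 1) (by simp [Blk])
  have sd := hs (x + 1, y + 1) (by simp [Blk])
  by_cases hi : Ins W e (x, y)
  swap
  · have nb : ¬Cell W e (x + 1, y) := fun k => hi (sb.2 k.1)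
    have na : ¬Cell W e (x, y) := fun k => hi k.1
    simp [Th, ThN, hi, na, nb, ← sc]
  by_cases hw : ∃ a b, Blk (x, y) a ∧ Blk (x, y) b ∧ W a b
  · obtain ⟨a, b, ha, hb, hab⟩ := hw
    have hn : ¬Conn W e (a, b) := fun k => hc ⟨a, b, ha, hb, k⟩
    have hc' : BlkC W (a, b) (x, y) := ⟨a, b, ha, hb, Conn.rfl⟩
    have k1 : ∀ t, Blk (x, y) (x, t) → Th W E e (x, t) = 0 := by
      intro t ht
      have ht' : Blk (x, y) (x + 1, t) := by simp only [Blk] at ht ⊢; omega
      unfold Th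
      split_ifs with j1 j2
      · exact absurd j1 (by simp [← hs _ ht, ← hs _ ht', hi])
      · exact oth (a, b) hab hn _ hc' _ _ ht ht' j2.1 j2.2
      · rfl
    have k2 : ∀ t, Blk (x, y) (t, y) → ThN W N e (t, y) = 0 := by
      intro t ht
      unfold ThN
      split_ifs with j1
      · exact ver (a, b) hab _ hc' _ _ ht (by simp only [Blk] at ht ⊢; omega)
          ((j1.1.2 _ hab hn).trans (j1.2.2 _ hab hn).symm)
      · rfl
    rw [k1 y (by simp [Blk]), k1 (y + 1) (by simp [Blk]), k2 x (by simp [Blk]),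
      k2 (x + 1) (by simp [Blk])]
  · push Not at hw
    have nw : ∀ u v, Blk (x, y) u → Blk (x, y) v → Adj u v → (Cell W e u ↔ Cell W e v) :=
      fun u v hu hv ha => Same.cell he (ReflTransGen.single ⟨ha, hw _ _ hu hv, hw _ _ hv hu⟩)
    have cb := nw (x, y) (x + 1, y) (by simp [Blk]) (by simp [Blk]) (by simp [Adj])
    have cc := nw (x, y) (x, y + 1) (by simp [Blk]) (by simp [Blk]) (by simp [Adj])
    have cd := cb.trans (nw (x + 1, y) (x + 1, y + 1) (by simp [Blk]) (by simp [Blk])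
      (by simp [Adj]))
    by_cases ha : Cell W e (x, y)
    · simpa [Th, ThN, ← sb, ← sc, ← sd, ← cb, ← cc, ← cd, hi, ha] using flat x y hw
    · simp [Th, ThN, ← sb, ← sc, ← sd, ← cb, ← cc, ← cd, hi, ha]

lemma sum_potential {f : ℤ → ℤ} {Ψ : ℤ → ℤ} (h : ∀ x, f (x + 1) = f x + Ψ x) {a b : ℤ}
    (hab : a ≤ b) : ∑ x ∈ Finset.Ico a b, Ψ x = f b - f a := by
  induction b, hab using Int.leInduction with
  | base => simp
  | succ b hb ih =>
    rw [← Finset.insert_Ico_right_eq_Ico_add_one hb, Finset.sum_insert (by simp), ih, h]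
    ring

/-- a closed form equal to `dx` far west and to zero far east has a canonical column -/
theorem column {Ψ Φ : P → ℤ} (h : ∀ x y, Ψ (x, y) + Φ (x + 1, y) = Φ (x, y) + Ψ (x, y + 1))
    (hw : ∀ y, ∃ a, ∀ x ≤ a, Ψ (x, y) = 1 ∧ Φ (x, y) = 0)
    (he : ∀ y, ∃ b, ∀ x, b ≤ x → Ψ (x, y) = 0 ∧ Φ (x, y) = 0) :
    ∃ c, ∀ y, Lim (fun x => Ψ (x, y)) c := by
  obtain ⟨f, f1, f2⟩ := exists_potential Ψ Φ h
  choose A hA using hw
  choose B hB using he
  have k1 : ∀ y a, a ≤ A y → f (a, y) - a = f (A y, y) - A y := by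
    intro y a ha
    induction a, ha using Int.leInductionDown with
    | base => rfl
    | pred a ha ih =>
      have := f1 (a - 1) y
      rw [sub_add_cancel, (hA y (a - 1) (by omega)).1] at this
      omega
  have k2 : ∀ y b, B y ≤ b → f (b, y) = f (B y, y) := by
    intro y b hb
    induction b, hb using Int.leInduction with
    | base => rfl
    | succ b hb ih => rw [f1, (hB y b hb).1, ih, add_zero]
  have k3 : ∀ y, f (B y, y) - (f (A y, y) - A y) = f (B 0, 0) - (f (A 0, 0) - A 0) := by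
    intro y
    refine ((int_const (Q := fun y => f (B y, y) - (f (A y, y) - A y) =
      f (B 0, 0) - (f (A 0, 0) - A 0)) fun y => ?_) 0 y).1 rfl
    rw [← k1 y (min (A y) (A (y + 1))) (by omega), ← k1 (y + 1) (min (A y) (A (y + 1))) (by omega),
      ← k2 y (max (B y) (B (y + 1))) (by omega), ← k2 (y + 1) (max (B y) (B (y + 1))) (by omega),
      f2, f2, (hA y _ (min_le_left _ _)).2, (hB y _ (le_max_left _ _)).2, add_zero, add_zero]
  refine ⟨f (B 0, 0) - (f (A 0, 0) - A 0), fun y => ⟨min (A y) (B y), B y, fun a b ha hb => ?_⟩⟩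
  rw [sum_potential (f := fun x => f (x, y)) (fun x => f1 x y) (by omega), ← k3 y,
    ← k1 y a (by omega), ← k2 y b hb]
  ring

lemma SolV.rowL (h : SolV ω) (he : Wl ω e.1 e.2)
    (hL : ∀ y, ∃ x, Conn (Wl ω) e (we (x, y)) ∧ LW (Wl ω) (x, y)) :
    ∃ l : ℤ → ℤ, (∀ y, Conn (Wl ω) e (we (l y, y))) ∧ ∀ x y, Ins (Wl ω) e (x, y) ↔ l y ≤ x := by
  have hw := h.solG.wallSys
  choose l h1 h2 using hL
  refine ⟨l, h1, fun x y => ⟨fun k => ?_, fun k => (hw.ins_congr he (h1 y) _).2 ((h2 y).2 x k)⟩⟩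
  by_contra hn
  have k1 : Ins (Wl ω) e (l y, y) := hw.ins_of_conn he (h1 y)
  exact hw.not_ins_of_conn he (h1 y) (h.convex he k k1 (l y - 1) (by omega) (by omega))

lemma SolV.rowR (h : SolV ω) (he : Wl ω e.1 e.2)
    (hR : ∀ y, ∃ x, Conn (Wl ω) e (ee (x, y)) ∧ RW (Wl ω) (x, y)) :
    ∃ r : ℤ → ℤ, (∀ y, Conn (Wl ω) e (ee (r y, y))) ∧ ∀ x y, Ins (Wl ω) e (x, y) ↔ x ≤ r y := by
  have hw := h.solG.wallSys
  choose r h1 h2 using hR
  refine ⟨r, h1, fun x y => ⟨fun k => ?_, fun k => (hw.ins_congr he (h1 y) _).2 ((h2 y).2 x k)⟩⟩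
  by_contra hn
  have k1 : Ins (Wl ω) e (r y, y) := hw.ins_of_conn he (h1 y)
  exact hw.not_ins_of_conn he (h1 y) (h.convex he k k1 (r y + 1) (by omega) (by omega))

lemma SolV.sideL (h : SolV ω) (he : Wl ω e.1 e.2) {l : ℤ → ℤ}
    (hl : ∀ x y, Ins (Wl ω) e (x, y) ↔ l y ≤ x) {p : P} (hc : BlkC (Wl ω) e p) {x y : ℤ}
    (hu : Blk p (x, y)) (hu' : Blk p (x + 1, y)) (h1 : Ins (Wl ω) e (x, y)) :
    (ω (x + 1, y)).sA = true := by
  have hw := h.solG.wallSys
  obtain ⟨a, ⟨s, y'⟩, -, hb, hab⟩ := hc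
  have k := hw.not_ins_of_conn he hab
  simp only [hl, Blk] at k h1 hu hu' hb
  have hy : y' = y + 1 ∨ y = y' + 1 := by
    by_contra hn
    obtain rfl : y' = y := by omega
    omega
  have bc : ∀ t, x ≤ t → t < l y' → BlkC (Wl ω) e (t, min y y') := fun t t1 t2 =>
    hw.blkC_of he (a := (t, y)) (b := (t, y')) (by simp only [Blk]; omega)
      (by simp only [Blk]; omega) ((hl _ _).2 (by omega)) (by rw [hl]; omega)
  have e1 := h.west he (x := l y' - 1) (y := y') (by rw [hl]; omega) (by rw [hl]; omega)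
  rw [sub_add_cancel, ← h.vin' he (bc (l y' - 1) (by omega) (by omega)) hy
    (by simp only [Blk]; omega) (by simp only [Blk]; omega) ((hl _ _).2 (by omega))
    ((hl _ _).2 le_rfl)] at e1
  exact h.propagate he (m := min y y') (by omega) (by omega)
    (fun t t1 t2 => (hl _ _).2 (by omega)) (fun t t1 t2 => bc t (by omega) t2) e1

lemma SolV.sideR (h : SolV ω) (he : Wl ω e.1 e.2) {r : ℤ → ℤ}
    (hr : ∀ x y, Ins (Wl ω) e (x, y) ↔ x ≤ r y) {p : P} (hc : BlkC (Wl ω) e p) {x y : ℤ}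
    (hu : Blk p (x, y)) (hu' : Blk p (x + 1, y)) (h1 : Ins (Wl ω) e (x + 1, y)) :
    (ω (x + 1, y)).sA = false := by
  have hw := h.solG.wallSys
  obtain ⟨a, ⟨s, y'⟩, -, hb, hab⟩ := hc
  have k := hw.not_ins_of_conn he hab
  simp only [hr, Blk] at k h1 hu hu' hb
  have hy : y' = y + 1 ∨ y = y' + 1 := by
    by_contra hn
    obtain rfl : y' = y := by omega
    omega
  have bc : ∀ t, r y' ≤ t → t < x + 1 → BlkC (Wl ω) e (t, min y y') := fun t t1 t2 =>
    hw.blkC_of he (a := (t + 1, y)) (b := (t + 1, y')) (by simp only [Blk]; omega)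
      (by simp only [Blk]; omega) ((hr _ _).2 (by omega)) (by rw [hr]; omega)
  have e1 := h.east he (x := r y') (y := y') (by rw [hr]) (by rw [hr]; omega)
  rw [← h.vin' he (bc (r y') le_rfl (by omega)) hy
    (by simp only [Blk]; omega) (by simp only [Blk]; omega) ((hr _ _).2 (by omega))
    ((hr _ _).2 le_rfl)] at e1
  by_contra hn
  rw [h.propagate he (y := y) (m := min y y') (a := r y') (b := x + 1) (by omega) (by omega)
    (fun t t1 t2 => (hr _ _).2 (by omega)) bc (by simpa using hn)] at e1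
  exact absurd e1 (by simp)

lemma infinite_of_rows {S : Set P} (h : ∀ y, ∃ x, (x, y) ∈ S) : ¬S.Finite := fun k =>
  Set.infinite_univ (α := ℤ) ((k.image Prod.snd).subset fun y _ => (h y).elim fun _ hx =>
    ⟨_, hx, rfl⟩)

theorem SolV.canL (h : SolV ω) (hH : HGood (Wl ω)) (hF : FinExt (Wl ω))
    (hL : ∀ x y, ∃ t, x < t ∧ LW (Wl ω) (t, y)) {p : P} (hp : LW (Wl ω) p) :
    (∃ c, CanL ω p c) ∧ ∀ c, CanL ω p c → ∀ y, ∃ x, CanL ω (x, y) c := by
  have hw := h.solG.wallSys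
  have typ : ∀ q, LW (Wl ω) q → ∀ y, ∃ x, Conn (Wl ω) (we q) (we (x, y)) ∧ LW (Wl ω) (x, y) := by
    intro q hq
    rcases h.types hH hF (e := we q) hq.1 with k | k | k
    · exact absurd ((k.image Prod.fst).subset fun x hx => ⟨_, hq.2 x hx, rfl⟩)
        (Set.Ici_infinite q.1)
    · exact k
    · obtain ⟨r, -, hr⟩ := h.rowR (e := we q) hq.1 k
      have := (hr _ _).1 (hq.2 (max q.1 (r q.2 + 1)) (by omega))
      omega
  have he : Wl ω (we p).1 (we p).2 := hp.1
  have hT := typ p hp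
  generalize hpe : we p = e at he hT
  obtain ⟨l, l1, l2⟩ := h.rowL he hT
  have cl := hw.glue he (E := E1 ω) (N := N1 ω) (fun x y k => (h.flat k).1)
    (fun e' he' p hc x y k1 k2 k3 => (h.ver he' hc k1 k2 k3).1)
    (fun p hc x y k1 k2 k3 k4 => ((h.hin he hc k1 k2 k3 k4).1 (h.sideL he l2 hc k1 k2 k3)).2.1)
    (fun e' he' hn p hc x y k1 k2 k3 k4 => by
      have s := (k3.2 _ he' hn).trans (k4.2 _ he' hn).symm
      by_cases k5 : Ins (Wl ω) e' (x, y)
      swap
      · exact (h.hout he' hc k1 k2 k5 fun k => k5 (s.2 k)).1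
      obtain ⟨m1, m2⟩ := hw.mutual he he' hn hc k1 k3 k5
      have rg := fun y => hw.ring he' he (fun k => hn k.symm) (l1 y)
      rcases h.types hH hF he' with k | k | k
      · exact absurd k (infinite_of_rows fun y => ⟨_, (rg y).1.1 m1⟩)
      · obtain ⟨l', l1', l2'⟩ := h.rowL he' k
        have a1 := (l2' _ _).1 ((rg 0).2.1 m1)
        have a2 := (l2 _ _).1 ((hw.ring he he' hn (l1' 0)).2.1 m2)
        simp only at a1 a2
        omega
      · obtain ⟨r, -, r2⟩ := h.rowR he' k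
        exact ((h.hin he' hc k1 k2 k5 (s.1 k5)).2 (h.sideR he' r2 hc k1 k2 (s.1 k5))).1)
  obtain ⟨c, hc⟩ := column cl
    (fun y => ⟨l y - 1, fun x hx => by
      have k : ¬Ins (Wl ω) e (x, y) := by rw [l2]; omega
      have k' : ¬Cell (Wl ω) e (x, y) := fun j => k j.1
      simp [Th, ThN, k, k']⟩)
    (fun y => by
      obtain ⟨t, t1, t2⟩ := hL (l y) y
      have hn : ¬Conn (Wl ω) e (we (t, y)) := fun k =>
        hw.not_ins_of_conn he k ((l2 _ _).2 (by simp only; omega))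
      obtain ⟨l', l1', l2'⟩ := h.rowL (e := we (t, y)) t2.1 (typ _ t2)
      have k0 : ¬Ins (Wl ω) (we (t, y)) e.1 := fun k => by
        have a1 := (hw.ring (e := we (t, y)) t2.1 he (fun k => hn k.symm) (l1 y)).1.1 k
        exact hw.not_ins_out (e := we (t, y)) t2.1
          ((l2' _ _).2 (((l2' _ _).1 a1).trans (by simp only; omega)))
      refine ⟨t, fun x hx => ?_⟩
      have k' : ¬Cell (Wl ω) e (x, y) := fun j => k0 ((j.2 _ t2.1 hn).1 (t2.2 x hx))
      have k1 : Ins (Wl ω) e (x, y) := (l2 _ _).2 (by omega)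
      have k2 : Ins (Wl ω) e (x + 1, y) := (l2 _ _).2 (by omega)
      simp [Th, ThN, k1, k2, k'])
  have hc0 : CanL ω p c := ⟨hp, hpe ▸ hc p.2⟩
  refine ⟨⟨c, hc0⟩, fun c' hc' y => ?_⟩
  obtain rfl := hc0.2.unique hc'.2
  obtain ⟨x, x1, x2⟩ := hT y
  exact ⟨x, x2, hw.th_congr he x1 _ ▸ hc y⟩

theorem SolV.canR (h : SolV ω) (hH : HGood (Wl ω)) (hF : FinExt (Wl ω))
    (hR : ∀ x y, ∃ t, t < x ∧ RW (Wl ω) (t, y)) {p : P} (hp : RW (Wl ω) p) :
    (∃ c, CanR ω p c) ∧ ∀ c, CanR ω p c → ∀ y, ∃ x, CanR ω (x, y) c := by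
  have hw := h.solG.wallSys
  have typ : ∀ q, RW (Wl ω) q → ∀ y, ∃ x, Conn (Wl ω) (ee q) (ee (x, y)) ∧ RW (Wl ω) (x, y) := by
    intro q hq
    rcases h.types hH hF (e := ee q) hq.1 with k | k | k
    · exact absurd ((k.image Prod.fst).subset fun x hx => ⟨_, hq.2 x hx, rfl⟩)
        (Set.Iic_infinite q.1)
    · obtain ⟨l, -, hl⟩ := h.rowL (e := ee q) hq.1 k
      have := (hl _ _).1 (hq.2 (min q.1 (l q.2 - 1)) (by omega))
      omega
    · exact k
  have he : Wl ω (ee p).1 (ee p).2 := hp.1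
  have hT := typ p hp
  generalize hpe : ee p = e at he hT
  obtain ⟨r, r1, r2⟩ := h.rowR he hT
  have cl := hw.glue he (E := E2 ω) (N := N2 ω) (fun x y k => (h.flat k).2)
    (fun e' he' p hc x y k1 k2 k3 => (h.ver he' hc k1 k2 k3).2)
    (fun p hc x y k1 k2 k3 k4 => ((h.hin he hc k1 k2 k3 k4).2 (h.sideR he r2 hc k1 k2 k4)).2)
    (fun e' he' hn p hc x y k1 k2 k3 k4 => by
      have s := (k3.2 _ he' hn).trans (k4.2 _ he' hn).symm
      by_cases k5 : Ins (Wl ω) e' (x, y)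
      swap
      · exact (h.hout he' hc k1 k2 k5 fun k => k5 (s.2 k)).2
      obtain ⟨m1, m2⟩ := hw.mutual he he' hn hc k1 k3 k5
      have rg := fun y => hw.ring he' he (fun k => hn k.symm) (r1 y)
      rcases h.types hH hF he' with k | k | k
      · exact absurd k (infinite_of_rows fun y => ⟨_, (rg y).1.1 m1⟩)
      · obtain ⟨l, -, l2⟩ := h.rowL he' k
        exact ((h.hin he' hc k1 k2 k5 (s.1 k5)).1 (h.sideL he' l2 hc k1 k2 k5)).2.2
      · obtain ⟨r', r1', r2'⟩ := h.rowR he' k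
        have a1 := (r2' _ _).1 ((rg 0).2.1 m1)
        have a2 := (r2 _ _).1 ((hw.ring he he' hn (r1' 0)).2.1 m2)
        simp only at a1 a2
        omega)
  obtain ⟨c, hc⟩ := column (Ψ := fun u => 1 - Th (Wl ω) (E2 ω) e u)
    (Φ := fun u => -ThN (Wl ω) (N2 ω) e u) (fun x y => by have := cl x y; omega)
    (fun y => by
      obtain ⟨t, t1, t2⟩ := hR (r y) y
      have hn : ¬Conn (Wl ω) e (ee (t, y)) := fun k =>
        hw.not_ins_of_conn he k ((r2 _ _).2 (by simp only; omega))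
      obtain ⟨r', r1', r2'⟩ := h.rowR (e := ee (t, y)) t2.1 (typ _ t2)
      have k0 : ¬Ins (Wl ω) (ee (t, y)) e.1 := fun k => by
        have a1 := (hw.ring (e := ee (t, y)) t2.1 he (fun k => hn k.symm) (r1 y)).1.1 k
        exact hw.not_ins_out (e := ee (t, y)) t2.1
          ((r2' _ _).2 (le_trans (by simp only; omega) ((r2' _ _).1 a1)))
      refine ⟨t, fun x hx => ?_⟩
      have k' : ¬Cell (Wl ω) e (x, y) := fun j => k0 ((j.2 _ t2.1 hn).1 (t2.2 x hx))
      have k1 : Ins (Wl ω) e (x, y) := (r2 _ _).2 (by omega)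
      have k2 : Ins (Wl ω) e (x + 1, y) := (r2 _ _).2 (by omega)
      simp [Th, ThN, k1, k2, k'])
    (fun y => ⟨r y + 1, fun x hx => by
      have k : ¬Ins (Wl ω) e (x, y) := by rw [r2]; omega
      have k' : ¬Cell (Wl ω) e (x, y) := fun j => k j.1
      simp [Th, ThN, k, k']⟩)
  have hc0 : CanR ω p c := ⟨hp, hpe ▸ hc p.2⟩
  refine ⟨⟨c, hc0⟩, fun c' hc' y => ?_⟩
  obtain rfl := hc0.2.unique hc'.2
  obtain ⟨x, x1, x2⟩ := hT y
  exact ⟨x, x2, hw.th_congr he x1 _ ▸ hc y⟩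

theorem SolV.card_le (h : SolV ω) (hfin : ∀ e : P × P, Wl ω e.1 e.2 → {z | Ins (Wl ω) e z}.Finite)
    {e : P × P} (he : Wl ω e.1 e.2) :
    {z | Ins (Wl ω) e z}.encard ≤ 4 * {z | Cell (Wl ω) e z}.encard := by
  classical
  have hw := h.solG.wallSys
  have cl := hw.glue he (E := fun u => E1 ω u + E2 ω u) (N := fun u => N1 ω u + N2 ω u)
    (fun x y k => by have := h.flat k; omega)
    (fun e' he' p hc x y k1 k2 k3 => by have := h.ver he' hc k1 k2 k3; omega)
    (fun p hc x y k1 k2 k3 k4 => by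
      have := h.hin he hc k1 k2 k3 k4
      cases hs : (ω (x + 1, y)).sA
      · have := this.2 hs; omega
      · have := this.1 hs; omega)
    (fun e' he' hn p hc x y k1 k2 k3 k4 => by
      have s := (k3.2 _ he' hn).trans (k4.2 _ he' hn).symm
      by_cases k5 : Ins (Wl ω) e' (x, y)
      · obtain ⟨m1, m2⟩ := hw.mutual he he' hn hc k1 k3 k5
        exact (hw.not_both he he' hn (hfin _ he) (hfin _ he') m2 m1).elim
      · have := h.hout he' hc k1 k2 k5 fun k => k5 (s.2 k)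
        omega)
  set T := Th (Wl ω) (fun u => E1 ω u + E2 ω u) e with hT
  obtain ⟨f, f1, f2⟩ := exists_potential _ _ cl
  obtain ⟨M, hM⟩ := ((hfin e he).image fun z : P => max |z.1| |z.2|).bddAbove
  have hb : ∀ z, Ins (Wl ω) e z → -M ≤ z.1 ∧ z.1 ≤ M ∧ -M ≤ z.2 ∧ z.2 ≤ M := fun z hz => by
    have := hM ⟨z, hz, rfl⟩
    simp only [max_le_iff, abs_le] at this
    omega
  have hM0 : 0 ≤ M := by have := hb _ (ins_self e); omega
  have row : ∀ y, ∑ x ∈ Finset.Ico (-M - 1) (M + 1), (1 - T (x, y)) = 0 := by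
    intro y
    refine ((int_const (Q := fun y => ∑ x ∈ Finset.Ico (-M - 1) (M + 1), (1 - T (x, y)) = 0)
      fun y => ?_) (M + 1) y).1 (Finset.sum_eq_zero fun x _ => ?_)
    · have k1 : ¬Cell (Wl ω) e (M + 1, y) := fun k => by have := hb _ k.1; simp only at this; omega
      have k2 : ¬Cell (Wl ω) e (-M - 1, y) := fun k => by have := hb _ k.1; simp only at this; omega
      rw [Finset.sum_sub_distrib, Finset.sum_sub_distrib,
        sum_potential (f := fun x => f (x, y)) (fun x => f1 x y) (by omega),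
        sum_potential (f := fun x => f (x, y + 1)) (fun x => f1 x (y + 1)) (by omega), f2, f2]
      simp [ThN, k1, k2]
    · have k : ¬Ins (Wl ω) e (x, M + 1) := fun k => by have := hb _ k; simp only at this; omega
      simp [hT, Th, k]
  have pt : ∀ u : P, (if Ins (Wl ω) e u then 1 else 0 : ℤ) ≤
      4 * (if Cell (Wl ω) e u then 1 else 0) + (1 - T u) := by
    intro u
    by_cases k1 : Cell (Wl ω) e u
    · have a1 := abs_le.1 (abs_th_le (ω u).n1 (ω (u.1 + 1, u.2)).n1)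
      have a2 := abs_le.1 (abs_th_le (ω u).n2 (ω (u.1 + 1, u.2)).n2)
      simp only [k1, k1.1, if_true, hT, Th, E1, E2]
      split_ifs <;> omega
    by_cases k2 : Ins (Wl ω) e u
    · have k3 : Ins (Wl ω) e (u.1 + 1, u.2) := by
        by_contra k
        exact k1 (hw.cell_of_blk he (p := u)
          (hw.blkC_of he (by simp [Blk]) (by simp [Blk]) k2 k) (by simp [Blk]) k2)
      simp [hT, Th, k1, k2, k3]
    · simp [hT, Th, k1, k2]
  let B : Finset P := Finset.Ico (-M - 1) (M + 1) ×ˢ Finset.Ico (-M - 1) (M + 1)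
  have s1 := Finset.sum_le_sum (s := B) fun u _ => pt u
  rw [Finset.sum_add_distrib, ← Finset.mul_sum, Finset.sum_boole, Finset.sum_boole,
    Finset.sum_product_right, Finset.sum_eq_zero fun y _ => row y, add_zero] at s1
  have e1 : {z | Ins (Wl ω) e z} = ↑(B.filter fun u => Ins (Wl ω) e u) := by
    ext z
    simp only [B, Set.mem_ofPred_eq, Finset.coe_filter, Finset.mem_product, Finset.mem_Ico]
    exact ⟨fun k => ⟨by have := hb _ k; omega, k⟩, fun k => k.2⟩
  have e2 : {z | Cell (Wl ω) e z} = ↑(B.filter fun u => Cell (Wl ω) e u) := by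
    ext z
    simp only [B, Set.mem_ofPred_eq, Finset.coe_filter, Finset.mem_product, Finset.mem_Ico]
    exact ⟨fun k => ⟨by have := hb _ k.1; omega, k⟩, fun k => k.2⟩
  rw [e1, e2, Set.encard_coe_eq_coe_finsetCard, Set.encard_coe_eq_coe_finsetCard]
  exact_mod_cast s1

end Pool.Agent.Lib.MP_946880_lc.H69
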