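import Pool.Agent.Lib.MP_946880_lc.H69Cell

/- Translation equivariance and measurability of all the notions. -/

namespace Pool.Agent.Lib.MP_946880_lc.H69

open Relation

/-- translated wall system -/
def shW (γ : P) (W : P → P → Prop) : P → P → Prop := fun a b => W (a + γ) (b + γ)

/-- translated labelling -/
def sh (γ : P) (ω : P → Lab) : P → Lab := fun p => ω (p + γ)

section Eqv

variable {W : P → P → Prop} {ω : P → Lab} {γ : P}

lemma wl_sh : Wl (sh γ ω) = shW γ (Wl ω) := by
  funext a b
  simp only [Wl, sh, shW, Prod.ext_iff, Prod.fst_add, Prod.snd_add, add_left_inj, eq_iff_iff]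
  refine or_congr (and_congr_left' ?_) (or_congr (and_congr_left' ?_)
    (or_congr (and_congr_left' ?_) (and_congr_left' ?_))) <;> omega

lemma adj_sh {a b : P} : Adj (a + γ) (b + γ) ↔ Adj a b := by
  simp only [Adj, Prod.fst_add, Prod.snd_add]
  omega

lemma blk_sh {p a : P} : Blk (p + γ) (a + γ) ↔ Blk p a := by
  simp only [Blk, Prod.fst_add, Prod.snd_add]
  omega

lemma ex_sh {α : Type} [AddCommGroup α] (d : α) {Q : α → Prop} : (∃ a, Q a) ↔ ∃ a, Q (a + d) :=
  (add_right_surjective d).exists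

lemma all_sh {α : Type} [AddCommGroup α] (d : α) {Q : α → Prop} : (∀ a, Q a) ↔ ∀ a, Q (a + d) :=
  (add_right_surjective d).forall

lemma rtg_sh {α : Type} [AddCommGroup α] {r r' : α → α → Prop} {d : α}
    (h : ∀ a b, r a b ↔ r' (a + d) (b + d)) {a b : α} :
    ReflTransGen r a b ↔ ReflTransGen r' (a + d) (b + d) := by
  refine ⟨fun k => k.lift (· + d) fun a b k => (h a b).1 k, fun k => ?_⟩
  have : ReflTransGen r (a + d - d) (b + d - d) :=
    k.lift (· - d) fun a b k => (h _ _).2 (by simpa using k)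
  simpa using this

lemma nw_sh {u v : P} : NW (shW γ W) u v ↔ NW W (u + γ) (v + γ) := by
  simp only [NW, shW, adj_sh]

lemma step_sh {e e' : P × P} : Step (shW γ W) e e' ↔ Step W (e + (γ, γ)) (e' + (γ, γ)) := by
  simp only [Step, shW, Prod.fst_add, Prod.snd_add]
  rw [ex_sh γ (Q := fun p => Blk p (e.1 + γ) ∧ _)]
  simp only [blk_sh]

lemma conn_sh {e e' : P × P} : Conn (shW γ W) e e' ↔ Conn W (e + (γ, γ)) (e' + (γ, γ)) :=
  rtg_sh fun _ _ => step_sh

lemma ins_sh {e : P × P} {z : P} : Ins (shW γ W) e z ↔ Ins W (e + (γ, γ)) (z + γ) :=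
  rtg_sh fun a b => by simp only [Free, conn_sh, adj_sh, Prod.mk_add_mk]

lemma we_sh {p : P} : we p + (γ, γ) = we (p + γ) := by
  simp only [we, Prod.ext_iff, Prod.fst_add, Prod.snd_add, true_and, and_true]
  omega

lemma ee_sh {p : P} : ee p + (γ, γ) = ee (p + γ) := by
  simp only [ee, Prod.ext_iff, Prod.fst_add, Prod.snd_add, true_and, and_true]
  omega

lemma west_sh {p : P} : (p.1 - 1, p.2) + γ = ((p + γ).1 - 1, (p + γ).2) := by
  simp only [Prod.ext_iff, Prod.fst_add, Prod.snd_add, and_true]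
  omega

lemma east_sh {p : P} : (p.1 + 1, p.2) + γ = ((p + γ).1 + 1, (p + γ).2) := by
  simp only [Prod.ext_iff, Prod.fst_add, Prod.snd_add, and_true]
  omega

lemma cell_sh {e : P × P} {z : P} : Cell (shW γ W) e z ↔ Cell W (e + (γ, γ)) (z + γ) := by
  unfold Cell
  rw [all_sh (γ, γ) (Q := fun e' => W e'.1 e'.2 → _)]
  simp only [ins_sh, conn_sh, shW, Prod.fst_add, Prod.snd_add]

lemma th_sh {E : P → ℤ} {e : P × P} {u : P} :
    Th (shW γ W) (fun p => E (p + γ)) e u = Th W E (e + (γ, γ)) (u + γ) := by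
  classical
  unfold Th
  rw [← east_sh]
  exact if_congr (by simp only [ins_sh]) rfl (if_congr (by simp only [cell_sh]) rfl rfl)

lemma e1_sh : E1 (sh γ ω) = fun p => E1 ω (p + γ) := by
  funext p
  simp only [E1, sh, east_sh]

lemma e2_sh : E2 (sh γ ω) = fun p => E2 ω (p + γ) := by
  funext p
  simp only [E2, sh, east_sh]

lemma lw_sh {p : P} : LW (shW γ W) p ↔ LW W (p + γ) := by
  unfold LW
  rw [all_sh γ.1 (Q := fun x => (p + γ).1 ≤ x → _)]
  simp only [shW, west_sh, ins_sh, we_sh, Prod.fst_add, add_le_add_iff_right]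
  rfl

lemma rw_sh {p : P} : RW (shW γ W) p ↔ RW W (p + γ) := by
  unfold RW
  rw [all_sh γ.1 (Q := fun x => x ≤ (p + γ).1 → _)]
  simp only [shW, east_sh, ins_sh, ee_sh, Prod.fst_add, add_le_add_iff_right]
  rfl

lemma lim_sh {Ψ : ℤ → ℤ} {c d : ℤ} : Lim (fun x => Ψ (x + d)) c ↔ Lim Ψ (c + d) := by
  have key : ∀ (Ψ : ℤ → ℤ) c d, Lim Ψ (c + d) → Lim (fun x => Ψ (x + d)) c := by
    rintro Ψ c d ⟨a0, b0, h⟩
    refine ⟨a0 - d, b0 - d, fun a b ha hb => ?_⟩
    have := h (a + d) (b + d) (by omega) (by omega)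
    rw [← Finset.map_add_right_Ico, Finset.sum_map] at this
    simpa using this
  refine ⟨fun h => ?_, key _ _ _⟩
  simpa using key (fun x => Ψ (x + d)) (c + d) (-d) (by simpa using h)

lemma canL_sh {p : P} {c : ℤ} : CanL (sh γ ω) p c ↔ CanL ω (p + γ) (c + γ.1) := by
  unfold CanL
  rw [← lim_sh, wl_sh, lw_sh, e1_sh]
  simp only [th_sh, we_sh]
  rfl

lemma canR_sh {p : P} {c : ℤ} : CanR (sh γ ω) p c ↔ CanR ω (p + γ) (c + γ.1) := by
  unfold CanR
  rw [← lim_sh, wl_sh, rw_sh, e2_sh]
  simp only [th_sh, ee_sh]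
  rfl

lemma ext_sh {σ : ℤ} {p q : P} : Ext σ (shW γ W) p q ↔ Ext σ W (p + γ) (q + γ) := by
  unfold Ext
  rw [all_sh γ (Q := fun z => Ins W (we (p + γ)) z → _)]
  simp only [shW, west_sh, ins_sh, we_sh, Prod.fst_add, Prod.snd_add, add_le_add_iff_right,
    mul_add, add_lt_add_iff_right, add_left_inj]

lemma out_sh {p : P} : Out (shW γ W) p ↔ Out W (p + γ) := by
  unfold Out
  rw [all_sh (γ, γ) (Q := fun e => W e.1 e.2 → _)]
  simp only [ins_sh, shW, Prod.fst_add, Prod.snd_add]

lemma eps_sh {p : P} : Eps (fun u => (sh γ ω u).col) p ↔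
    (Eps (fun u => (ω u).col) (p + γ) ↔ Even (γ.1 + γ.2)) := by
  simp only [Eps, sh, Prod.fst_add, Prod.snd_add]
  rw [add_add_add_comm, Int.even_add (m := p.1 + p.2)]
  tauto

end Eqv

section Meas

variable {X : Type} [MeasurableSpace X]

lemma meas_rtg {α : Type} [Countable α] {r : X → α → α → Prop}
    (h : ∀ a b, Measurable fun t => r t a b) (a b : α) :
    Measurable fun t => ReflTransGen (r t) a b := by
  let R : ℕ → X → α → Prop := fun n =>
    Nat.rec (fun _ b => a = b) (fun _ S t b => ∃ c, S t c ∧ r t c b) n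
  have h1 : ∀ n b, Measurable fun t => R n t b := by
    intro n
    induction n with
    | zero => exact fun b => measurable_const
    | succ n ih => exact fun b => Measurable.exists fun c => (ih c).and (h c b)
  have h2 : ∀ t n b, R n t b → ReflTransGen (r t) a b := by
    intro t n
    induction n with
    | zero => rintro b rfl; exact ReflTransGen.refl
    | succ n ih => rintro b ⟨c, h1, h2⟩; exact (ih c h1).tail h2
  have h3 : ∀ t b, ReflTransGen (r t) a b → ∃ n, R n t b := by
    intro t b k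
    induction k with
    | refl => exact ⟨0, rfl⟩
    | tail _ k ih => obtain ⟨n, hn⟩ := ih; exact ⟨n + 1, _, hn, k⟩
  have : (fun t => ReflTransGen (r t) a b) = fun t => ∃ n, R n t b :=
    funext fun t => propext ⟨h3 t b, fun ⟨n, hn⟩ => h2 t n b hn⟩
  rw [this]
  exact Measurable.exists fun n => h1 n b

section

variable {W : X → P → P → Prop} (hW : ∀ a b, Measurable fun t => W t a b)
include hW

lemma meas_nw (u v : P) : Measurable fun t => NW (W t) u v :=
  measurable_const.and ((hW _ _).not.and (hW _ _).not)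

lemma meas_conn (e e' : P × P) : Measurable fun t => Conn (W t) e e' :=
  meas_rtg (r := fun t => Step (W t)) (fun _ _ => (hW _ _).and ((hW _ _).and measurable_const)) _ _

lemma meas_ins (e : P × P) (z : P) : Measurable fun t => Ins (W t) e z :=
  meas_rtg (r := fun t => Free (W t) e)
    (fun _ _ => measurable_const.and ((meas_conn hW _ _).not.and (meas_conn hW _ _).not)) _ _

lemma meas_cell (e : P × P) (z : P) : Measurable fun t => Cell (W t) e z :=
  (meas_ins hW _ _).and (Measurable.forall fun _ => (hW _ _).imp ((meas_conn hW _ _).not.imp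
    ((meas_ins hW _ _).iff (meas_ins hW _ _))))

lemma meas_th {E : X → P → ℤ} (hE : ∀ u, Measurable fun t => E t u) (e : P × P) (u : P) :
    Measurable fun t => Th (W t) (E t) e u :=
  Measurable.ite (((meas_ins hW _ _).not.or (meas_ins hW _ _).not).setOf) measurable_const
    (Measurable.ite (((meas_cell hW _ _).and (meas_cell hW _ _)).setOf) (hE u) measurable_const)

lemma meas_lw (p : P) : Measurable fun t => LW (W t) p :=
  (hW _ _).and (Measurable.forall fun _ => measurable_const.imp (meas_ins hW _ _))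

lemma meas_rw (p : P) : Measurable fun t => RW (W t) p :=
  (hW _ _).and (Measurable.forall fun _ => measurable_const.imp (meas_ins hW _ _))

lemma meas_ext (σ : ℤ) (p q : P) : Measurable fun t => Ext σ (W t) p q :=
  (hW _ _).and ((meas_ins hW _ _).and
    (Measurable.forall fun _ => (meas_ins hW _ _).imp measurable_const))

lemma meas_out (p : P) : Measurable fun t => Out (W t) p :=
  Measurable.forall fun _ => (hW _ _).imp (meas_ins hW _ _).not

end

lemma meas_lim {Ψ : X → ℤ → ℤ} (h : ∀ x, Measurable fun t => Ψ t x) (c : ℤ) :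
    Measurable fun t => Lim (Ψ t) c :=
  Measurable.exists fun _ => Measurable.exists fun _ => Measurable.forall fun _ =>
    Measurable.forall fun _ => measurable_const.imp (measurable_const.imp
      ((Finset.measurable_sum _ fun x _ => h x).eq_const _))

variable {ω : X → P → Lab} (hω : ∀ p l, MeasurableSet {t | ω t p = l})
include hω

lemma meas_lab {Y : Type} [MeasurableSpace Y] (F : Lab → Lab → Y) (p q : P) :
    Measurable fun t => F (ω t p) (ω t q) := by
  let _ : MeasurableSpace Lab := ⊤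
  have h : ∀ p, Measurable fun t => ω t p := fun p => measurable_to_countable' (hω p)
  exact (measurable_of_countable (Function.uncurry F)).comp ((h p).prodMk (h q))

lemma meas_wl (a b : P) : Measurable fun t => Wl (ω t) a b :=
  meas_lab hω (fun l _ => (b = (a.1 + 1, a.2) ∧ l.wE = true) ∨ (b = (a.1 - 1, a.2) ∧ l.wW = true) ∨
    (b = (a.1, a.2 + 1) ∧ l.wN = true) ∨ (b = (a.1, a.2 - 1) ∧ l.wS = true)) a a

lemma meas_canL (p : P) (c : ℤ) : Measurable fun t => CanL (ω t) p c :=
  (meas_lw (meas_wl hω) _).and (meas_lim (fun _ => meas_th (meas_wl hω)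
    (fun _ => meas_lab hω (fun l l' => th l.n1 l'.n1) _ _) _ _) _)

lemma meas_canR (p : P) (c : ℤ) : Measurable fun t => CanR (ω t) p c :=
  (meas_rw (meas_wl hω) _).and (meas_lim (fun _ => (meas_th (meas_wl hω)
    (fun _ => meas_lab hω (fun l l' => th l.n2 l'.n2) _ _) _ _).const_sub 1) _)

lemma meas_eps (p : P) : Measurable fun t => Eps (fun u => (ω t u).col) p :=
  meas_lab hω (fun l _ => l.col = true ↔ Even (p.1 + p.2)) p p

end Meas

end Pool.Agent.Lib.MP_946880_lc.H69
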