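import Mathlib
import Pool.Agent.Lib.MP_946880_lc.BorMeas
import Pool.Agent.Lib.MP_946880_lc.BorFinal
import Pool.Agent.Lib.MP_946880_lc.H69Det
import Pool.Agent.Lib.MP_946880_lc.H69Eqv

/-!
The needle rule has no measurable solution on an ergodic system, and the rectangle rule has no
measurable solution with bounded walls.
-/

namespace Pool.Agent.Lib.MP_946880_lc.Bor

open H69 MeasureTheory Set Filter ENNReal

section

variable {X : Type} [MeasurableSpace X] {μ : Measure X} [IsProbabilityMeasure μ]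
  {a : ℤ × ℤ → X → X} (h : Pmp μ a) {ω : X → P → Lab}
  (hω : ∀ p l, MeasurableSet {t | ω t p = l}) (hs : ∀ g x, ω (a g x) = sh g (ω x))
include h hω hs

theorem no_phase (he : Ergodic (a ((1, 0) + (1, 0))) μ)
    (hp : ∀ᵐ x ∂μ, (∃ v, Out (Wl (ω x)) v) ∧ ∀ v v', Out (Wl (ω x)) v → Out (Wl (ω x)) v' →
      (Eps (fun u => (ω x u).col) v ↔ Eps (fun u => (ω x u).col) v')) : False := by
  refine h.two_col he (A := fun x => ∃ v, Out (Wl (ω x)) v ∧ Eps (fun u => (ω x u).col) v)
    (Measurable.exists fun v => (meas_out (meas_wl hω) v).and (meas_eps hω v)) ?_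
  filter_upwards [hp] with x ⟨⟨v, hv⟩, hx⟩
  have h1 : ¬ Even (1 + 0 : ℤ) := by decide
  simp only [hs, wl_sh, out_sh, eps_sh, h1, iff_false]
  constructor
  · rintro ⟨u, h2, h3⟩ ⟨u', h4, h5⟩
    exact h3 ((hx _ _ h2 h4).mpr h5)
  · intro h2
    refine ⟨v - (1, 0), ?_⟩
    rw [sub_add_cancel]
    exact ⟨hv, fun h3 => h2 ⟨v, hv, h3⟩⟩

theorem no_col (hG : ∀ x, SolG (ω x)) {g : ℤ × ℤ} (he : Ergodic (a (g + g)) μ) :
    ¬ ∀ᵐ x ∂μ, NW (Wl (ω x)) 0 g := fun hn => by
  refine h.two_col he (A := fun x => (ω x 0).col = true)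
    (meas_lab hω (fun l _ => l.col = true) 0 0) ?_
  filter_upwards [hn] with x hx
  have := (hG x).col _ _ hx
  simp only [hs, sh, zero_add]
  revert this
  cases (ω x 0).col <;> cases (ω x g).col <;> simp

theorem noV_abs (hV : ∀ x, SolV (ω x)) (e1 : Ergodic (a (1, 0)) μ) (e1' : Ergodic (a (-1, 0)) μ)
    (e2 : Ergodic (a (0, 1)) μ) (d1 : Ergodic (a ((1, 0) + (1, 0))) μ)
    (d2 : Ergodic (a ((0, 1) + (0, 1))) μ) : False := by
  have hG := fun x => (hV x).solG
  have hW := meas_wl hω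
  have two : ∀ Q : X → P → Prop, (∀ g x, Q (a g x) 0 ↔ Q x g) → Measurable (fun x => Q x 0) →
      (¬ ∀ᵐ x ∂μ, ¬ Q x 0) →
      ∀ᵐ x ∂μ, ∀ u v, (∃ t, u < t ∧ Q x (t, v)) ∧ ∃ t, t < u ∧ Q x (t, v) := fun Q hQ hm hn => by
    filter_upwards [h.recur e1 hm hn, h.recur e1' hm hn] with x h1 h2 u v
    obtain ⟨n, hn⟩ := h1 (u + 1, v)
    obtain ⟨m, hm⟩ := h2 (u - 1, v)
    rw [hQ] at hn hm
    exact ⟨⟨u + 1 + n, by omega, by simpa using hn⟩,
      ⟨u - 1 - m, by omega, by simpa [sub_eq_add_neg] using hm⟩⟩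
  have hH : ∀ᵐ x ∂μ, HGood (Wl (ω x)) := by
    filter_upwards [two (fun x p => NW (Wl (ω x)) p ((0, 1) + p))
      (fun g x => by simp only [hs, wl_sh, nw_sh, zero_add, add_zero]) (meas_nw hW _ _)
      fun hn => no_col h hω hs hG d1 (by
        filter_upwards [hn, h.ae_all hn] with x h1 h2
        have h3 := h2 (1, 0)
        simp only [hs, wl_sh, nw_sh, zero_add, add_zero] at h1 h3
        exact (hG x).wallSys.nw_of_walls_v (x := 0) (y := 0) h1 h3)] with x hx u v
    obtain ⟨⟨t, h1, h2⟩, t', h3, h4⟩ := hx u v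
    exact ⟨⟨t, h1.le, by simpa [add_comm] using h2⟩, t', h3.le, by simpa [add_comm] using h4⟩
  have rE : ∀ σ, Rel a fun x p q => Ext σ (Wl (ω x)) p q := fun σ =>
    ⟨meas_ext hW σ, fun g x p q => by rw [hs, wl_sh, ext_sh]⟩
  have fE := fun σ => h.finite (rE σ) (ne_top_of_le_ne_top one_ne_top
    (lint_le_one (Eventually.of_forall fun x q hq q' hq' => Ext.unique hq hq')))
  have hF : ∀ᵐ x ∂μ, FinExt (Wl (ω x)) := by
    filter_upwards [fE 1, fE (-1)] with x h1 h2 q using ⟨h1 q, h2 q⟩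
  have nw : ¬ ∀ᵐ x ∂μ, ∀ g, ¬ NW (Wl (ω x)) g ((1, 0) + g) := fun hn =>
    no_col h hω hs hG d2 (by
      filter_upwards [hn] with x hx
      exact (hG x).wallSys.nw_of_walls_h (x := 0) (y := 0) (hx 0) (hx (0, 1)))
  have hL : ∀ᵐ x ∂μ, ¬ LW (Wl (ω x)) 0 := by
    by_contra hn
    have h1 := two (fun x p => LW (Wl (ω x)) p)
      (fun g x => by simp only [hs, wl_sh, lw_sh, zero_add]) (meas_lw hW _) hn
    rcases h.canon (R := fun x p q => CanL (ω x) p q.1 ∧ q.2 = p.2)
      ⟨fun p q => (meas_canL hω p _).and measurable_const,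
        fun g x p q => by
          simp only [hs, canL_sh, Prod.fst_add, Prod.snd_add, _root_.add_left_inj]⟩
      (fun x q q' h h' => Prod.ext (h.1.2.unique h'.1.2) (h.2.trans h'.2.symm)) e2 (by
        filter_upwards [hH, hF, h1] with x h2 h3 h4 ⟨p, h5, _⟩
        obtain ⟨u, h6⟩ := ((hV x).canL h2 h3 (fun u v => (h4 u v).1) h5.1).2 _ h5 0
        exact ⟨(u, 0), h6, rfl⟩) with h2 | h2
    · refine hn ?_
      filter_upwards [hH, hF, h1, h2] with x h2 h3 h4 h5 h6
      obtain ⟨c, hc⟩ := ((hV x).canL h2 h3 (fun u v => (h4 u v).1) h6).1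
      exact h5 0 (c, 0) ⟨hc, rfl⟩
    · refine nw ?_
      filter_upwards [h.ae_all h2] with x hx g hg
      obtain ⟨q, hq, -⟩ := hx ((1, 0) + g)
      have := hq.1.1
      rw [hs, wl_sh, shW, zero_add] at this
      exact hg.2.2 (by convert this using 1; ext <;> simp)
  have hR : ∀ᵐ x ∂μ, ¬ RW (Wl (ω x)) 0 := by
    by_contra hn
    have h1 := two (fun x p => RW (Wl (ω x)) p)
      (fun g x => by simp only [hs, wl_sh, rw_sh, zero_add]) (meas_rw hW _) hn
    rcases h.canon (R := fun x p q => CanR (ω x) p q.1 ∧ q.2 = p.2)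
      ⟨fun p q => (meas_canR hω p _).and measurable_const,
        fun g x p q => by
          simp only [hs, canR_sh, Prod.fst_add, Prod.snd_add, _root_.add_left_inj]⟩
      (fun x q q' h h' => Prod.ext (h.1.2.unique h'.1.2) (h.2.trans h'.2.symm)) e2 (by
        filter_upwards [hH, hF, h1] with x h2 h3 h4 ⟨p, h5, _⟩
        obtain ⟨u, h6⟩ := ((hV x).canR h2 h3 (fun u v => (h4 u v).2) h5.1).2 _ h5 0
        exact ⟨(u, 0), h6, rfl⟩) with h2 | h2
    · refine hn ?_
      filter_upwards [hH, hF, h1, h2] with x h2 h3 h4 h5 h6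
      obtain ⟨c, hc⟩ := ((hV x).canR h2 h3 (fun u v => (h4 u v).2) h6).1
      exact h5 0 (c, 0) ⟨hc, rfl⟩
    · refine nw ?_
      filter_upwards [h.ae_all h2] with x hx g hg
      obtain ⟨q, hq, -⟩ := hx g
      have := hq.1.1
      rw [hs, wl_sh, shW, zero_add] at this
      exact hg.2.1 this
  have hfin : ∀ᵐ x ∂μ, ∀ e : P × P, Wl (ω x) e.1 e.2 → {z | Ins (Wl (ω x)) e z}.Finite := by
    filter_upwards [hH, hF, h.ae_all hL, h.ae_all hR] with x h1 h2 h3 h4 e he
    simp only [hs, wl_sh, lw_sh, rw_sh, zero_add] at h3 h4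
    rcases (hV x).types h1 h2 he with h5 | h5 | h5
    · exact h5
    · obtain ⟨u, -, h6⟩ := h5 0
      exact absurd h6 (h3 _)
    · obtain ⟨u, -, h6⟩ := h5 0
      exact absurd h6 (h4 _)
  have r1 : Rel a fun x q z => Ext 1 (Wl (ω x)) q q ∧ Ins (Wl (ω x)) (we q) z :=
    ⟨fun q z => (meas_ext hW 1 q q).and (meas_ins hW _ _),
      fun g x p q => by rw [hs, wl_sh, ext_sh, ins_sh, we_sh]⟩
  have r2 : Rel a fun x q z => Ext 1 (Wl (ω x)) q q ∧ Cell (Wl (ω x)) (we q) z :=
    ⟨fun q z => (meas_ext hW 1 q q).and (meas_cell hW _ _),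
      fun g x p q => by rw [hs, wl_sh, ext_sh, cell_sh, we_sh]⟩
  have hloc := h.finite r1 (ne_top_of_le_ne_top (b := 4 * 1) (by simp) (by
    calc _ ≤ ∫⁻ x, 4 * ({z | Ext 1 (Wl (ω x)) 0 0 ∧ Cell (Wl (ω x)) (we 0) z}.encard : ℝ≥0∞) ∂μ := by
          refine lintegral_mono_ae ?_
          filter_upwards [hfin] with x hx
          by_cases h0 : Ext 1 (Wl (ω x)) 0 0
          · simp only [h0, true_and]
            exact_mod_cast (hV x).card_le hx (e := we 0) h0.1
          · simp [h0]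
      _ ≤ 4 * 1 := by
          rw [lintegral_const_mul' _ _ (by simp), ← h.mtp r2]
          refine mul_le_mul_right (lint_le_one ?_) _
          filter_upwards [hfin] with x hx q hq q' hq'
          exact (hV x).root_unique hx hq.1 hq'.1 hq.2 hq'.2))
  refine no_phase h hω hs d1 ?_
  filter_upwards [hfin, hloc] with x h1 h2 using (hV x).phase h1 h2

end

theorem no_sol (α β : ℤ_[3]) (hα : IsUnit α) (hβ : IsUnit β) (g : ℤ_[3] → Lab)
    (hg : ∀ l, ∃ C : ℕ → Set ℤ_[3], (∀ i, IsClosed (C i)) ∧ g ⁻¹' {l} = ⋃ i, C i) :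
    ¬ ∀ t, Rule (g t) (g (t + α)) (g (t + β)) (g (t + α + β)) := by
  borelize ℤ_[3]
  let μ : Measure ℤ_[3] := Measure.addHaarMeasure ⊤
  have : IsProbabilityMeasure μ := ⟨Measure.addHaarMeasure_self (K₀ := ⊤)⟩
  have erg : ∀ u : ℤ_[3], DenseRange (fun n : ℤ => n • u) → Ergodic (fun t => t + u) μ :=
    fun u hu => by simpa [add_comm] using ergodic_add_left_of_denseRange_zsmul hu μ
  have gm : ∀ l, MeasurableSet (g ⁻¹' {l}) := fun l => by
    obtain ⟨C, h1, h2⟩ := hg l
    exact h2 ▸ MeasurableSet.iUnion fun i => (h1 i).measurableSet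
  have pmp : ∀ α β : ℤ_[3], Pmp μ fun p t => t + (p.1 • α + p.2 • β) := fun α β =>
    ⟨fun t => by simp, fun p q t => by
      simp only [Prod.fst_add, Prod.snd_add, add_zsmul]; abel,
      fun p => measurePreserving_add_right μ _⟩
  have hω : ∀ (α β : ℤ_[3]) (p : P) l, MeasurableSet {t | g (t + (p.1 • α + p.2 • β)) = l} :=
    fun α β p l => measurable_add_const _ (gm l)
  have hs : ∀ (α β : ℤ_[3]) (q : P) t, (fun p : P => g (t + (q.1 • α + q.2 • β) +
      (p.1 • α + p.2 • β))) = sh q fun p : P => g (t + (p.1 • α + p.2 • β)) :=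
    fun α β q t => funext fun p => congrArg g (by
      simp only [Prod.fst_add, Prod.snd_add, add_zsmul]; abel)
  have e1 : ∀ (t α β : ℤ_[3]) (x y : ℤ), t + ((x + 1) • α + y • β) = t + (x • α + y • β) + α :=
    fun t α β x y => by rw [add_zsmul, one_smul]; abel
  have e2 : ∀ (t α β : ℤ_[3]) (x y : ℤ), t + (x • α + (y + 1) • β) = t + (x • α + y • β) + β :=
    fun t α β x y => by rw [add_zsmul, one_smul]; abel
  have noV : ∀ α β : ℤ_[3], IsUnit α → IsUnit β →
      ¬ ∀ t, RuleV (g t) (g (t + α)) (g (t + β)) (g (t + α + β)) := fun α β hα hβ hV =>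
    noV_abs (pmp α β) (hω α β) (hs α β) (fun t x y => by simp only [e2, e1]; exact hV _)
      (by simpa using erg _ (dense_unit hα)) (by simpa using erg _ (dense_unit hα.neg))
      (by simpa using erg _ (dense_unit hβ))
      (by simpa [two_mul, one_add_one_eq_two] using erg _ (dense_two hα))
      (by simpa [two_mul, one_add_one_eq_two] using erg _ (dense_two hβ))
  refine no_class_one (dense_unit hα) (dense_two hα) (dense_unit hβ) (dense_two hβ) hg
    (fun hR G h1 h2 => ?_) (noV α β hα hβ) (noV β α hβ hα)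
  refine no_phase (pmp α β) (hω α β) (hs α β)
    (by simpa [two_mul, one_add_one_eq_two] using erg _ (dense_two hα))
    (Eventually.of_forall fun t => SolR.phase (g := G)
      (fun x y => by simp only [e2, e1]; exact hR _) (fun x y => ?_) fun x y => ?_)
  · obtain ⟨i, h3, h4, h5⟩ := h2 (t + (x • α + y • β))
    have e : t + ((x + i) • α + y • β) = t + (x • α + y • β) + i • α := by
      rw [add_zsmul, natCast_zsmul]; abel
    refine ⟨i, by omega, by omega, by simp [Adj], ?_, ?_⟩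
    · rw [wl_N]; simp only [e, h4, Bool.false_eq_true, not_false_eq_true]
    · rw [wl_S]; simp only [e2, e, h5, Bool.false_eq_true, not_false_eq_true]
  · obtain ⟨i, h3, h4, h5⟩ := h1 (t + (x • α + y • β))
    have e : t + (x • α + (y + i) • β) = t + (x • α + y • β) + i • β := by
      rw [add_zsmul, natCast_zsmul]; abel
    refine ⟨i, by omega, by omega, by simp [Adj], ?_, ?_⟩
    · rw [wl_E]; simp only [e, h4, Bool.false_eq_true, not_false_eq_true]
    · rw [wl_W]; simp only [e1, e, h5, Bool.false_eq_true, not_false_eq_true]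

end Pool.Agent.Lib.MP_946880_lc.Bor
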