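import Pool.Agent.Lib.MP_946880_lc.H69Wall

/- From labellings to wall systems. -/

namespace Pool.Agent.Lib.MP_946880_lc.H69

open Relation

/-- the walls of a labelling -/
def Wl (ω : P → Lab) (a b : P) : Prop :=
  (b = (a.1 + 1, a.2) ∧ (ω a).wE = true) ∨ (b = (a.1 - 1, a.2) ∧ (ω a).wW = true) ∨
    (b = (a.1, a.2 + 1) ∧ (ω a).wN = true) ∨ (b = (a.1, a.2 - 1) ∧ (ω a).wS = true)

def SolR (ω : P → Lab) : Prop :=
  ∀ x y, RuleR (ω (x, y)) (ω (x + 1, y)) (ω (x, y + 1)) (ω (x + 1, y + 1))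

def SolV (ω : P → Lab) : Prop :=
  ∀ x y, RuleV (ω (x, y)) (ω (x + 1, y)) (ω (x, y + 1)) (ω (x + 1, y + 1))

def SolG (ω : P → Lab) : Prop :=
  ∀ x y, ∃ ia ib ic id, Geo (ω (x, y)) (ω (x + 1, y)) (ω (x, y + 1)) (ω (x + 1, y + 1)) ia ib ic id

lemma SolR.solG {ω : P → Lab} (h : SolR ω) : SolG ω := fun x y => by
  obtain ⟨ia, ib, ic, id, h, -⟩ := h x y
  exact ⟨ia, ib, ic, id, h⟩

lemma SolV.solG {ω : P → Lab} (h : SolV ω) : SolG ω := fun x y => by
  obtain ⟨ia, ib, ic, id, h, -⟩ := h x y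
  exact ⟨ia, ib, ic, id, h⟩

/-- the inner set described by four bits -/
def Ib (x y : ℤ) (ia ib ic id : Bool) (z : P) : Prop :=
  (z = (x, y) ∧ ia = true) ∨ (z = (x + 1, y) ∧ ib = true) ∨ (z = (x, y + 1) ∧ ic = true) ∨
    (z = (x + 1, y + 1) ∧ id = true)

variable {ω : P → Lab}

section
variable {x y : ℤ} {ia ib ic id : Bool}
@[simp] lemma Ib_a : Ib x y ia ib ic id (x, y) ↔ ia = true := by simp [Ib]
@[simp] lemma Ib_b : Ib x y ia ib ic id (x + 1, y) ↔ ib = true := by simp [Ib]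
@[simp] lemma Ib_c : Ib x y ia ib ic id (x, y + 1) ↔ ic = true := by simp [Ib]
@[simp] lemma Ib_d : Ib x y ia ib ic id (x + 1, y + 1) ↔ id = true := by simp [Ib]

lemma wl_E : Wl ω (x, y) (x + 1, y) ↔ (ω (x, y)).wE = true := by
  simp [Wl]; omega
lemma wl_W : Wl ω (x + 1, y) (x, y) ↔ (ω (x + 1, y)).wW = true := by
  simp [Wl]; omega
lemma wl_N : Wl ω (x, y) (x, y + 1) ↔ (ω (x, y)).wN = true := by
  simp [Wl]; omega
lemma wl_S : Wl ω (x, y + 1) (x, y) ↔ (ω (x, y + 1)).wS = true := by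
  simp [Wl]; omega

lemma Geo.blkOK
    (h : Geo (ω (x, y)) (ω (x + 1, y)) (ω (x, y + 1)) (ω (x + 1, y + 1)) ia ib ic id) :
    BlkOK (Wl ω) (x, y) (Ib x y ia ib ic id) := by
  obtain ⟨h0, h1, h2, h3, h4, h5, h6, h7, h8, -⟩ := h
  refine ⟨?_, fun a b ha hb hab => ?_⟩
  · simp only [Ib_a, Ib_b, Ib_c, Ib_d]
    revert h0
    cases ia <;> cases ib <;> cases ic <;> cases id <;> simp
  · rcases blk_cases ha with rfl | rfl | rfl | rfl <;>
      rcases blk_cases hb with rfl | rfl | rfl | rfl <;>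
      first
        | (exfalso; simp only [Adj] at hab; omega)
        | simp [wl_E, wl_W, wl_N, wl_S, *]
end

lemma wl_adj {a b : P} (h : Wl ω a b) : Adj a b := by
  rcases h with ⟨rfl, -⟩ | ⟨rfl, -⟩ | ⟨rfl, -⟩ | ⟨rfl, -⟩ <;> simp [Adj]

lemma SolG.wallSys (h : SolG ω) : WallSys (Wl ω) :=
  ⟨fun _ _ => wl_adj, fun p => by
    obtain ⟨ia, ib, ic, id, h⟩ := h p.1 p.2
    exact ⟨_, h.blkOK⟩⟩

lemma SolG.col (h : SolG ω) (u v : P) (huv : NW (Wl ω) u v) : (ω u).col ≠ (ω v).col := by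
  have hE : ∀ x y, NW (Wl ω) (x, y) (x + 1, y) → (ω (x, y)).col ≠ (ω (x + 1, y)).col := by
    intro x y hn
    obtain ⟨ia, ib, ic, id, -, h1, h2, -, -, -, -, -, -, h9, -⟩ := h x y
    have k1 := hn.2.1
    have k2 := hn.2.2
    rw [wl_E, h1] at k1
    rw [wl_W, h2] at k2
    apply h9
    revert k1 k2
    cases ia <;> cases ib <;> simp
  have hN : ∀ x y, NW (Wl ω) (x, y) (x, y + 1) → (ω (x, y)).col ≠ (ω (x, y + 1)).col := by
    intro x y hn
    obtain ⟨ia, ib, ic, id, -, -, -, -, -, h1, h2, -, -, -, -, h9, -⟩ := h x y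
    have k1 := hn.2.1
    have k2 := hn.2.2
    rw [wl_N, h1] at k1
    rw [wl_S, h2] at k2
    apply h9
    revert k1 k2
    cases ia <;> cases ic <;> simp
  obtain ⟨u1, u2⟩ := u
  obtain ⟨v1, v2⟩ := v
  rcases huv.1 with ⟨h1, h2 | h2⟩ | ⟨h1, h2 | h2⟩ <;> simp only at h1 h2 <;> subst h1 h2
  · exact hE _ _ huv
  · exact (hE _ _ huv.symm).symm
  · exact hN _ _ huv
  · exact (hN _ _ huv.symm).symm

/-- the block at `p` contains a wall of the component of `e` -/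
def BlkC (W : P → P → Prop) (e : P × P) (p : P) : Prop :=
  ∃ a b, Blk p a ∧ Blk p b ∧ Conn W e (a, b)

lemma WallSys.I_iff {W : P → P → Prop} (h : WallSys W) {e : P × P} (he : W e.1 e.2) {p : P}
    {I : P → Prop} (hI : BlkOK W p I) (hc : BlkC W e p) {z : P} (hz : Blk p z) :
    I z ↔ Ins W e z := by
  obtain ⟨a, b, ha, hb, hc⟩ := hc
  have hw := hc.wall he
  have k := (hI.iff a b ha hb (h.adj _ _ hw)).1 hw
  constructor
  · intro hz'
    exact ((hI.same ha hz (by tauto)).ins he).1 (h.ins_of_conn he hc)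
  · intro hz'
    by_contra hn
    exact h.not_ins_of_conn he hc (((hI.same hb hz (by tauto)).ins he).2 hz')

/-- two parallel walls in a block leave the other two edges open -/
lemma WallSys.nw_of_walls_v {W : P → P → Prop} (h : WallSys W) {x y : ℤ}
    (h1 : ¬NW W (x, y) (x, y + 1)) (h2 : ¬NW W (x + 1, y) (x + 1, y + 1)) :
    NW W (x, y) (x + 1, y) := by
  obtain ⟨I, hI⟩ := h.blk (x, y)
  have k1 : ¬(I (x, y) ↔ I (x, y + 1)) := fun k =>
    h1 (hI.nw (by simp [Blk]) (by simp [Blk]) (by simp [Adj]) k)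
  have k2 : ¬(I (x + 1, y) ↔ I (x + 1, y + 1)) := fun k =>
    h2 (hI.nw (by simp [Blk]) (by simp [Blk]) (by simp [Adj]) k)
  have := hI.nd
  exact hI.nw (by simp [Blk]) (by simp [Blk]) (by simp [Adj]) (by tauto)

lemma WallSys.nw_of_walls_h {W : P → P → Prop} (h : WallSys W) {x y : ℤ}
    (h1 : ¬NW W (x, y) (x + 1, y)) (h2 : ¬NW W (x, y + 1) (x + 1, y + 1)) :
    NW W (x, y) (x, y + 1) := by
  obtain ⟨I, hI⟩ := h.blk (x, y)
  have k1 : ¬(I (x, y) ↔ I (x + 1, y)) := fun k =>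
    h1 (hI.nw (by simp [Blk]) (by simp [Blk]) (by simp [Adj]) k)
  have k2 : ¬(I (x, y + 1) ↔ I (x + 1, y + 1)) := fun k =>
    h2 (hI.nw (by simp [Blk]) (by simp [Blk]) (by simp [Adj]) k)
  have := hI.nd
  exact hI.nw (by simp [Blk]) (by simp [Blk]) (by simp [Adj]) (by tauto)

lemma WallSys.blkC_of {W : P → P → Prop} (h : WallSys W) {e : P × P} (he : W e.1 e.2) {p a b : P}
    (ha : Blk p a) (hb : Blk p b) (hia : Ins W e a) (hib : ¬Ins W e b) : BlkC W e p := by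
  by_contra hn
  exact hib ((blk_ins_iff (fun a b ha hb k => hn ⟨a, b, ha, hb, k⟩) ha hb).1 hia)

/-- no concave corners: three pixels of a block inside force the fourth -/
lemma SolR.fill (h : SolR ω) {e : P × P} (he : Wl ω e.1 e.2) {p z : P} (hz : Blk p z)
    (ho : ∀ u, Blk p u → u ≠ z → Ins (Wl ω) e u) : Ins (Wl ω) e z := by
  by_contra hn
  obtain ⟨x, y⟩ := p
  obtain ⟨ia, ib, ic, id, hg, h3⟩ := h x y
  have hw := h.solG.wallSys
  have hc : BlkC (Wl ω) e (x, y) := by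
    by_cases hz' : z = (x, y)
    · exact hw.blkC_of he (a := (x + 1, y)) (by simp [Blk]) hz
        (ho _ (by simp [Blk]) (by simp [hz'])) hn
    · exact hw.blkC_of he (a := (x, y)) (by simp [Blk]) hz
        (ho _ (by simp [Blk]) (Ne.symm hz')) hn
  have k := fun u hu => hw.I_iff he hg.blkOK hc (z := u) hu
  have ka := k (x, y) (by simp [Blk])
  have kb := k (x + 1, y) (by simp [Blk])
  have kc := k (x, y + 1) (by simp [Blk])
  have kd := k (x + 1, y + 1) (by simp [Blk])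
  simp only [Ib_a, Ib_b, Ib_c, Ib_d] at ka kb kc kd
  have oa := ho (x, y) (by simp [Blk])
  have ob := ho (x + 1, y) (by simp [Blk])
  have oc := ho (x, y + 1) (by simp [Blk])
  have od := ho (x + 1, y + 1) (by simp [Blk])
  rw [← ka] at oa
  rw [← kb] at ob
  rw [← kc] at oc
  rw [← kd] at od
  apply h3
  rcases blk_cases hz with rfl | rfl | rfl | rfl
  · rw [← ka] at hn
    simp [hn, ob (by simp), oc (by simp), od (by simp)]
  · rw [← kb] at hn
    simp [hn, oa (by simp), oc (by simp), od (by simp)]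
  · rw [← kc] at hn
    simp [hn, oa (by simp), ob (by simp), od (by simp)]
  · rw [← kd] at hn
    simp [hn, oa (by simp), ob (by simp), oc (by simp)]

def E1 (ω : P → Lab) (u : P) : ℤ := th (ω u).n1 (ω (u.1 + 1, u.2)).n1
def N1 (ω : P → Lab) (u : P) : ℤ := th (ω u).n1 (ω (u.1, u.2 + 1)).n1
def E2 (ω : P → Lab) (u : P) : ℤ := th (ω u).n2 (ω (u.1 + 1, u.2)).n2
def N2 (ω : P → Lab) (u : P) : ℤ := th (ω u).n2 (ω (u.1, u.2 + 1)).n2

lemma SolV.flat (h : SolV ω) {x y : ℤ} (hn : ∀ a b, Blk (x, y) a → Blk (x, y) b → ¬Wl ω a b) :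
    E1 ω (x, y) + N1 ω (x + 1, y) = N1 ω (x, y) + E1 ω (x, y + 1) ∧
      E2 ω (x, y) + N2 ω (x + 1, y) = N2 ω (x, y) + E2 ω (x, y + 1) := by
  obtain ⟨ia, ib, ic, id, hg, hc, -⟩ := h x y
  apply hc
  have k := fun a b ha hb hab => (not_congr (hg.blkOK.iff a b ha hb hab)).1 (hn a b ha hb)
  have k1 := k (x, y) (x + 1, y) (by simp [Blk]) (by simp [Blk]) (by simp [Adj])
  have k2 := k (x + 1, y) (x, y) (by simp [Blk]) (by simp [Blk]) (by simp [Adj])
  have k3 := k (x, y) (x, y + 1) (by simp [Blk]) (by simp [Blk]) (by simp [Adj])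
  have k4 := k (x, y + 1) (x, y) (by simp [Blk]) (by simp [Blk]) (by simp [Adj])
  have k5 := k (x + 1, y) (x + 1, y + 1) (by simp [Blk]) (by simp [Blk]) (by simp [Adj])
  have k6 := k (x + 1, y + 1) (x + 1, y) (by simp [Blk]) (by simp [Blk]) (by simp [Adj])
  simp only [Ib_a, Ib_b, Ib_c, Ib_d] at k1 k2 k3 k4 k5 k6
  revert k1 k2 k3 k4 k5 k6
  cases ia <;> cases ib <;> cases ic <;> cases id <;> simp

/-- the edge conditions in a block containing a wall of the component of `e` -/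
lemma SolV.edges (h : SolV ω) {e : P × P} (he : Wl ω e.1 e.2) {p : P} (hc : BlkC (Wl ω) e p) :
    ∃ J : P → Bool, (∀ z, Blk p z → (J z = true ↔ Ins (Wl ω) e z)) ∧
      (∀ u, Blk p u → Blk p (u.1 + 1, u.2) →
        HE (ω u) (ω (u.1 + 1, u.2)) (J u) (J (u.1 + 1, u.2))) ∧
      (∀ u, Blk p u → Blk p (u.1, u.2 + 1) →
        VE (ω u) (ω (u.1, u.2 + 1)) (J u) (J (u.1, u.2 + 1))) := by
  classical
  obtain ⟨x, y⟩ := p
  obtain ⟨ia, ib, ic, id, hg, -, hc'⟩ := h x y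
  have hw := h.solG.wallSys
  have k := fun u hu => hw.I_iff he hg.blkOK hc (z := u) hu
  have ka := k (x, y) (by simp [Blk])
  have kb := k (x + 1, y) (by simp [Blk])
  have kc := k (x, y + 1) (by simp [Blk])
  have kd := k (x + 1, y + 1) (by simp [Blk])
  simp only [Ib_a, Ib_b, Ib_c, Ib_d] at ka kb kc kd
  have hne : ¬(ia = ib ∧ ia = ic ∧ ia = id) := by
    rintro ⟨rfl, rfl, rfl⟩
    obtain ⟨a, b, ha, hb, hab⟩ := hc
    have k1 := hw.ins_of_conn he hab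
    have k2 := hw.not_ins_of_conn he hab
    simp only at k1 k2
    rcases blk_cases ha with rfl | rfl | rfl | rfl <;>
      rcases blk_cases hb with rfl | rfl | rfl | rfl <;> tauto
  obtain ⟨h1, h2, h3, h4⟩ := hc' hne
  have ja : decide (Ins (Wl ω) e (x, y)) = ia := by rw [Bool.eq_iff_iff]; simp [ka]
  have jb : decide (Ins (Wl ω) e (x + 1, y)) = ib := by rw [Bool.eq_iff_iff]; simp [kb]
  have jc : decide (Ins (Wl ω) e (x, y + 1)) = ic := by rw [Bool.eq_iff_iff]; simp [kc]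
  have jd : decide (Ins (Wl ω) e (x + 1, y + 1)) = id := by rw [Bool.eq_iff_iff]; simp [kd]
  refine ⟨fun z => decide (Ins (Wl ω) e z), fun z _ => by simp, fun u hu hu' => ?_,
    fun u hu hu' => ?_⟩
  · rcases blk_cases hu with rfl | rfl | rfl | rfl
    · simpa only [ja, jb] using h1
    · simp [Blk] at hu'
    · simpa only [jc, jd] using h2
    · simp [Blk] at hu'
  · rcases blk_cases hu with rfl | rfl | rfl | rfl
    · simpa only [ja, jc] using h3
    · simpa only [jb, jd] using h4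
    · simp [Blk] at hu'
    · simp [Blk] at hu'

section
variable (h : SolV ω) {e : P × P} (he : Wl ω e.1 e.2) {p : P} (hc : BlkC (Wl ω) e p)
  {x y : ℤ}
include h he hc

lemma SolV.hin (hu : Blk p (x, y)) (hu' : Blk p (x + 1, y)) (h1 : Ins (Wl ω) e (x, y))
    (h2 : Ins (Wl ω) e (x + 1, y)) :
    ((ω (x + 1, y)).sA = true → (ω (x, y)).sA = true ∧ E1 ω (x, y) = 1 ∧ E2 ω (x, y) = 0) ∧
      ((ω (x + 1, y)).sA = false → E1 ω (x, y) = 0 ∧ E2 ω (x, y) = 1) := by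
  obtain ⟨J, hJ, hH, -⟩ := h.edges he hc
  obtain ⟨k1, k2, k3⟩ := (hH _ hu hu').1 ((hJ _ hu).2 h1) ((hJ _ hu').2 h2)
  simp only at k1 k2 k3
  unfold E1 E2
  constructor
  · intro hs
    simp only [hs, if_true] at k1 k2
    exact ⟨k3 hs, k1, k2⟩
  · intro hs
    simp only [hs] at k1 k2
    exact ⟨k1, k2⟩

lemma SolV.hout (hu : Blk p (x, y)) (hu' : Blk p (x + 1, y)) (h1 : ¬Ins (Wl ω) e (x, y))
    (h2 : ¬Ins (Wl ω) e (x + 1, y)) : E1 ω (x, y) = 0 ∧ E2 ω (x, y) = 0 := by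
  obtain ⟨J, hJ, hH, -⟩ := h.edges he hc
  exact (hH _ hu hu').2.1 (by simpa [← hJ _ hu] using h1) (by simpa [← hJ _ hu'] using h2)

lemma SolV.ver (hu : Blk p (x, y)) (hu' : Blk p (x, y + 1))
    (h1 : Ins (Wl ω) e (x, y) ↔ Ins (Wl ω) e (x, y + 1)) : N1 ω (x, y) = 0 ∧ N2 ω (x, y) = 0 := by
  obtain ⟨J, hJ, -, hH⟩ := h.edges he hc
  refine (hH _ hu hu').1 ?_
  rw [Bool.eq_iff_iff, hJ _ hu, hJ _ hu']
  exact h1

lemma SolV.vin (hu : Blk p (x, y)) (hu' : Blk p (x, y + 1)) (h1 : Ins (Wl ω) e (x, y))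
    (h2 : Ins (Wl ω) e (x, y + 1)) : (ω (x, y)).sA = (ω (x, y + 1)).sA := by
  obtain ⟨J, hJ, -, hH⟩ := h.edges he hc
  exact (hH _ hu hu').2 ((hJ _ hu).2 h1) ((hJ _ hu').2 h2)

end

lemma SolV.east (h : SolV ω) {e : P × P} (he : Wl ω e.1 e.2) {x y : ℤ}
    (h1 : Ins (Wl ω) e (x, y)) (h2 : ¬Ins (Wl ω) e (x + 1, y)) : (ω (x, y)).sA = false := by
  obtain ⟨J, hJ, hH, -⟩ := h.edges he (p := (x, y))
    (h.solG.wallSys.blkC_of he (by simp [Blk]) (by simp [Blk]) h1 h2)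
  exact (hH (x, y) (by simp [Blk]) (by simp [Blk])).2.2.1 ((hJ _ (by simp [Blk])).2 h1)
    (by simpa [← hJ (x + 1, y) (by simp [Blk])] using h2)

lemma SolV.west (h : SolV ω) {e : P × P} (he : Wl ω e.1 e.2) {x y : ℤ}
    (h1 : ¬Ins (Wl ω) e (x, y)) (h2 : Ins (Wl ω) e (x + 1, y)) : (ω (x + 1, y)).sA = true := by
  obtain ⟨J, hJ, hH, -⟩ := h.edges he (p := (x, y))
    (h.solG.wallSys.blkC_of he (by simp [Blk]) (by simp [Blk]) h2 h1)
  exact (hH (x, y) (by simp [Blk]) (by simp [Blk])).2.2.2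
    (by simpa [← hJ (x, y) (by simp [Blk])] using h1) ((hJ _ (by simp [Blk])).2 h2)

end Pool.Agent.Lib.MP_946880_lc.H69
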