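import Pool.Agent.Lib.MP_946880_lc.H69Convex

/- Definitions for the needle mode: cells, glued forms, canonical columns, extremal pixels. -/

namespace Pool.Agent.Lib.MP_946880_lc.H69

/-- the west edge of a pixel -/
def we (p : P) : P × P := (p, (p.1 - 1, p.2))

/-- the east edge of a pixel -/
def ee (p : P) : P × P := (p, (p.1 + 1, p.2))

/-- the cell of a component: inside it, and on its side of all the other components -/
def Cell (W : P → P → Prop) (e : P × P) (z : P) : Prop :=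
  Ins W e z ∧ ∀ e' : P × P, W e'.1 e'.2 → ¬Conn W e e' → (Ins W e' z ↔ Ins W e' e.1)

open Classical in
/-- horizontal part of the glued form -/
noncomputable def Th (W : P → P → Prop) (E : P → ℤ) (e : P × P) (u : P) : ℤ :=
  if ¬Ins W e u ∨ ¬Ins W e (u.1 + 1, u.2) then 1
  else if Cell W e u ∧ Cell W e (u.1 + 1, u.2) then E u else 0

/-- `p` is the west end of a row of an inside that is unbounded to the east -/
def LW (W : P → P → Prop) (p : P) : Prop :=
  W p (p.1 - 1, p.2) ∧ ∀ x, p.1 ≤ x → Ins W (we p) (x, p.2)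

/-- `p` is the east end of a row of an inside that is unbounded to the west -/
def RW (W : P → P → Prop) (p : P) : Prop :=
  W p (p.1 + 1, p.2) ∧ ∀ x, x ≤ p.1 → Ins W (ee p) (x, p.2)

/-- long sums of `Ψ` over `[a, b)` are `c - a` -/
def Lim (Ψ : ℤ → ℤ) (c : ℤ) : Prop :=
  ∃ a0 b0 : ℤ, ∀ a b, a ≤ a0 → b0 ≤ b → ∑ x ∈ Finset.Ico a b, Ψ x = c - a

def CanL (ω : P → Lab) (p : P) (c : ℤ) : Prop :=
  LW (Wl ω) p ∧ Lim (fun x => Th (Wl ω) (E1 ω) (we p) (x, p.2)) c

def CanR (ω : P → Lab) (p : P) (c : ℤ) : Prop :=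
  RW (Wl ω) p ∧ Lim (fun x => 1 - Th (Wl ω) (E2 ω) (ee p) (x, p.2)) c

/-- `p` has a west wall and `q` is the bottom-left (`σ = 1`) or top-left (`σ = -1`) pixel of the
inside of that wall -/
def Ext (σ : ℤ) (W : P → P → Prop) (p q : P) : Prop :=
  W p (p.1 - 1, p.2) ∧ Ins W (we p) q ∧
    ∀ z, Ins W (we p) z → σ * q.2 < σ * z.2 ∨ (q.2 = z.2 ∧ q.1 ≤ z.1)

/-- no infinite horizontal walls -/
def HGood (W : P → P → Prop) : Prop :=
  ∀ x y, (∃ t, x ≤ t ∧ NW W (t, y) (t, y + 1)) ∧ ∃ t, t ≤ x ∧ NW W (t, y) (t, y + 1)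

def FinExt (W : P → P → Prop) : Prop :=
  ∀ q, {p | Ext 1 W p q}.Finite ∧ {p | Ext (-1) W p q}.Finite

lemma Lim.unique {Ψ : ℤ → ℤ} {c c' : ℤ} (h : Lim Ψ c) (h' : Lim Ψ c') : c = c' := by
  obtain ⟨a, b, h⟩ := h
  obtain ⟨a', b', h'⟩ := h'
  have h1 := h (min a a') (max b b') (min_le_left _ _) (le_max_left _ _)
  have h2 := h' (min a a') (max b b') (min_le_right _ _) (le_max_right _ _)
  omega

lemma Ext.unique {σ : ℤ} {W : P → P → Prop} {p q q' : P} (h : Ext σ W p q) (h' : Ext σ W p q') :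
    q = q' := by
  have h1 := h.2.2 q' h'.2.1
  have h2 := h'.2.2 q h.2.1
  rcases h1 with h1 | h1 <;> rcases h2 with h2 | h2
  · omega
  · rw [h2.1] at h1; omega
  · rw [h1.1] at h2; omega
  · refine Prod.ext ?_ ?_ <;> omega

end Pool.Agent.Lib.MP_946880_lc.H69
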