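import Pool.Agent.Lib.MP_946880_lc.H69Bridge

/- Shapes of the insides: row convexity, rectangles. -/

namespace Pool.Agent.Lib.MP_946880_lc.H69

open Relation

def Seg (S : P → Prop) (a b y : ℤ) : Prop := ∀ t, min a b ≤ t → t ≤ max a b → S (t, y)

lemma Seg.symm {S : P → Prop} {a b y : ℤ} (h : Seg S a b y) : Seg S b a y :=
  fun t h1 h2 => h t (by omega) (by omega)

lemma Seg.trans {S : P → Prop} {a b c y : ℤ} (h : Seg S a b y) (h' : Seg S b c y) :
    Seg S a c y := fun t h1 h2 => by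
  by_cases k : min a b ≤ t ∧ t ≤ max a b
  · exact h t k.1 k.2
  · exact h' t (by omega) (by omega)

lemma Seg.left {S : P → Prop} {a b y : ℤ} (h : Seg S a b y) : S (a, y) :=
  h a (by omega) (by omega)

lemma Seg.right {S : P → Prop} {a b y : ℤ} (h : Seg S a b y) : S (b, y) :=
  h b (by omega) (by omega)

lemma seg_self {S : P → Prop} {a y : ℤ} (h : S (a, y)) : Seg S a a y := fun t h1 h2 => by
  obtain rfl : t = a := by omega
  exact h

lemma seg_step {S : P → Prop} {a b y : ℤ} (h : S (a, y)) (h' : S (b, y))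
    (hab : b = a + 1 ∨ a = b + 1) : Seg S a b y := fun t h1 h2 => by
  obtain rfl | rfl : t = a ∨ t = b := by omega
  exacts [h, h']

/-- no notch and no valley -/
def NV (S : P → Prop) : Prop :=
  ∀ y y' a b, (y' = y + 1 ∨ y = y' + 1) → Seg S a b y → S (a, y') → S (b, y') → Seg S a b y'

def Ch (S : P → Prop) (x0 y0 σ : ℤ) : ℕ → ℤ → Prop
  | 0, x => Seg S x0 x y0
  | h + 1, x => ∃ x', Ch S x0 y0 σ h x' ∧ Seg S x' x (y0 + σ * (h + 1))

lemma Ch.ext {S : P → Prop} {x0 y0 σ : ℤ} {h : ℕ} {x x' : ℤ} (hc : Ch S x0 y0 σ h x)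
    (hs : Seg S x x' (y0 + σ * h)) : Ch S x0 y0 σ h x' := by
  cases h with
  | zero => exact Seg.trans hc (by simpa using hs)
  | succ h =>
    obtain ⟨x'', h1, h2⟩ := hc
    exact ⟨x'', h1, h2.trans (by simpa using hs)⟩

lemma Ch.uniq {S : P → Prop} (hS : NV S) {x0 y0 σ : ℤ} (hσ : σ = 1 ∨ σ = -1) {h : ℕ} {x x' : ℤ}
    (hc : Ch S x0 y0 σ h x) (hc' : Ch S x0 y0 σ h x') : Seg S x x' (y0 + σ * h) := by
  induction h generalizing x x' with
  | zero => simpa using Seg.trans (Seg.symm hc) hc'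
  | succ h ih =>
    obtain ⟨a, h1, h2⟩ := hc
    obtain ⟨b, h3, h4⟩ := hc'
    have := hS _ (y0 + σ * (h + 1)) a b (by rcases hσ with rfl | rfl <;> omega) (ih h1 h3)
      h2.left h4.left
    simpa using (h2.symm.trans this).trans h4

theorem row_convex {r : P → P → Prop} (hr : ∀ u v, r u v → Adj u v) {z0 : P}
    (hS : NV (ReflTransGen r z0)) {a b y : ℤ} (ha : ReflTransGen r z0 (a, y))
    (hb : ReflTransGen r z0 (b, y)) : Seg (ReflTransGen r z0) a b y := by
  set S := ReflTransGen r z0 with hSdef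
  have key : ∀ z, S z → ∃ σ : ℤ, (σ = 1 ∨ σ = -1) ∧ ∃ h : ℕ, z.2 = z0.2 + σ * h ∧
      Ch S z0.1 z0.2 σ h z.1 := by
    intro z hz
    induction hz with
    | refl => exact ⟨1, Or.inl rfl, 0, by simp, seg_self ReflTransGen.refl⟩
    | @tail u v hu huv ih =>
      obtain ⟨σ, hσ, h, h1, h2⟩ := ih
      have hv : S v := ReflTransGen.tail hu huv
      have hu' : S u := hu
      obtain ⟨u1, u2⟩ := u
      obtain ⟨v1, v2⟩ := v
      simp only at h1 h2 ⊢
      rcases hr _ _ huv with ⟨k1, k2⟩ | ⟨k1, k2⟩ <;> simp only at k1 k2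
      · subst k1
        exact ⟨σ, hσ, h, h1, h2.ext (h1 ▸ seg_step hu' hv k2)⟩
      · subst k1
        by_cases hk : v2 = z0.2 + σ * (h + 1)
        · exact ⟨σ, hσ, h + 1, by push_cast; exact hk, u1, h2, hk ▸ seg_self hv⟩
        · cases h with
          | zero =>
            have hk' : v2 = z0.2 + (-σ) * ((0 : ℕ) + 1) := by
              rcases hσ with rfl | rfl <;> simp at h1 hk ⊢ <;> omega
            exact ⟨-σ, by omega, 1, by simpa using hk', u1, h2, hk' ▸ seg_self hv⟩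
          | succ h =>
            obtain ⟨x', h3, h4⟩ := h2
            have hk' : v2 = z0.2 + σ * h := by
              rcases hσ with rfl | rfl <;> push_cast at h1 hk <;> omega
            refine ⟨σ, hσ, h, hk', h3.ext ?_⟩
            exact hS _ _ _ _ (by rcases hσ with rfl | rfl <;> omega) h4
              (Ch.uniq hS hσ h3 h3).left (hk' ▸ hv)
  obtain ⟨σ, hσ, h, h1, h2⟩ := key _ ha
  obtain ⟨σ', hσ', h', h1', h2'⟩ := key _ hb
  simp only at h1 h2 h1' h2'
  by_cases hs : σ = σ'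
  · subst hs
    obtain rfl : h = h' := by rcases hσ with rfl | rfl <;> omega
    exact h1 ▸ Ch.uniq hS hσ h2 h2'
  · obtain ⟨rfl, rfl⟩ : h = 0 ∧ h' = 0 := by
      rcases hσ with rfl | rfl <;> rcases hσ' with rfl | rfl <;> omega
    have : y = z0.2 := by simpa using h1
    exact this ▸ Seg.trans (Seg.symm h2) h2'

theorem crossing {r : P → P → Prop} (hr : ∀ u v, r u v → Adj u v) {z0 a b : P}
    (ha : ReflTransGen r z0 a) (hb : ReflTransGen r z0 b) {y : ℤ} (h1 : a.2 ≤ y) (h2 : y < b.2) :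
    ∃ x, ReflTransGen r z0 (x, y) ∧ ReflTransGen r z0 (x, y + 1) := by
  have key : ∀ z, ReflTransGen r z0 z → ¬(z0.2 ≤ y ↔ z.2 ≤ y) →
      ∃ x, ReflTransGen r z0 (x, y) ∧ ReflTransGen r z0 (x, y + 1) := by
    intro z hz
    induction hz with
    | refl => simp
    | @tail u v hu huv ih =>
      intro hn
      by_cases k : z0.2 ≤ y ↔ u.2 ≤ y
      · have hv := ReflTransGen.tail hu huv
        have := hr _ _ huv
        obtain ⟨u1, u2⟩ := u
        obtain ⟨v1, v2⟩ := v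
        simp only [Adj] at this hn k
        obtain ⟨rfl, ⟨rfl, rfl⟩ | ⟨rfl, rfl⟩⟩ :
            u1 = v1 ∧ ((u2 = y ∧ v2 = y + 1) ∨ (v2 = y ∧ u2 = y + 1)) := by omega
        exacts [⟨_, hu, hv⟩, ⟨_, hv, hu⟩]
      · exact ih k
  by_cases k : z0.2 ≤ y
  · exact key b hb (by omega)
  · exact key a ha (by omega)

variable {ω : P → Lab} {e : P × P}

lemma ins_crossing {W : P → P → Prop} {a b : P} (ha : Ins W e a) (hb : Ins W e b) {y : ℤ}
    (h1 : a.2 ≤ y) (h2 : y < b.2) : ∃ x, Ins W e (x, y) ∧ Ins W e (x, y + 1) :=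
  crossing (fun _ _ h => h.1) ha hb h1 h2

lemma ins_row {W : P → P → Prop} {a b : P} (ha : Ins W e a) (hb : Ins W e b) {y : ℤ}
    (h1 : a.2 ≤ y) (h2 : y ≤ b.2) : ∃ x, Ins W e (x, y) := by
  rcases h2.lt_or_eq with h2 | rfl
  · exact (ins_crossing ha hb h1 h2).imp fun _ h => h.1
  · exact ⟨b.1, hb⟩

/-- side labels are monotone along a horizontal run -/
lemma SolV.propagate (h : SolV ω) (he : Wl ω e.1 e.2) {y m a b : ℤ} (hm : m = y ∨ m + 1 = y)
    (hab : a ≤ b) (hs : Seg (Ins (Wl ω) e) a b y)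
    (hc : ∀ t, a ≤ t → t < b → BlkC (Wl ω) e (t, m)) (hb : (ω (b, y)).sA = true) :
    (ω (a, y)).sA = true := by
  have : ∀ t, t ≤ b → a ≤ t → (ω (t, y)).sA = true := by
    intro t ht
    induction t, ht using Int.le_induction_down with
    | base => exact fun _ => hb
    | pred t ht ih =>
      intro hat
      have := (h.hin he (hc (t - 1) hat (by omega)) (x := t - 1) (y := y)
        (by simp only [Blk]; omega) (by simp only [Blk]; omega) (hs _ (by omega) (by omega))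
        (hs _ (by omega) (by omega))).1
      rw [sub_add_cancel] at this
      exact (this (ih (by omega))).1
  exact this a hab le_rfl

lemma SolV.vin' (h : SolV ω) (he : Wl ω e.1 e.2) {p : P} (hc : BlkC (Wl ω) e p) {x y y' : ℤ}
    (hy : y' = y + 1 ∨ y = y' + 1) (hu : Blk p (x, y)) (hu' : Blk p (x, y'))
    (h1 : Ins (Wl ω) e (x, y)) (h2 : Ins (Wl ω) e (x, y')) : (ω (x, y)).sA = (ω (x, y')).sA := by
  rcases hy with rfl | rfl
  · exact h.vin he hc hu hu' h1 h2
  · exact (h.vin he hc hu' hu h2 h1).symm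

lemma SolV.nv (h : SolV ω) (he : Wl ω e.1 e.2) : NV (Ins (Wl ω) e) := by
  have hw := h.solG.wallSys
  have main : ∀ y y' a b, (y' = y + 1 ∨ y = y' + 1) → a ≤ b → Seg (Ins (Wl ω) e) a b y →
      Ins (Wl ω) e (a, y') → Ins (Wl ω) e (b, y') → Seg (Ins (Wl ω) e) a b y' := by
    intro y y' a b hy hab hs ha hb t h1 h2
    by_contra hn
    obtain ⟨u, ⟨hu1, hu2⟩, hu3⟩ := Int.exists_greatest_of_bdd
      (P := fun u => u ≤ t ∧ Ins (Wl ω) e (u, y')) ⟨t, fun _ h => h.1⟩ ⟨a, by omega, ha⟩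
    obtain ⟨v, ⟨hv1, hv2⟩, hv3⟩ := Int.exists_least_of_bdd
      (P := fun u => t ≤ u ∧ Ins (Wl ω) e (u, y')) ⟨t, fun _ h => h.1⟩ ⟨b, by omega, hb⟩
    have hau := hu3 a ⟨by omega, ha⟩
    have hvb := hv3 b ⟨by omega, hb⟩
    have hut : u ≠ t := by rintro rfl; exact hn hu2
    have hvt : v ≠ t := by rintro rfl; exact hn hv2
    have gap : ∀ s, u < s → s < v → ¬Ins (Wl ω) e (s, y') := by
      intro s k1 k2 k
      by_cases hst : s ≤ t
      · have := hu3 s ⟨hst, k⟩; omega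
      · have := hv3 s ⟨by omega, k⟩; omega
    have hc : ∀ s, u ≤ s → s < v → BlkC (Wl ω) e (s, min y y') := by
      intro s k1 k2
      rcases k1.lt_or_eq with k1 | rfl
      · exact hw.blkC_of he (a := (s, y)) (b := (s, y')) (by simp only [Blk]; omega)
          (by simp only [Blk]; omega) (hs _ (by omega) (by omega)) (gap _ k1 k2)
      · exact hw.blkC_of he (a := (u, y)) (b := (u + 1, y')) (by simp only [Blk]; omega)
          (by simp only [Blk]; omega) (hs _ (by omega) (by omega)) (gap _ (by omega) (by omega))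
    have e1 : (ω (u, y')).sA = false := h.east he hu2 (gap _ (by omega) (by omega))
    have e2 : (ω (v, y')).sA = true := by
      have := h.west he (x := v - 1) (y := y') (gap _ (by omega) (by omega)) (by simpa using hv2)
      simpa using this
    rw [← h.vin' he (hc u le_rfl (by omega)) hy (by simp only [Blk]; omega)
      (by simp only [Blk]; omega) (hs _ (by omega) (by omega)) hu2] at e1
    rw [← h.vin' he (hc (v - 1) (by omega) (by omega)) hy (by simp only [Blk]; omega)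
      (by simp only [Blk]; omega) (hs _ (by omega) (by omega)) hv2] at e2
    have := h.propagate he (y := y) (m := min y y') (a := u) (b := v) (by omega) (by omega)
      (fun s k1 k2 => hs s (by omega) (by omega)) hc e2
    rw [this] at e1
    exact absurd e1 (by simp)
  intro y y' a b hy hs ha hb
  rcases le_total a b with hab | hab
  · exact main y y' a b hy hab hs ha hb
  · exact (main y y' b a hy hab hs.symm hb ha).symm

theorem SolV.convex (h : SolV ω) (he : Wl ω e.1 e.2) {a b y : ℤ} (ha : Ins (Wl ω) e (a, y))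
    (hb : Ins (Wl ω) e (b, y)) : Seg (Ins (Wl ω) e) a b y :=
  row_convex (fun _ _ h => h.1) (h.nv he) ha hb

lemma SolR.sweep (h : SolR ω) (he : Wl ω e.1 e.2) {y y' a b : ℤ} (hy : y' = y + 1 ∨ y = y' + 1)
    (hs : Seg (Ins (Wl ω) e) a b y) (ha : Ins (Wl ω) e (a, y')) : Seg (Ins (Wl ω) e) a b y' := by
  have step : ∀ s t, (t = s + 1 ∨ s = t + 1) → Ins (Wl ω) e (s, y) → Ins (Wl ω) e (t, y) →
      Ins (Wl ω) e (s, y') → Ins (Wl ω) e (t, y') := by
    intro s t hst k1 k2 k3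
    refine h.fill he (p := (min s t, min y y')) (by simp only [Blk]; omega) fun u hu hne => ?_
    obtain ⟨u1, u2⟩ := u
    simp only [Blk, ne_eq, Prod.mk.injEq] at hu hne
    obtain ⟨rfl, rfl⟩ | ⟨rfl, rfl⟩ | ⟨rfl, rfl⟩ :
        (u1 = s ∧ u2 = y) ∨ (u1 = t ∧ u2 = y) ∨ (u1 = s ∧ u2 = y') := by omega
    exacts [k1, k2, k3]
  intro t
  induction t using Int.inductionOn' (b := a) with
  | zero => exact fun _ _ => ha
  | succ k hk ih =>
    intro h1 h2
    exact step k _ (Or.inl rfl) (hs _ (by omega) (by omega)) (hs _ h1 h2) (ih (by omega) (by omega))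
  | pred k hk ih =>
    intro h1 h2
    exact step k _ (Or.inr (by omega)) (hs _ (by omega) (by omega)) (hs _ h1 h2)
      (ih (by omega) (by omega))

lemma SolR.convex (h : SolR ω) (he : Wl ω e.1 e.2) {a b y : ℤ} (ha : Ins (Wl ω) e (a, y))
    (hb : Ins (Wl ω) e (b, y)) : Seg (Ins (Wl ω) e) a b y :=
  row_convex (fun _ _ h => h.1) (fun _ _ _ _ hy hs ha _ => h.sweep he hy hs ha) ha hb

lemma SolR.prod (h : SolR ω) (he : Wl ω e.1 e.2) {a b y y' : ℤ} (ha : Ins (Wl ω) e (a, y))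
    (hb : Ins (Wl ω) e (b, y')) : Ins (Wl ω) e (a, y') := by
  have : ∀ t, min y y' ≤ t → t ≤ max y y' → Ins (Wl ω) e (a, t) := by
    intro t
    induction t using Int.inductionOn' (b := y) with
    | zero => exact fun _ _ => ha
    | succ k hk ih =>
      intro h1 h2
      obtain ⟨x, k1, k2⟩ := ins_crossing ha hb (y := k) hk (by simp only; omega)
      exact (h.sweep he (Or.inl rfl) (h.convex he k1 (ih (by omega) (by omega))) k2).right
    | pred k hk ih =>
      intro h1 h2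
      obtain ⟨x, k1, k2⟩ := ins_crossing hb ha (y := k - 1) (by simp only; omega)
        (by simp only; omega)
      rw [sub_add_cancel] at k2
      exact (h.sweep he (Or.inr (by omega)) (h.convex he k2 (ih (by omega) (by omega))) k1).right
  exact this y' (by omega) (by omega)

theorem SolR.bounded (h : SolR ω) (he : Wl ω e.1 e.2) {g : ℤ}
    (hH : ∀ x y, ∃ t, 0 ≤ t ∧ t < g ∧ NW (Wl ω) (x + t, y) (x + t, y + 1))
    (hV : ∀ x y, ∃ t, 0 ≤ t ∧ t < g ∧ NW (Wl ω) (x, y + t) (x + 1, y + t)) {z z' : P}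
    (hz : Ins (Wl ω) e z) (hz' : Ins (Wl ω) e z') : z'.1 - z.1 < g ∧ z'.2 - z.2 < g := by
  have hA : ∀ x y y', (y' = y + 1 ∨ y = y' + 1) → Ins (Wl ω) e (x, y) → ¬Ins (Wl ω) e (x, y') →
      ∀ z z' : P, Ins (Wl ω) e z → Ins (Wl ω) e z' → z'.1 - z.1 < g := by
    intro x y y' hy k1 k2 z z' hz hz'
    by_contra hn
    obtain ⟨t, t1, t2, t3⟩ := hH z.1 (min y y')
    have k3 : Ins (Wl ω) e (z.1 + t, y) :=
      h.convex he (h.prod he hz k1) (h.prod he hz' k1) _ (by omega) (by omega)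
    have k4 := (t3.free he).ins
    apply k2
    rcases hy with rfl | rfl
    · rw [min_eq_left (by omega)] at k4
      exact h.prod he k1 (k4.1 k3)
    · rw [min_eq_right (by omega)] at k4
      exact h.prod he k1 (k4.2 k3)
  have hB : ∀ x x' y, (x' = x + 1 ∨ x = x' + 1) → Ins (Wl ω) e (x, y) → ¬Ins (Wl ω) e (x', y) →
      ∀ z z' : P, Ins (Wl ω) e z → Ins (Wl ω) e z' → z'.2 - z.2 < g := by
    intro x x' y hx k1 k2 z z' hz hz'
    by_contra hn
    obtain ⟨t, t1, t2, t3⟩ := hV (min x x') z.2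
    obtain ⟨s, hs⟩ := ins_row hz hz' (y := z.2 + t) (by omega) (by omega)
    have k3 : Ins (Wl ω) e (x, z.2 + t) := h.prod he k1 hs
    have k4 := (t3.free he).ins
    apply k2
    rcases hx with rfl | rfl
    · rw [min_eq_left (by omega)] at k4
      exact h.prod he (k4.1 k3) k1
    · rw [min_eq_right (by omega)] at k4
      exact h.prod he (k4.2 k3) k1
  have h1 : Ins (Wl ω) e (e.1.1, e.1.2) := ins_self e
  have h2 : ¬Ins (Wl ω) e (e.2.1, e.2.2) := h.solG.wallSys.not_ins_out he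
  rcases wl_adj he with ⟨k1, k2⟩ | ⟨k1, k2⟩
  · have hy := hB _ _ _ k2 h1 (k1 ▸ h2)
    obtain ⟨u, hu, hu'⟩ := Int.exists_greatest_of_bdd (P := fun u => Ins (Wl ω) e (e.1.1, u))
      ⟨e.1.2 + g, fun u hu => by have := hy _ _ h1 hu; simp only at this; omega⟩ ⟨_, h1⟩
    exact ⟨hA _ u (u + 1) (Or.inl rfl) hu (fun k => by have := hu' _ k; omega) _ _ hz hz',
      hy _ _ hz hz'⟩
  · have hx := hA _ _ _ k2 h1 (k1 ▸ h2)
    obtain ⟨u, hu, hu'⟩ := Int.exists_greatest_of_bdd (P := fun u => Ins (Wl ω) e (u, e.1.2))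
      ⟨e.1.1 + g, fun u hu => by have := hx _ _ h1 hu; simp only at this; omega⟩ ⟨_, h1⟩
    exact ⟨hx _ _ hz hz',
      hB u (u + 1) _ (Or.inl rfl) hu (fun k => by have := hu' _ k; omega) _ _ hz hz'⟩

lemma finite_box (p : P) (g : ℤ) :
    {z : P | p.1 - g < z.1 ∧ z.1 < p.1 + g ∧ p.2 - g < z.2 ∧ z.2 < p.2 + g}.Finite :=
  ((Set.finite_Ioo (p.1 - g) (p.1 + g)).prod (Set.finite_Ioo (p.2 - g) (p.2 + g))).subset
    fun _ hz => ⟨⟨hz.1, hz.2.1⟩, hz.2.2⟩

theorem SolR.phase (h : SolR ω) {g : ℤ}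
    (hH : ∀ x y, ∃ t, 0 ≤ t ∧ t < g ∧ NW (Wl ω) (x + t, y) (x + t, y + 1))
    (hV : ∀ x y, ∃ t, 0 ≤ t ∧ t < g ∧ NW (Wl ω) (x, y + t) (x + 1, y + t)) :
    (∃ v, Out (Wl ω) v) ∧ ∀ v v', Out (Wl ω) v → Out (Wl ω) v' →
      (Eps (fun u => (ω u).col) v ↔ Eps (fun u => (ω u).col) v') := by
  have key : ∀ e : P × P, Wl ω e.1 e.2 → ∀ p, Ins (Wl ω) e p → {z | Ins (Wl ω) e z} ⊆
      {z : P | p.1 - g < z.1 ∧ z.1 < p.1 + g ∧ p.2 - g < z.2 ∧ z.2 < p.2 + g} := by
    intro e he p hp z hz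
    have k1 := h.bounded he hH hV hp hz
    have k2 := h.bounded he hH hV hz hp
    simp only [Set.mem_ofPred_eq]
    omega
  refine h.solG.wallSys.phase h.solG.col
    (fun e he => (finite_box e.1 g).subset (key e he _ (ins_self e))) fun p => ?_
  refine (finite_box p g).finite_subsets.subset ?_
  rintro _ ⟨e, he, rfl, hp⟩
  exact key e he p hp

end Pool.Agent.Lib.MP_946880_lc.H69
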