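import Pool.Agent.Lib.MP_946880_lc.H69Cell

/- The three types of components in the needle mode. -/

namespace Pool.Agent.Lib.MP_946880_lc.H69

open Relation

variable {ω : P → Lab} {W : P → P → Prop} {e : P × P}

lemma WallSys.conn_we (h : WallSys W) (he : W e.1 e.2) {x y : ℤ} (h1 : Ins W e (x, y))
    (h2 : ¬Ins W e (x - 1, y)) : Conn W e (we (x, y)) :=
  h.bdry he (by simp [Adj]) h1 h2

lemma WallSys.conn_ee (h : WallSys W) (he : W e.1 e.2) {x y : ℤ} (h1 : Ins W e (x, y))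
    (h2 : ¬Ins W e (x + 1, y)) : Conn W e (ee (x, y)) :=
  h.bdry he (by simp [Adj]) h1 h2

lemma WallSys.ext_of (h : WallSys W) (he : W e.1 e.2) {σ : ℤ} {p q : P} (hc : Conn W e (we p))
    (hq : Ins W e q) (hm : ∀ z, Ins W e z → σ * q.2 < σ * z.2 ∨ (q.2 = z.2 ∧ q.1 ≤ z.1)) :
    Ext σ W p q :=
  ⟨hc.wall he, (h.ins_congr he hc _).1 hq, fun z hz => hm z ((h.ins_congr he hc _).2 hz)⟩

/-- a piece with all rows bounded has an empty row -/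
lemma SolV.no_strip (h : SolV ω) (he : Wl ω e.1 e.2) (hne : ∀ y, ∃ x, Ins (Wl ω) e (x, y))
    {a b : ℤ} (ha : Conn (Wl ω) e (we (a, 0))) (hb : Conn (Wl ω) e (ee (b, 0))) : False := by
  have hw := h.solG.wallSys
  let L : P → Prop := fun z => ∀ x, Ins (Wl ω) e (x, z.2) → z.1 < x
  have hv : ∀ x y x0, Ins (Wl ω) e (x0, y) → ¬Ins (Wl ω) e (x, y) → (L (x, y) ↔ x < x0) := by
    intro x y x0 h1 h2
    refine ⟨fun k => k x0 h1, fun k t ht => ?_⟩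
    by_contra hn
    exact h2 (h.convex he ht h1 x (by simp only at hn; omega) (by omega))
  have h1 : ∀ x y, ¬Ins (Wl ω) e (x, y) → ¬Ins (Wl ω) e (x + 1, y) → (L (x, y) ↔ L (x + 1, y)) := by
    intro x y k1 k2
    obtain ⟨x0, k0⟩ := hne y
    have : x0 ≠ x + 1 := by rintro rfl; exact k2 k0
    rw [hv x y x0 k0 k1, hv (x + 1) y x0 k0 k2]
    omega
  have h2 : ∀ x y, ¬Ins (Wl ω) e (x, y) → ¬Ins (Wl ω) e (x, y + 1) → (L (x, y) ↔ L (x, y + 1)) := by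
    intro x y k1 k2
    obtain ⟨s, hs⟩ := hne y
    obtain ⟨t, ht⟩ := hne (y + 1)
    obtain ⟨x0, k3, k4⟩ := ins_crossing hs ht (y := y) le_rfl (by simp)
    rw [hv x y x0 k3 k1, hv x (y + 1) x0 k4 k2]
  have h3 : ∀ u v, Same (Wl ω) u v → ¬Ins (Wl ω) e u → (L u ↔ L v) := by
    intro u v huv hu
    induction huv with
    | refl => rfl
    | @tail v w k1 k2 ih =>
      have k3 : ¬Ins (Wl ω) e v := fun k => hu ((Same.ins he k1).2 k)
      have k4 : ¬Ins (Wl ω) e w := fun k => k3 ((k2.free he).ins.2 k)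
      refine ih.trans ?_
      obtain ⟨v1, v2⟩ := v
      obtain ⟨w1, w2⟩ := w
      rcases k2.1 with ⟨j1, j2 | j2⟩ | ⟨j1, j2 | j2⟩ <;> simp only at j1 j2 <;> subst j1 j2
      · exact h1 _ _ k3 k4
      · exact (h1 _ _ k4 k3).symm
      · exact h2 _ _ k3 k4
      · exact (h2 _ _ k4 k3).symm
  have k1 := h3 _ _ (hw.conn_same (ha.symm.trans hb)).2 (hw.not_ins_of_conn he ha)
  have k2 := hv _ _ _ (hw.ins_of_conn he ha) (hw.not_ins_of_conn he ha)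
  have k3 := hv _ _ _ (hw.ins_of_conn he hb) (hw.not_ins_of_conn he hb)
  simp only [we, ee] at k1 k2 k3
  have := k3.1 (k1.1 (k2.2 (by omega)))
  omega

lemma int_const {Q : ℤ → Prop} (h : ∀ y, Q y ↔ Q (y + 1)) (y y' : ℤ) : Q y ↔ Q y' := by
  induction y' using Int.inductionOn' (b := y) with
  | zero => rfl
  | succ k _ ih => exact ih.trans (h k)
  | pred k _ ih => exact ih.trans (by simpa using (h (k - 1)).symm)

theorem SolV.types (h : SolV ω) (hH : HGood (Wl ω)) (hF : FinExt (Wl ω)) {e : P × P}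
    (he : Wl ω e.1 e.2) :
    {z | Ins (Wl ω) e z}.Finite ∨ (∀ y, ∃ x, Conn (Wl ω) e (we (x, y)) ∧ LW (Wl ω) (x, y)) ∨
      (∀ y, ∃ x, Conn (Wl ω) e (ee (x, y)) ∧ RW (Wl ω) (x, y)) := by
  have hw := h.solG.wallSys
  let R : ℤ → Prop := fun y => ∀ x, ∃ t, x ≤ t ∧ Ins (Wl ω) e (t, y)
  let L : ℤ → Prop := fun y => ∀ x, ∃ t, t ≤ x ∧ Ins (Wl ω) e (t, y)
  have hR : ∀ y s x, R y → Ins (Wl ω) e (s, y) → s ≤ x → Ins (Wl ω) e (x, y) := by
    intro y s x k1 k2 k3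
    obtain ⟨t, k4, k5⟩ := k1 x
    exact h.convex he k2 k5 x (by omega) (by omega)
  have hL : ∀ y s x, L y → Ins (Wl ω) e (s, y) → x ≤ s → Ins (Wl ω) e (x, y) := by
    intro y s x k1 k2 k3
    obtain ⟨t, k4, k5⟩ := k1 x
    exact h.convex he k2 k5 x (by omega) (by omega)
  have cR : ∀ y y', R y ↔ R y' := int_const fun y => by
    constructor <;> intro k x <;> obtain ⟨s, -, hs⟩ := k 0 <;>
      obtain ⟨t, t1, t2⟩ := (hH (max x s) y).1
    · exact ⟨t, by omega, (t2.free he).ins.1 (hR _ s t k hs (by omega))⟩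
    · exact ⟨t, by omega, (t2.free he).ins.2 (hR _ s t k hs (by omega))⟩
  have cL : ∀ y y', L y ↔ L y' := int_const fun y => by
    constructor <;> intro k x <;> obtain ⟨s, -, hs⟩ := k 0 <;>
      obtain ⟨t, t1, t2⟩ := (hH (min x s) y).2
    · exact ⟨t, by omega, (t2.free he).ins.1 (hL _ s t k hs (by omega))⟩
    · exact ⟨t, by omega, (t2.free he).ins.2 (hL _ s t k hs (by omega))⟩
  have lo : ∀ y, ¬L y → (∃ x, Ins (Wl ω) e (x, y)) →
      ∃ x, Ins (Wl ω) e (x, y) ∧ ∀ t, Ins (Wl ω) e (t, y) → x ≤ t := by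
    intro y k1 k2
    simp only [L, not_forall, not_exists, not_and] at k1
    obtain ⟨b, hb⟩ := k1
    exact Int.exists_least_of_bdd ⟨b, fun t ht => by by_contra k; exact hb t (by omega) ht⟩ k2
  have hi : ∀ y, ¬R y → (∃ x, Ins (Wl ω) e (x, y)) →
      ∃ x, Ins (Wl ω) e (x, y) ∧ ∀ t, Ins (Wl ω) e (t, y) → t ≤ x := by
    intro y k1 k2
    simp only [R, not_forall, not_exists, not_and] at k1
    obtain ⟨b, hb⟩ := k1
    exact Int.exists_greatest_of_bdd ⟨b, fun t ht => by by_contra k; exact hb t (by omega) ht⟩ k2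
  have lo' : ∀ y x, Ins (Wl ω) e (x, y) → (∀ t, Ins (Wl ω) e (t, y) → x ≤ t) →
      Conn (Wl ω) e (we (x, y)) := fun y x k1 k2 =>
    hw.conn_we he k1 fun k => by have := k2 _ k; omega
  have hi' : ∀ y x, Ins (Wl ω) e (x, y) → (∀ t, Ins (Wl ω) e (t, y) → t ≤ x) →
      Conn (Wl ω) e (ee (x, y)) := fun y x k1 k2 =>
    hw.conn_ee he k1 fun k => by have := k2 _ k; omega
  by_cases kR : R 0 <;> by_cases kL : L 0
  · obtain ⟨t, t1, t2⟩ := (cL 0 e.2.2).1 kL e.2.1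
    exact absurd (hR _ t _ ((cR 0 _).1 kR) t2 t1) (hw.not_ins_out he)
  · refine Or.inr (Or.inl fun y => ?_)
    have k1 := (cR 0 y).1 kR
    obtain ⟨x, x1, x2⟩ := lo y (fun k => kL ((cL 0 y).2 k)) ((k1 0).imp fun _ k => k.2)
    have k2 := lo' y x x1 x2
    exact ⟨x, k2, k2.wall he, fun t ht => (hw.ins_congr he k2 _).1 (hR _ _ _ k1 x1 ht)⟩
  · refine Or.inr (Or.inr fun y => ?_)
    have k1 := (cL 0 y).1 kL
    obtain ⟨x, x1, x2⟩ := hi y (fun k => kR ((cR 0 y).2 k)) ((k1 0).imp fun _ k => k.2)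
    have k2 := hi' y x x1 x2
    exact ⟨x, k2, k2.wall he, fun t ht => (hw.ins_congr he k2 _).1 (hL _ _ _ k1 x1 ht)⟩
  left
  have nL : ∀ y, ¬L y := fun y k => kL ((cL 0 y).2 k)
  have nR : ∀ y, ¬R y := fun y k => kR ((cR 0 y).2 k)
  have fin : {y | ∃ x, Ins (Wl ω) e (x, y)}.Finite → {z | Ins (Wl ω) e z}.Finite := by
    intro k
    refine (k.biUnion (t := fun y => {z : P | z.2 = y ∧ Ins (Wl ω) e z}) fun y hy => ?_).subset
      fun z hz => Set.mem_biUnion (x := z.2) ⟨z.1, hz⟩ ⟨rfl, hz⟩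
    obtain ⟨a, -, ha⟩ := lo y (nL y) hy
    obtain ⟨b, -, hb⟩ := hi y (nR y) hy
    refine ((Set.finite_Icc a b).image fun x => (x, y)).subset ?_
    rintro ⟨x, _⟩ ⟨rfl, hx⟩
    exact ⟨x, ⟨ha x hx, hb x hx⟩, rfl⟩
  have ext : ∀ σ : ℤ, (∀ q, {p | Ext σ (Wl ω) p q}.Finite) → ∀ y0, (∃ x, Ins (Wl ω) e (x, y0)) →
      (∀ y, (∃ x, Ins (Wl ω) e (x, y)) → σ * y0 < σ * y ∨ y0 = y) →
      {z | Ins (Wl ω) e z}.Finite := by
    intro σ k y0 k1 k2
    obtain ⟨a, a1, a2⟩ := lo y0 (nL y0) k1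
    refine fin (((k (a, y0)).image Prod.snd).subset fun y hy => ?_)
    obtain ⟨x, x1, x2⟩ := lo y (nL y) hy
    refine ⟨(x, y), hw.ext_of he (lo' y x x1 x2) a1 fun z hz => ?_, rfl⟩
    rcases k2 z.2 ⟨z.1, hz⟩ with k3 | rfl
    · exact Or.inl k3
    · exact Or.inr ⟨rfl, a2 _ hz⟩
  have e0 : ∃ x, Ins (Wl ω) e (x, e.1.2) := ⟨e.1.1, ins_self e⟩
  by_cases k1 : ∃ b, ∀ y, (∃ x, Ins (Wl ω) e (x, y)) → b ≤ y
  · obtain ⟨y0, y1, y2⟩ := Int.exists_least_of_bdd k1 ⟨_, e0⟩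
    exact ext 1 (fun q => (hF q).1) y0 y1 fun y hy => by have := y2 y hy; omega
  by_cases k2 : ∃ b, ∀ y, (∃ x, Ins (Wl ω) e (x, y)) → y ≤ b
  · obtain ⟨y0, y1, y2⟩ := Int.exists_greatest_of_bdd k2 ⟨_, e0⟩
    exact ext (-1) (fun q => (hF q).2) y0 y1 fun y hy => by have := y2 y hy; omega
  exfalso
  push Not at k1 k2
  have hne : ∀ y, ∃ x, Ins (Wl ω) e (x, y) := fun y => by
    obtain ⟨y1, ⟨x1, a1⟩, b1⟩ := k1 y
    obtain ⟨y2, ⟨x2, a2⟩, b2⟩ := k2 y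
    exact ins_row a1 a2 b1.le b2.le
  obtain ⟨a, a1, a2⟩ := lo 0 (nL 0) (hne 0)
  obtain ⟨b, b1, b2⟩ := hi 0 (nR 0) (hne 0)
  exact h.no_strip he hne (lo' _ _ a1 a2) (hi' _ _ b1 b2)

theorem SolV.root_unique (h : SolV ω)
    (hfin : ∀ e : P × P, Wl ω e.1 e.2 → {z | Ins (Wl ω) e z}.Finite) {q q' z : P}
    (hq : Ext 1 (Wl ω) q q) (hq' : Ext 1 (Wl ω) q' q') (hz : Cell (Wl ω) (we q) z)
    (hz' : Cell (Wl ω) (we q') z) : q = q' := by
  have hw := h.solG.wallSys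
  have w1 : Wl ω (we q).1 (we q).2 := hq.1
  have w2 : Wl ω (we q').1 (we q').2 := hq'.1
  by_cases hc : Conn (Wl ω) (we q) (we q')
  · exact hq'.unique (hw.ext_of w1 hc hq.2.1 hq.2.2) |>.symm
  · exact (hw.not_both w1 w2 hc (hfin _ w1) (hfin _ w2)
      ((hz'.2 _ w1 fun k => hc k.symm).1 hz.1) ((hz.2 _ w2 hc).1 hz'.1)).elim

theorem SolV.phase (h : SolV ω) (hfin : ∀ e : P × P, Wl ω e.1 e.2 → {z | Ins (Wl ω) e z}.Finite)
    (hloc : ∀ p, {q | Ext 1 (Wl ω) q q ∧ Ins (Wl ω) (we q) p}.Finite) :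
    (∃ v, Out (Wl ω) v) ∧ ∀ v v', Out (Wl ω) v → Out (Wl ω) v' →
      (Eps (fun u => (ω u).col) v ↔ Eps (fun u => (ω u).col) v') := by
  have hw := h.solG.wallSys
  refine hw.phase h.solG.col hfin fun p => ?_
  refine ((hloc p).image fun q => {z | Ins (Wl ω) (we q) z}).subset ?_
  rintro _ ⟨e, he, rfl, hp⟩
  obtain ⟨u, hu, hu'⟩ := Set.exists_min_image _ (fun z : P => toLex (z.2, z.1)) (hfin e he)
    ⟨_, ins_self e⟩
  have hm : ∀ z, Ins (Wl ω) e z → 1 * u.2 < 1 * z.2 ∨ (u.2 = z.2 ∧ u.1 ≤ z.1) := fun z hz => by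
    simpa [Prod.Lex.toLex_le_toLex] using hu' z hz
  have hc : Conn (Wl ω) e (we u) := hw.conn_we he (x := u.1) (y := u.2) hu fun k => by
    have := hm _ k
    simp only at this
    omega
  exact ⟨u, ⟨hw.ext_of he hc hu hm, (hw.ins_congr he hc _).1 hp⟩,
    Set.ext fun z => (hw.ins_congr he hc z).symm⟩

end Pool.Agent.Lib.MP_946880_lc.H69
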