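import Pool.Agent.Lib.MP_946880_lc.H69Rule

/- Wall systems on the grid: components, insides, nesting. -/

namespace Pool.Agent.Lib.MP_946880_lc.H69

open Relation

/-- `I` is the set of inner pixels of the block at `p` -/
structure BlkOK (W : P → P → Prop) (p : P) (I : P → Prop) : Prop where
  nd : ¬((I p ↔ I (p.1 + 1, p.2 + 1)) ∧ (I (p.1 + 1, p.2) ↔ I (p.1, p.2 + 1)) ∧
    ¬(I p ↔ I (p.1 + 1, p.2)))
  iff : ∀ a b, Blk p a → Blk p b → Adj a b → (W a b ↔ I a ∧ ¬I b)

/-- `W a b`: there is a wall between `a` (inner pixel) and `b` (outer pixel) -/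
structure WallSys (W : P → P → Prop) : Prop where
  adj : ∀ a b, W a b → Adj a b
  blk : ∀ p, ∃ I, BlkOK W p I

def NW (W : P → P → Prop) (u v : P) : Prop := Adj u v ∧ ¬W u v ∧ ¬W v u

def Same (W : P → P → Prop) : P → P → Prop := ReflTransGen (NW W)

def Step (W : P → P → Prop) (e e' : P × P) : Prop :=
  W e.1 e.2 ∧ W e'.1 e'.2 ∧ ∃ p, Blk p e.1 ∧ Blk p e.2 ∧ Blk p e'.1 ∧ Blk p e'.2

def Conn (W : P → P → Prop) : P × P → P × P → Prop := ReflTransGen (Step W)

def Free (W : P → P → Prop) (e : P × P) (u v : P) : Prop :=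
  Adj u v ∧ ¬Conn W e (u, v) ∧ ¬Conn W e (v, u)

def Ins (W : P → P → Prop) (e : P × P) (z : P) : Prop := ReflTransGen (Free W e) e.1 z

variable {W : P → P → Prop}

lemma adj_blk {a b : P} (h : Adj a b) : ∃ p, Blk p a ∧ Blk p b :=
  ⟨(min a.1 b.1, min a.2 b.2), by unfold Adj at h; unfold Blk; omega, by
    unfold Adj at h; unfold Blk; omega⟩

lemma WallSys.asymm (h : WallSys W) {a b : P} (hab : W a b) : ¬W b a := by
  obtain ⟨p, ha, hb⟩ := adj_blk (h.adj a b hab)
  obtain ⟨I, hI⟩ := h.blk p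
  intro hba
  exact ((hI.iff a b ha hb (h.adj a b hab)).1 hab).2 ((hI.iff b a hb ha (h.adj b a hba)).1 hba).1

lemma NW.symm {u v : P} (h : NW W u v) : NW W v u := ⟨h.1.symm, h.2.2, h.2.1⟩

lemma rtg_symm {α : Type} {r : α → α → Prop} (hr : ∀ a b, r a b → r b a) {a b : α}
    (h : ReflTransGen r a b) : ReflTransGen r b a := by
  induction h with
  | refl => exact ReflTransGen.refl
  | tail _ hs ih => exact ReflTransGen.head (hr _ _ hs) ih

lemma Same.symm {u v : P} (h : Same W u v) : Same W v u :=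
  rtg_symm (fun _ _ => NW.symm) h

lemma Same.trans {u v w : P} (h : Same W u v) (h' : Same W v w) : Same W u w :=
  ReflTransGen.trans h h'

lemma BlkOK.nw {p : P} {I : P → Prop} (hI : BlkOK W p I) {x y : P} (hx : Blk p x) (hy : Blk p y)
    (ha : Adj x y) (h : I x ↔ I y) : NW W x y := by
  refine ⟨ha, ?_, ?_⟩
  · rw [hI.iff x y hx hy ha]; tauto
  · rw [hI.iff y x hy hx ha.symm]; tauto

lemma BlkOK.same {p : P} {I : P → Prop} (hI : BlkOK W p I) {x y : P} (hx : Blk p x) (hy : Blk p y)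
    (h : I x ↔ I y) : Same W x y := by
  have nd := hI.nd
  have ba : Blk p p := by simp [Blk]
  have bb : Blk p (p.1 + 1, p.2) := by simp [Blk]
  have bc : Blk p (p.1, p.2 + 1) := by simp [Blk]
  have bd : Blk p (p.1 + 1, p.2 + 1) := by simp [Blk]
  have s1 : ∀ {u v}, Blk p u → Blk p v → Adj u v → (I u ↔ I v) → Same W u v :=
    fun hu hv ha hi => ReflTransGen.single (hI.nw hu hv ha hi)
  have ad : (I p ↔ I (p.1 + 1, p.2 + 1)) → Same W p (p.1 + 1, p.2 + 1) := by
    intro h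
    by_cases h1 : I p ↔ I (p.1 + 1, p.2)
    · exact (s1 ba bb (by simp [Adj]) h1).trans (s1 bb bd (by simp [Adj]) (h1.symm.trans h))
    · have h2 : I p ↔ I (p.1, p.2 + 1) := by tauto
      exact (s1 ba bc (by simp [Adj]) h2).trans (s1 bc bd (by simp [Adj]) (h2.symm.trans h))
  have bc' : (I (p.1 + 1, p.2) ↔ I (p.1, p.2 + 1)) → Same W (p.1 + 1, p.2) (p.1, p.2 + 1) := by
    intro h
    by_cases h1 : I p ↔ I (p.1 + 1, p.2)
    · exact (s1 bb ba (by simp [Adj]) h1.symm).trans (s1 ba bc (by simp [Adj]) (h1.trans h))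
    · have h2 : I (p.1 + 1, p.2) ↔ I (p.1 + 1, p.2 + 1) := by tauto
      exact (s1 bb bd (by simp [Adj]) h2).trans (s1 bd bc (by simp [Adj]) (h2.symm.trans h))
  rcases blk_cases hx with rfl | rfl | rfl | rfl <;> rcases blk_cases hy with h' | h' | h' | h' <;>
    rw [h'] at h ⊢
  all_goals first
    | exact ReflTransGen.refl
    | exact ad h
    | exact (ad h.symm).symm
    | exact bc' h
    | exact (bc' h.symm).symm
    | exact s1 (by simp [Blk]) (by simp [Blk]) (by simp [Adj]) h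

lemma Step.symm {e e' : P × P} (h : Step W e e') : Step W e' e := by
  obtain ⟨h1, h2, p, h3, h4, h5, h6⟩ := h
  exact ⟨h2, h1, p, h5, h6, h3, h4⟩

lemma Conn.symm {e e' : P × P} (h : Conn W e e') : Conn W e' e :=
  rtg_symm (fun _ _ => Step.symm) h

lemma Conn.trans {e e' e'' : P × P} (h : Conn W e e') (h' : Conn W e' e'') : Conn W e e'' :=
  ReflTransGen.trans h h'

lemma Conn.rfl {e : P × P} : Conn W e e := ReflTransGen.refl

lemma Conn.wall {e e' : P × P} (h : Conn W e e') (he : W e.1 e.2) : W e'.1 e'.2 := by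
  induction h with
  | refl => exact he
  | tail _ h _ => exact h.2.1

lemma conn_of_blk {p : P} {e e' : P × P} (he : W e.1 e.2) (he' : W e'.1 e'.2) (h1 : Blk p e.1)
    (h2 : Blk p e.2) (h3 : Blk p e'.1) (h4 : Blk p e'.2) : Conn W e e' :=
  ReflTransGen.single ⟨he, he', p, h1, h2, h3, h4⟩

lemma WallSys.conn_same (h : WallSys W) {e e' : P × P} (hc : Conn W e e') :
    Same W e.1 e'.1 ∧ Same W e.2 e'.2 := by
  induction hc with
  | refl => exact ⟨ReflTransGen.refl, ReflTransGen.refl⟩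
  | tail _ hs ih =>
    obtain ⟨h1, h2, p, h3, h4, h5, h6⟩ := hs
    obtain ⟨I, hI⟩ := h.blk p
    have k1 := (hI.iff _ _ h3 h4 (h.adj _ _ h1)).1 h1
    have k2 := (hI.iff _ _ h5 h6 (h.adj _ _ h2)).1 h2
    exact ⟨ih.1.trans (hI.same h3 h5 (by tauto)), ih.2.trans (hI.same h4 h6 (by tauto))⟩

lemma Free.symm {e : P × P} {u v : P} (h : Free W e u v) : Free W e v u :=
  ⟨h.1.symm, h.2.2, h.2.1⟩

lemma Free.ins {e : P × P} {u v : P} (h : Free W e u v) : Ins W e u ↔ Ins W e v :=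
  ⟨fun hu => ReflTransGen.tail hu h, fun hv => ReflTransGen.tail hv h.symm⟩

lemma NW.free {e : P × P} (he : W e.1 e.2) {u v : P} (h : NW W u v) : Free W e u v :=
  ⟨h.1, fun hc => h.2.1 (hc.wall he), fun hc => h.2.2 (hc.wall he)⟩

lemma Same.ins {e : P × P} (he : W e.1 e.2) {u v : P} (h : Same W u v) :
    Ins W e u ↔ Ins W e v := by
  induction h with
  | refl => rfl
  | tail _ hs ih => exact ih.trans (hs.free he).ins

lemma ins_self (e : P × P) : Ins W e e.1 := ReflTransGen.refl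

lemma WallSys.ins_of_conn (h : WallSys W) {e e' : P × P} (he : W e.1 e.2) (hc : Conn W e e') :
    Ins W e e'.1 := ((h.conn_same hc).1.ins he).1 (ins_self e)

lemma WallSys.exists_chi (h : WallSys W) {e : P × P} (he : W e.1 e.2) :
    ∃ f : P → ZMod 2, ∀ u v, Adj u v →
      (f u = f v ↔ ¬Conn W e (u, v) ∧ ¬Conn W e (v, u)) := by
  classical
  let g : P → P → ZMod 2 := fun u v => if Conn W e (u, v) ∨ Conn W e (v, u) then 1 else 0
  have hg : ∀ x y, g (x, y) (x + 1, y) + g (x + 1, y) (x + 1, y + 1) =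
      g (x, y) (x, y + 1) + g (x, y + 1) (x + 1, y + 1) := by
    intro x y
    obtain ⟨I, hI⟩ := h.blk (x, y)
    by_cases hex : ∃ a b, Blk (x, y) a ∧ Blk (x, y) b ∧ Conn W e (a, b)
    · obtain ⟨a, b, ha, hb, hab⟩ := hex
      have key : ∀ u v, Blk (x, y) u → Blk (x, y) v → Adj u v →
          g u v = (if I u then 1 else 0) + (if I v then 1 else 0) := by
        intro u v hu hv huv
        have k : ∀ u v, Blk (x, y) u → Blk (x, y) v → Adj u v →
            (Conn W e (u, v) ↔ I u ∧ ¬I v) := fun u v hu hv huv => by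
          rw [← hI.iff u v hu hv huv]
          exact ⟨fun hc => hc.wall he, fun hw =>
            hab.trans (conn_of_blk (hab.wall he) hw ha hb hu hv)⟩
        simp only [g, k u v hu hv huv, k v u hv hu huv.symm]
        by_cases h1 : I u <;> by_cases h2 : I v <;> simp [h1, h2]
        decide
      rw [key _ _ (by simp [Blk]) (by simp [Blk]) (by simp [Adj]),
        key _ _ (by simp [Blk]) (by simp [Blk]) (by simp [Adj]),
        key _ _ (by simp [Blk]) (by simp [Blk]) (by simp [Adj]),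
        key _ _ (by simp [Blk]) (by simp [Blk]) (by simp [Adj])]
      generalize (if I (x, y) then (1 : ZMod 2) else 0) = s1
      generalize (if I (x + 1, y) then (1 : ZMod 2) else 0) = s2
      generalize (if I (x, y + 1) then (1 : ZMod 2) else 0) = s3
      generalize (if I (x + 1, y + 1) then (1 : ZMod 2) else 0) = s4
      revert s1 s2 s3 s4
      decide
    · have key : ∀ u v, Blk (x, y) u → Blk (x, y) v → g u v = 0 := by
        intro u v hu hv
        simp only [g]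
        rw [if_neg]
        rintro (hc | hc)
        · exact hex ⟨u, v, hu, hv, hc⟩
        · exact hex ⟨v, u, hv, hu, hc⟩
      rw [key _ _ (by simp [Blk]) (by simp [Blk]), key _ _ (by simp [Blk]) (by simp [Blk]),
        key _ _ (by simp [Blk]) (by simp [Blk]), key _ _ (by simp [Blk]) (by simp [Blk])]
  obtain ⟨f, hf1, hf2⟩ := exists_potential (fun p => g p (p.1 + 1, p.2))
    (fun p => g p (p.1, p.2 + 1)) hg
  have main : ∀ u v, f v = f u + g u v → (f u = f v ↔ ¬Conn W e (u, v) ∧ ¬Conn W e (v, u)) := by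
    intro u v huv
    rw [huv, ← not_or]
    simp only [g]
    split_ifs with hc
    · simp [hc]
    · simp [hc]
  refine ⟨f, fun u v huv => ?_⟩
  obtain ⟨u1, u2⟩ := u
  obtain ⟨v1, v2⟩ := v
  rcases huv with ⟨h1, h2 | h2⟩ | ⟨h1, h2 | h2⟩ <;> simp only at h1 h2 <;> subst h1 h2
  · exact main _ _ (hf1 _ _)
  · rw [eq_comm, and_comm]; exact main _ _ (hf1 _ _)
  · exact main _ _ (hf2 _ _)
  · rw [eq_comm, and_comm]; exact main _ _ (hf2 _ _)

lemma WallSys.not_ins_of_conn (h : WallSys W) {e e' : P × P} (he : W e.1 e.2)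
    (hc : Conn W e e') : ¬Ins W e e'.2 := by
  obtain ⟨f, hf⟩ := h.exists_chi he
  have k : ∀ z, Ins W e z → f e.1 = f z := by
    intro z hz
    induction hz with
    | refl => rfl
    | tail _ hs ih => exact ih.trans ((hf _ _ hs.1).2 hs.2)
  intro h2
  have := (hf e'.1 e'.2 (h.adj _ _ (hc.wall he))).1
    ((k _ (h.ins_of_conn he hc)).symm.trans (k _ h2))
  exact this.1 hc

lemma WallSys.not_ins_out (h : WallSys W) {e : P × P} (he : W e.1 e.2) : ¬Ins W e e.2 :=
  h.not_ins_of_conn he Conn.rfl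

lemma WallSys.ins_mono (h : WallSys W) {e e' : P × P} (he : W e.1 e.2) (hc : Conn W e e') {z : P}
    (hz : Ins W e' z) : Ins W e z := by
  induction hz with
  | refl => exact h.ins_of_conn he hc
  | tail _ hs ih =>
    exact ReflTransGen.tail ih
      ⟨hs.1, fun k => hs.2.1 (hc.symm.trans k), fun k => hs.2.2 (hc.symm.trans k)⟩

lemma WallSys.ins_congr (h : WallSys W) {e e' : P × P} (he : W e.1 e.2) (hc : Conn W e e')
    (z : P) : Ins W e z ↔ Ins W e' z :=
  ⟨h.ins_mono (hc.wall he) hc.symm, h.ins_mono he hc⟩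

lemma WallSys.bdry (h : WallSys W) {e : P × P} (he : W e.1 e.2) {u v : P} (huv : Adj u v)
    (hu : Ins W e u) (hv : ¬Ins W e v) : Conn W e (u, v) := by
  by_contra hn
  exact hv ((Free.ins ⟨huv, hn, fun k => hv (h.ins_of_conn he k)⟩).1 hu)

lemma WallSys.cross (h : WallSys W) {e e' : P × P} (he : W e.1 e.2) (he' : W e'.1 e'.2)
    (hn : ¬Conn W e e') : Ins W e e'.1 ↔ Ins W e e'.2 :=
  Free.ins ⟨h.adj _ _ he', hn, fun k => h.asymm he' (k.wall he)⟩

/-- the whole ring of another component lies on one side -/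
lemma WallSys.ring (h : WallSys W) {e e' e'' : P × P} (he : W e.1 e.2) (he' : W e'.1 e'.2)
    (hn : ¬Conn W e e') (hc : Conn W e' e'') :
    (Ins W e e'.1 ↔ Ins W e e''.1) ∧ (Ins W e e'.1 ↔ Ins W e e''.2) :=
  ⟨(h.conn_same hc).1.ins he, (h.cross he he' hn).trans ((h.conn_same hc).2.ins he)⟩

/-- a block without a wall of the component lies on one side -/
lemma blk_ins_iff {e : P × P} {p : P} (hn : ∀ a b, Blk p a → Blk p b → ¬Conn W e (a, b))
    {x y : P} (hx : Blk p x) (hy : Blk p y) : Ins W e x ↔ Ins W e y := by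
  have s1 : ∀ {u v}, Blk p u → Blk p v → Adj u v → (Ins W e u ↔ Ins W e v) :=
    fun hu hv ha => Free.ins ⟨ha, hn _ _ hu hv, hn _ _ hv hu⟩
  have k : ∀ {u}, Blk p u → (Ins W e p ↔ Ins W e u) := by
    intro u hu
    rcases blk_cases hu with rfl | rfl | rfl | rfl
    · rfl
    · exact s1 (by simp [Blk]) hu (by simp [Adj])
    · exact s1 (by simp [Blk]) hu (by simp [Adj])
    · exact (s1 (v := (p.1 + 1, p.2)) (by simp [Blk]) (by simp [Blk]) (by simp [Adj])).trans
        (s1 (by simp [Blk]) hu (by simp [Adj]))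
  exact (k hx).symm.trans (k hy)

lemma exists_east_exit {T : Set P} (hT : T.Finite) (hne : T.Nonempty) :
    ∃ u ∈ T, (u.1 + 1, u.2) ∉ T := by
  obtain ⟨u, hu, hmax⟩ := Set.exists_max_image T (fun u => u.1) hT hne
  refine ⟨u, hu, fun h => ?_⟩
  have := hmax _ h
  simp only at this
  omega

lemma WallSys.not_both (h : WallSys W) {e e' : P × P} (he : W e.1 e.2) (he' : W e'.1 e'.2)
    (hn : ¬Conn W e e') (hf : {z | Ins W e z}.Finite) (hf' : {z | Ins W e' z}.Finite)
    (h1 : Ins W e e'.1) (h2 : Ins W e' e.1) : False := by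
  obtain ⟨u, hu, hu'⟩ := exists_east_exit (hf.union hf') ⟨e.1, Or.inl (ins_self e)⟩
  simp only [Set.mem_union, Set.mem_ofPred_eq, not_or] at hu hu'
  have ha : Adj u (u.1 + 1, u.2) := by simp [Adj]
  rcases hu with hu | hu
  · exact hu'.2 ((h.ring he' he (fun k => hn k.symm) (h.bdry he ha hu hu'.1)).2.1 h2)
  · exact hu'.1 ((h.ring he he' hn (h.bdry he' ha hu hu'.2)).2.1 h1)

lemma WallSys.ins_subset (h : WallSys W) {e e' : P × P} (he : W e.1 e.2) (he' : W e'.1 e'.2)
    (hn : ¬Conn W e e') (hf : {z | Ins W e z}.Finite) (hf' : {z | Ins W e' z}.Finite)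
    (h1 : Ins W e e'.1) {z : P} (hz : Ins W e' z) : Ins W e z := by
  induction hz with
  | refl => exact h1
  | @tail u v hu hs ih =>
    by_contra hv
    have hc := h.bdry he hs.1 ih hv
    exact h.not_both he he' hn hf hf' h1 ((h.ring he' he (fun k => hn k.symm) hc).1.2 hu)

lemma WallSys.nested (h : WallSys W) {e e' : P × P} (he : W e.1 e.2) (he' : W e'.1 e'.2)
    (hn : ¬Conn W e e') (hf : {z | Ins W e z}.Finite) {z : P} (hz : Ins W e z)
    (hz' : Ins W e' z) : Ins W e e'.1 ∨ Ins W e' e.1 := by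
  obtain ⟨u, hu, hu'⟩ := exists_east_exit (hf.inter_of_left {z | Ins W e' z}) ⟨z, hz, hz'⟩
  simp only [Set.mem_inter_iff, Set.mem_ofPred_eq, not_and_or] at hu hu'
  have ha : Adj u (u.1 + 1, u.2) := by simp [Adj]
  rcases hu' with hu' | hu'
  · exact Or.inr ((h.ring he' he (fun k => hn k.symm) (h.bdry he ha hu.1 hu')).1.2 hu.2)
  · exact Or.inl ((h.ring he he' hn (h.bdry he' ha hu.2 hu')).1.2 hu.1)

/-- pixels outside every piece -/
def Out (W : P → P → Prop) (p : P) : Prop := ∀ e : P × P, W e.1 e.2 → ¬Ins W e p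

/-- the phase of a colouring -/
def Eps (col : P → Bool) (u : P) : Prop := col u = true ↔ Even (u.1 + u.2)

lemma eps_adj {col : P → Bool} {u v : P} (ha : Adj u v) (hc : col u ≠ col v) :
    Eps col u ↔ Eps col v := by
  have : Even (u.1 + u.2) ↔ ¬Even (v.1 + v.2) := by
    simp only [Int.even_iff]
    unfold Adj at ha
    omega
  unfold Eps
  rw [this]
  revert hc
  cases col u <;> cases col v <;> simp

lemma eps_same {col : P → Bool} (hcol : ∀ u v, NW W u v → col u ≠ col v) {u v : P}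
    (h : Same W u v) : Eps col u ↔ Eps col v := by
  induction h with
  | refl => rfl
  | tail _ hs ih => exact ih.trans (eps_adj hs.1 (hcol _ _ hs))

lemma Same.out {u v : P} (h : Same W u v) (hu : Out W u) : Out W v :=
  fun e he hv => hu e he ((h.ins he).2 hv)

theorem WallSys.phase (h : WallSys W) {col : P → Bool} (hcol : ∀ u v, NW W u v → col u ≠ col v)
    (hfin : ∀ e : P × P, W e.1 e.2 → {z | Ins W e z}.Finite)
    (hloc : ∀ p, {S : Set P | ∃ e : P × P, W e.1 e.2 ∧ S = {z | Ins W e z} ∧ p ∈ S}.Finite) :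
    (∃ v, Out W v) ∧ ∀ v v', Out W v → Out W v' → (Eps col v ↔ Eps col v') := by
  let Val : P → P → Prop := fun p v =>
    Out W v ∧ (v = p ∨ ∃ e : P × P, W e.1 e.2 ∧ Ins W e p ∧ v = e.2)
  have h1 : ∀ p, ∃ v, Val p v := by
    intro p
    by_cases hp : Out W p
    · exact ⟨p, hp, Or.inl rfl⟩
    simp only [Out, not_forall, not_not] at hp
    obtain ⟨e0, he0, hp⟩ := hp
    obtain ⟨S, ⟨e, he, rfl, hpe⟩, hmax⟩ := (hloc p).exists_maximal ⟨_, e0, he0, rfl, hp⟩
    refine ⟨e.2, fun e' he' h2 => ?_, Or.inr ⟨e, he, hpe, rfl⟩⟩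
    have hn : ¬Conn W e' e := fun k => h.not_ins_of_conn he' k h2
    have hsub : {z | Ins W e z} ≤ {z | Ins W e' z} := fun z hz =>
      h.ins_subset he' he hn (hfin _ he') (hfin _ he) ((h.cross he' he hn).2 h2) hz
    exact h.not_ins_out he (hmax ⟨e', he', rfl, hsub hpe⟩ hsub h2)
  have h2 : ∀ u v, Adj u v → ∀ w, Val u w → ∃ w', Val v w' ∧ (Eps col w ↔ Eps col w') := by
    rintro u v huv w ⟨hw, rfl | ⟨e, he, hu, rfl⟩⟩
    · by_cases hvw : W v w
      · exact ⟨w, ⟨hw, Or.inr ⟨(v, w), hvw, ins_self _, rfl⟩⟩, Iff.rfl⟩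
      · have hnw : NW W w v := ⟨huv, fun k => hw (w, v) k (ins_self _), hvw⟩
        exact ⟨v, ⟨Same.out (ReflTransGen.single hnw) hw, Or.inl rfl⟩,
          eps_adj huv (hcol _ _ hnw)⟩
    · by_cases hv : Ins W e v
      · exact ⟨e.2, ⟨hw, Or.inr ⟨e, he, hv, rfl⟩⟩, Iff.rfl⟩
      · have hs := (h.conn_same (h.bdry he huv hu hv)).2
        exact ⟨v, ⟨hs.out hw, Or.inl rfl⟩, eps_same hcol hs⟩
  refine ⟨(h1 0).imp fun v hv => hv.1, fun v v' hv hv' => ?_⟩
  have h3 : ∃ w, Val v' w ∧ (Eps col v ↔ Eps col w) := by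
    refine grid_induction (Q := fun p => ∃ w, Val p w ∧ (Eps col v ↔ Eps col w)) (a := v)
      ⟨v, ⟨hv, Or.inl rfl⟩, Iff.rfl⟩ ?_ v'
    rintro a b hab ⟨w, hw, hw'⟩
    obtain ⟨w', k1, k2⟩ := h2 a b hab w hw
    exact ⟨w', k1, hw'.trans k2⟩
  obtain ⟨w, ⟨-, rfl | ⟨e, he, hu, -⟩⟩, hw⟩ := h3
  · exact hw
  · exact absurd hu (hv' e he)

end Pool.Agent.Lib.MP_946880_lc.H69
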